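import Pool.Agent.Lib.MP_39893a_lc.Iso

/-!
# Separation of trees by affine interpretations: the Strahler number of the minimal DAG
(MP_39893a_lc)

`dstr` is the Strahler number, except that a maximum attained by several children only counts
twice if it is attained by two different subtrees. Trees with `dstr t ≤ k` are separated from all
other trees by the affine interpretations of dimension `k + 1`.
-/

set_option autoImplicit false

open Finset

namespace Pool.Agent.Lib.MP_39893a_lc

open Classical in
/-- The Strahler number of the minimal DAG of a tree: `0` for a leaf; the maximum `m` over the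
children if all children attaining it are equal, and `m + 1` if it is attained by two different
subtrees. -/
noncomputable def dstr : Tree → ℕ
  | .node _ r c =>
      let m := Finset.univ.sup fun i : Fin r => dstr (c i)
      if ∃ i j : Fin r, dstr (c i) = m ∧ dstr (c j) = m ∧ c i ≠ c j then m + 1 else m

theorem dstr_child_le {b r : ℕ} {c : Fin r → Tree} (i : Fin r) :
    dstr (c i) ≤ dstr (.node b r c) := by
  have h1 : dstr (c i) ≤ Finset.univ.sup fun i : Fin r => dstr (c i) :=
    Finset.le_sup (f := fun i : Fin r => dstr (c i)) (Finset.mem_univ i)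
  rw [dstr]
  split <;> omega

theorem dstr_unique {b r k : ℕ} {c : Fin r → Tree} (h : dstr (.node b r c) ≤ k)
    (i j : Fin r) (hi : dstr (c i) = k) (hj : dstr (c j) = k) : c i = c j := by
  by_contra hij
  have h1 : ∀ l, dstr (c l) ≤ k := fun l => (dstr_child_le l).trans h
  have hm : (Finset.univ.sup fun i : Fin r => dstr (c i)) = k := by
    apply le_antisymm
    · exact Finset.sup_le fun l _ => h1 l
    · rw [← hi]
      exact Finset.le_sup (f := fun i : Fin r => dstr (c i)) (Finset.mem_univ i)
  rw [dstr] at h
  rw [hm, if_pos ⟨i, j, hi, hj, hij⟩] at h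
  omega

/-- The Strahler number of the minimal DAG is at most the Strahler number. -/
theorem dstr_le_strahler (t : Tree) : dstr t ≤ strahler t := by
  induction t with
  | node b r c ih =>
    have hsup : (Finset.univ.sup fun i : Fin r => dstr (c i))
        ≤ Finset.univ.sup fun i : Fin r => strahler (c i) :=
      Finset.sup_le fun i _ => (ih i).trans
        (Finset.le_sup (f := fun i : Fin r => strahler (c i)) (Finset.mem_univ i))
    rw [dstr, strahler]
    by_cases h : ∃ i j : Fin r, dstr (c i) = (Finset.univ.sup fun i : Fin r => dstr (c i)) ∧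
        dstr (c j) = (Finset.univ.sup fun i : Fin r => dstr (c i)) ∧ c i ≠ c j
    · rw [if_pos h]
      obtain ⟨i, j, hi, hj, hij⟩ := h
      by_cases hlt : (Finset.univ.sup fun i : Fin r => dstr (c i))
          < Finset.univ.sup fun i : Fin r => strahler (c i)
      · split <;> omega
      · have heq := le_antisymm hsup (not_lt.1 hlt)
        have hne : i ≠ j := fun h => hij (by rw [h])
        have hle : ∀ l : Fin r, strahler (c l) ≤ Finset.univ.sup fun i : Fin r => strahler (c i) :=
          fun l => Finset.le_sup (f := fun i : Fin r => strahler (c i)) (Finset.mem_univ l)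
        have hsi : strahler (c i) = Finset.univ.sup fun i : Fin r => strahler (c i) :=
          le_antisymm (hle i) (by rw [← heq, ← hi]; exact ih i)
        have hsj : strahler (c j) = Finset.univ.sup fun i : Fin r => strahler (c i) :=
          le_antisymm (hle j) (by rw [← heq, ← hj]; exact ih j)
        have h2 : 2 ≤ (Finset.univ.filter fun l : Fin r =>
            strahler (c l) = Finset.univ.sup fun i : Fin r => strahler (c i)).card := by
          have : ({i, j} : Finset (Fin r)) ⊆ Finset.univ.filter fun l : Fin r =>
              strahler (c l) = Finset.univ.sup fun i : Fin r => strahler (c i) := by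
            intro l hl
            rcases Finset.mem_insert.1 hl with rfl | hl
            · exact Finset.mem_filter.2 ⟨Finset.mem_univ _, hsi⟩
            · rw [Finset.mem_singleton.1 hl]
              exact Finset.mem_filter.2 ⟨Finset.mem_univ _, hsj⟩
          calc 2 = ({i, j} : Finset (Fin r)).card := (Finset.card_pair hne).symm
            _ ≤ _ := Finset.card_le_card this
        rw [if_pos h2, heq]
    · rw [if_neg h]
      split <;> omega

/-! ## Special interpretations -/

/-- The interpretation with one more coordinate, number `0`; the others do not read it, and it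
reads itself with the same factor `x` at all children of all symbols. -/
def ext {S : Type} [CommRing S] (x : S) (c0 : ℕ → S) (a : ℕ → ℕ → ℕ → S) (I : Interp S) :
    Interp S :=
  ⟨fun b z => if z = 0 then c0 b else I.C b (z - 1), fun b i z y =>
    if z = 0 then (if y = 0 then x else a b i (y - 1))
    else if y = 0 then 0 else I.A b i (z - 1) (y - 1)⟩

theorem W_ext_succ {S : Type} [CommRing S] (d : ℕ) (x : S) (c0 : ℕ → S) (a : ℕ → ℕ → ℕ → S)
    (I : Interp S) (t : Tree) : ∀ z, W (d + 1) (ext x c0 a I) t (z + 1) = W d I t z := by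
  induction t with
  | node b r c ih =>
    intro z
    simp only [W]
    congr 1
    refine Finset.sum_congr rfl fun j _ => ?_
    rw [Finset.sum_range_succ']
    simp only [ext, Nat.add_eq_zero_iff, one_ne_zero, and_false, if_false, if_true,
      Nat.add_sub_cancel, zero_mul, add_zero]
    refine Finset.sum_congr rfl fun y _ => ?_
    rw [← ih j y]
    rfl

/-- The part of the coordinate `0` that does not use the factor. -/
def Lo {S : Type} [CommRing S] (d : ℕ) (c0 : ℕ → S) (a : ℕ → ℕ → ℕ → S) (I : Interp S) : Tree → S
  | .node b r c => c0 b + ∑ i : Fin r, ∑ y ∈ range d, a b i y * W d I (c i) y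

theorem W_ext_zero {S : Type} [CommRing S] (d : ℕ) (x : S) (c0 : ℕ → S) (a : ℕ → ℕ → ℕ → S)
    (I : Interp S) (b r : ℕ) (c : Fin r → Tree) :
    W (d + 1) (ext x c0 a I) (.node b r c) 0
      = Lo d c0 a I (.node b r c) + x * ∑ i : Fin r, W (d + 1) (ext x c0 a I) (c i) 0 := by
  rw [W, Lo, add_assoc, Finset.mul_sum, ← Finset.sum_add_distrib]
  congr 1
  refine Finset.sum_congr rfl fun i _ => ?_
  rw [Finset.sum_range_succ']
  congr 1
  refine Finset.sum_congr rfl fun y _ => ?_
  rw [W_ext_succ]
  simp [ext]

theorem ext_map {S T : Type} [CommRing S] [CommRing T] (f : S →+* T) (x : S) (c0 : ℕ → S)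
    (a : ℕ → ℕ → ℕ → S) (I : Interp S) :
    (ext x c0 a I).map f
      = ext (f x) (fun b => f (c0 b)) (fun b i y => f (a b i y)) (I.map f) := by
  simp only [Interp.map, ext]
  congr 1
  · funext b z
    split <;> rfl
  · funext b i z y
    split
    · split <;> rfl
    · split
      · exact map_zero f
      · rfl

/-- The family `T j`, `j ∈ s`, has on average the same value as `t`, under all special
interpretations of dimension `d + 1`. -/
def Avg (d : ℕ) {J : Type} (s : Finset J) (T : J → Tree) (t : Tree) : Prop :=
  ∀ (S : Type) [CommRing S] (x : S) (c0 : ℕ → S) (a : ℕ → ℕ → ℕ → S) (I : Interp S),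
    ∑ j ∈ s, W (d + 1) (ext x c0 a I) (T j) 0 = s.card * W (d + 1) (ext x c0 a I) t 0

theorem avg_lo {d : ℕ} {J : Type} {s : Finset J} {T : J → Tree} {t : Tree} (h : Avg d s T t)
    (S : Type) [CommRing S] (c0 : ℕ → S) (a : ℕ → ℕ → ℕ → S) (I : Interp S) :
    ∑ j ∈ s, Lo d c0 a I (T j) = s.card * Lo d c0 a I t := by
  have h1 : ∀ u : Tree, W (d + 1) (ext 0 c0 a I) u 0 = Lo d c0 a I u := by
    rintro ⟨b, r, c⟩
    rw [W_ext_zero, zero_mul, add_zero]
  have := h S 0 c0 a I
  simpa only [h1] using this

/-- All members of the family have the root symbol of `t`. -/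
theorem avg_root {d : ℕ} {J : Type} {s : Finset J} {T : J → Tree} {b r : ℕ} {c : Fin r → Tree}
    (h : Avg d s T (.node b r c)) : ∀ j ∈ s, ∃ (r' : ℕ) (c' : Fin r' → Tree),
      T j = .node b r' c' := by
  have h1 := avg_lo h ℤ (fun a => if a = b then 1 else 0) (fun _ _ _ => 0)
    ⟨fun _ _ => 0, fun _ _ _ _ => 0⟩
  have h0 : Lo d (fun a => if a = b then (1 : ℤ) else 0) (fun _ _ _ => 0)
      ⟨fun _ _ => 0, fun _ _ _ _ => 0⟩ (.node b r c) = 1 := by
    simp [Lo]
  rw [h0, mul_one] at h1
  have h2 : ∀ u : Tree, Lo d (fun a => if a = b then (1 : ℤ) else 0) (fun _ _ _ => 0)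
      ⟨fun _ _ => 0, fun _ _ _ _ => 0⟩ u ≤ 1 := by
    rintro ⟨b', r', c'⟩
    simp only [Lo, zero_mul, Finset.sum_const_zero, add_zero]
    split <;> norm_num
  intro j hj
  by_contra hne
  have h3 : Lo d (fun a => if a = b then (1 : ℤ) else 0) (fun _ _ _ => 0)
      ⟨fun _ _ => 0, fun _ _ _ _ => 0⟩ (T j) = 0 := by
    rcases hT : T j with ⟨b', r', c'⟩
    have : b' ≠ b := by
      rintro rfl
      exact hne ⟨r', c', hT⟩
    simp [Lo, this]
  have h4 : ∑ j ∈ s, Lo d (fun a => if a = b then (1 : ℤ) else 0) (fun _ _ _ => 0)
      ⟨fun _ _ => 0, fun _ _ _ _ => 0⟩ (T j) < ∑ j ∈ s, (1 : ℤ) :=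
    Finset.sum_lt_sum (fun i _ => h2 _) ⟨j, hj, by rw [h3]; norm_num⟩
  rw [h1] at h4
  simp at h4

/-- Averages of the children, one dimension less. -/
theorem avg_child {d : ℕ} {J : Type} {s : Finset J} {T : J → Tree} {b r : ℕ} {c : Fin r → Tree}
    {c' : J → Fin r → Tree} (hT : ∀ j ∈ s, T j = .node b r (c' j))
    (h : Avg (d + 1) s T (.node b r c)) (i : Fin r) : Avg d s (fun j => c' j i) (c i) := by
  intro S _ x c0 a I
  have h1 := avg_lo h S (fun _ => 0) (fun a' i' y => if a' = b ∧ i' = i ∧ y = 0 then 1 else 0)
    (ext x c0 a I)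
  have h2 : ∀ e : Fin r → Tree, Lo (d + 1) (fun _ => 0)
      (fun a' i' y => if a' = b ∧ i' = (i : ℕ) ∧ y = 0 then (1 : S) else 0) (ext x c0 a I)
      (.node b r e) = W (d + 1) (ext x c0 a I) (e i) 0 := by
    intro e
    rw [Lo, zero_add, Finset.sum_eq_single i]
    · rw [Finset.sum_eq_single 0]
      · simp
      · intro y _ hy
        simp [hy]
      · intro hy
        exact absurd (Finset.mem_range.2 (Nat.succ_pos d)) hy
    · intro j _ hj
      have : (j : ℕ) ≠ i := fun h => hj (Fin.ext h)
      refine Finset.sum_eq_zero fun y _ => ?_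
      simp [this]
    · intro hi
      exact absurd (Finset.mem_univ i) hi
  rw [h2] at h1
  rw [← h1]
  refine Finset.sum_congr rfl fun j hj => ?_
  rw [hT j hj, h2]

/-- Average over all children. -/
theorem avg_all {d : ℕ} {J : Type} {s : Finset J} {T : J → Tree} {b r : ℕ} {c : Fin r → Tree}
    {c' : J → Fin r → Tree} (hT : ∀ j ∈ s, T j = .node b r (c' j))
    (h : Avg d s T (.node b r c)) (S : Type) [CommRing S] (x : S) (c0 : ℕ → S)
    (a : ℕ → ℕ → ℕ → S) (I : Interp S) :
    ∑ j ∈ s, ∑ i : Fin r, W (d + 1) (ext x c0 a I) (c' j i) 0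
      = s.card * ∑ i : Fin r, W (d + 1) (ext x c0 a I) (c i) 0 := by
  let c0' : ℕ → Polynomial S := fun b => Polynomial.C (c0 b)
  let a' : ℕ → ℕ → ℕ → Polynomial S := fun b i y => Polynomial.C (a b i y)
  let I' : Interp (Polynomial S) := I.map (Polynomial.C : S →+* Polynomial S)
  let K : Interp (Polynomial S) := ext Polynomial.X c0' a' I'
  have h1 := h (Polynomial S) Polynomial.X c0' a' I'
  have h2 := avg_lo h (Polynomial S) c0' a' I'
  have h3 : ∑ j ∈ s, W (d + 1) K (T j) 0 = ∑ j ∈ s, Lo d c0' a' I' (T j)
      + Polynomial.X * ∑ j ∈ s, ∑ i : Fin r, W (d + 1) K (c' j i) 0 := by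
    rw [Finset.mul_sum, ← Finset.sum_add_distrib]
    refine Finset.sum_congr rfl fun j hj => ?_
    rw [hT j hj, W_ext_zero]
  have h4 : W (d + 1) K (.node b r c) 0 = Lo d c0' a' I' (.node b r c)
      + Polynomial.X * ∑ i : Fin r, W (d + 1) K (c i) 0 := W_ext_zero _ _ _ _ _ _ _ _
  have h5 : ∑ j ∈ s, W (d + 1) K (T j) 0 = s.card * W (d + 1) K (.node b r c) 0 := h1
  rw [h3, h4, h2, mul_add] at h5
  have h6 := add_left_cancel h5
  have h7 : Polynomial.X * (∑ j ∈ s, ∑ i : Fin r, W (d + 1) K (c' j i) 0)
      = Polynomial.X * ((s.card : Polynomial S) * ∑ i : Fin r, W (d + 1) K (c i) 0) := by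
    rw [h6]
    ring
  have h8 : ∑ j ∈ s, ∑ i : Fin r, W (d + 1) K (c' j i) 0
      = (s.card : Polynomial S) * ∑ i : Fin r, W (d + 1) K (c i) 0 := by
    ext n
    have := congrArg (fun p => Polynomial.coeff p (n + 1)) h7
    simpa only [Polynomial.coeff_X_mul] using this
  have hK : K.map (Polynomial.evalRingHom x) = ext x c0 a I := by
    show (ext Polynomial.X c0' a' I').map (Polynomial.evalRingHom x) = _
    rw [ext_map]
    congr 1
    · simp
    · funext b
      simp [c0']
    · funext b i y
      simp [a']
    · simp only [I', Interp.map]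
      congr 1
      · funext b z
        simp
      · funext b i z y
        simp
  have h9 := congrArg (Polynomial.evalRingHom x) h8
  rw [map_sum, map_mul, map_sum, map_natCast] at h9
  simp only [map_sum, ← W_map, hK] at h9
  exact h9

/-- **Extremality.** If `dstr t ≤ k`, then `t` is not an average of other trees, not even under
the special interpretations of dimension `k + 1`. -/
theorem extremal (B : List ℕ) : ∀ (k : ℕ) (t : Tree), Ranked B t → dstr t ≤ k →
    ∀ (J : Type) (s : Finset J) (T : J → Tree), (∀ j ∈ s, Ranked B (T j)) → Avg k s T t →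
      ∀ j ∈ s, T j = t := by
  classical
  intro k
  induction k with
  | zero =>
    intro t
    induction t with
    | node b r c ih =>
      intro ht hk J s T hR hA
      obtain ⟨h1, h2⟩ := ht
      have hr := avg_root hA
      have hc' : ∀ j, ∃ c' : Fin r → Tree, j ∈ s → T j = .node b r c' := by
        intro j
        by_cases hj : j ∈ s
        · obtain ⟨r', c', hj'⟩ := hr j hj
          have h3 := hR j hj
          rw [hj'] at h3
          have h4 := h3.1
          rw [h1] at h4
          have := Option.some.inj h4
          subst this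
          exact ⟨c', fun _ => hj'⟩
        · exact ⟨c, fun h => absurd h hj⟩
      choose c' hc' using hc'
      have hRc : ∀ j ∈ s, ∀ i, Ranked B (c' j i) := by
        intro j hj i
        have h3 := hR j hj
        rw [hc' j hj] at h3
        exact h3.2 i
      have h0 : ∀ i, dstr (c i) = 0 := fun i =>
        Nat.le_zero.1 ((dstr_child_le i).trans hk)
      have hall := avg_all (c' := c') hc' hA
      have key : ∀ i : Fin r, ∀ j ∈ s, c' j i = c i := by
        intro i j hj
        refine ih i (h2 i) (h0 i).le (J × Fin r) (s ×ˢ Finset.univ) (fun p => c' p.1 p.2)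
          (fun p hp => hRc p.1 (Finset.mem_product.1 hp).1 p.2) ?_ (j, i)
          (Finset.mem_product.2 ⟨hj, Finset.mem_univ _⟩)
        intro S _ x c0 a I
        rw [Finset.sum_product, hall S x c0 a I, Finset.card_product]
        have : ∑ i' : Fin r, W (0 + 1) (ext x c0 a I) (c i') 0
            = ∑ _i' : Fin r, W (0 + 1) (ext x c0 a I) (c i) 0 := by
          refine Finset.sum_congr rfl fun i' _ => ?_
          rw [dstr_unique hk i' i (h0 i') (h0 i)]
        rw [this, Finset.sum_const, Finset.card_univ, Fintype.card_fin, nsmul_eq_mul]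
        push_cast
        ring
      intro j hj
      rw [hc' j hj]
      congr 1
      funext i
      exact key i j hj
  | succ k ihk =>
    intro t
    induction t with
    | node b r c ih =>
      intro ht hk J s T hR hA
      obtain ⟨h1, h2⟩ := ht
      have hr := avg_root hA
      have hc' : ∀ j, ∃ c' : Fin r → Tree, j ∈ s → T j = .node b r c' := by
        intro j
        by_cases hj : j ∈ s
        · obtain ⟨r', c', hj'⟩ := hr j hj
          have h3 := hR j hj
          rw [hj'] at h3
          have h4 := h3.1
          rw [h1] at h4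
          have := Option.some.inj h4
          subst this
          exact ⟨c', fun _ => hj'⟩
        · exact ⟨c, fun h => absurd h hj⟩
      choose c' hc' using hc'
      have hRc : ∀ j ∈ s, ∀ i, Ranked B (c' j i) := by
        intro j hj i
        have h3 := hR j hj
        rw [hc' j hj] at h3
        exact h3.2 i
      have hlight : ∀ i : Fin r, dstr (c i) ≠ k + 1 → ∀ j ∈ s, c' j i = c i := by
        intro i hi j hj
        refine ihk (c i) (h2 i) ?_ J s (fun j => c' j i) (fun j hj => hRc j hj i)
          (avg_child (c' := c') hc' hA i) j hj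
        have := (dstr_child_le (b := b) i).trans hk
        omega
      have hall := avg_all (c' := c') hc' hA
      have key : ∀ i : Fin r, ∀ j ∈ s, c' j i = c i := by
        intro i j hj
        by_cases hi : dstr (c i) = k + 1
        · let H : Finset (Fin r) := Finset.univ.filter fun l => dstr (c l) = k + 1
          refine ih i (h2 i) hi.le (J × Fin r) (s ×ˢ H) (fun p => c' p.1 p.2)
            (fun p hp => hRc p.1 (Finset.mem_product.1 hp).1 p.2) ?_ (j, i)
            (Finset.mem_product.2 ⟨hj, Finset.mem_filter.2 ⟨Finset.mem_univ _, hi⟩⟩)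
          intro S _ x c0 a I
          have hh := hall S x c0 a I
          rw [Finset.sum_product, Finset.card_product]
          have e1 : ∀ j ∈ s, ∑ i' : Fin r, W (k + 1 + 1) (ext x c0 a I) (c' j i') 0
              = ∑ i' ∈ H, W (k + 1 + 1) (ext x c0 a I) (c' j i') 0
                + ∑ i' ∈ Finset.univ.filter (fun l => ¬ dstr (c l) = k + 1),
                    W (k + 1 + 1) (ext x c0 a I) (c i') 0 := by
            intro j hj
            rw [← Finset.sum_filter_add_sum_filter_not Finset.univ
              (fun l : Fin r => dstr (c l) = k + 1)]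
            congr 1
            refine Finset.sum_congr rfl fun i' hi' => ?_
            rw [hlight i' (Finset.mem_filter.1 hi').2 j hj]
          have e2 : ∑ i' : Fin r, W (k + 1 + 1) (ext x c0 a I) (c i') 0
              = ∑ i' ∈ H, W (k + 1 + 1) (ext x c0 a I) (c i') 0
                + ∑ i' ∈ Finset.univ.filter (fun l => ¬ dstr (c l) = k + 1),
                    W (k + 1 + 1) (ext x c0 a I) (c i') 0 := by
            rw [← Finset.sum_filter_add_sum_filter_not Finset.univ
              (fun l : Fin r => dstr (c l) = k + 1)]
          rw [Finset.sum_congr rfl e1, e2, Finset.sum_add_distrib, Finset.sum_const,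
            nsmul_eq_mul, mul_add] at hh
          have h5 := add_right_cancel hh
          rw [h5]
          have e3 : ∑ i' ∈ H, W (k + 1 + 1) (ext x c0 a I) (c i') 0
              = ∑ _i' ∈ H, W (k + 1 + 1) (ext x c0 a I) (c i) 0 := by
            refine Finset.sum_congr rfl fun i' hi' => ?_
            rw [dstr_unique hk i' i (Finset.mem_filter.1 hi').2 hi]
          rw [e3, Finset.sum_const, nsmul_eq_mul]
          push_cast
          ring
        · exact hlight i hi j hj
      intro j hj
      rw [hc' j hj]
      congr 1
      funext i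
      exact key i j hj

/-- **Separation.** A tree whose minimal DAG has Strahler number at most `k` is separated from all
other trees by the affine interpretations of dimension `k + 1`. -/
theorem separation_dag (B : List ℕ) (k : ℕ) (t t' : Tree) (ht : Ranked B t) (ht' : Ranked B t')
    (hk : dstr t ≤ k) (h : Sim (k + 1) t t') : t = t' := by
  refine (extremal B k t ht hk Unit {()} (fun _ => t') (fun _ _ => ht') ?_ ()
    (Finset.mem_singleton_self _)).symm
  intro S _ x c0 a I
  rw [Finset.sum_singleton, Finset.card_singleton, Nat.cast_one, one_mul]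
  exact (h S (ext x c0 a I) 0 (Nat.succ_pos k)).symm

end Pool.Agent.Lib.MP_39893a_lc
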