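import Mathlib.RingTheory.MvPolynomial.Localization
import Mathlib.RingTheory.Polynomial.Basic
import Mathlib.RingTheory.Localization.Integer
import Mathlib.RingTheory.Localization.FractionRing
import Mathlib.RingTheory.Ideal.Operations
import Mathlib.RingTheory.Ideal.Quotient.Basic
import Mathlib.Algebra.BigOperators.Finsupp.Basic
import Mathlib.Tactic

/-!
# MP_39893a_lc: the certificate lemma (step 5, abstract form)

`R` is a domain, `F a` are polynomial maps `(R^N)^(r a) → R^N`, `S` is a set of points of `R^N`
closed under all `F a`, and the targets `G e` vanish on `S`.  Then there is a finite certificate.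

Main result: `P39893.Alg.certificate`.
-/

namespace P39893.Alg

open MvPolynomial

section Field

variable {K : Type*} [Field K] {σ : Type*}

/-- the ideal of all polynomials vanishing on `S` -/
def van (S : Set (σ → K)) : Ideal (MvPolynomial σ K) where
  carrier := {P | ∀ x ∈ S, eval x P = 0}
  zero_mem' := by intro x _; simp
  add_mem' := by
    intro a b ha hb x hx
    rw [map_add, ha x hx, hb x hx, add_zero]
  smul_mem' := by
    intro c a ha x hx
    rw [smul_eq_mul, map_mul, ha x hx, mul_zero]

theorem mem_van {S : Set (σ → K)} {P : MvPolynomial σ K} :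
    P ∈ van S ↔ ∀ x ∈ S, eval x P = 0 := Iff.rfl

open scoped Classical in
/-- interpolation of finitely many polynomials modulo the vanishing ideal -/
theorem interp (S : Set (σ → K)) (T : Finset (MvPolynomial σ K)) :
    ∃ (A : Finset (σ → K)) (u : (σ → K) → MvPolynomial σ K),
      (∀ a ∈ A, a ∈ S) ∧ (∀ a ∈ A, ∀ b ∈ A, eval b (u a) = if a = b then 1 else 0) ∧
      ∀ h ∈ T, h - ∑ a ∈ A, C (eval a h) * u a ∈ van S := by
  induction T using Finset.induction_on with
  | empty => exact ⟨∅, fun _ => 0, by simp, by simp, by simp⟩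
  | insert h T _ ih =>
    obtain ⟨A, u, hA, hu, hT⟩ := ih
    by_cases he : h - ∑ a ∈ A, C (eval a h) * u a ∈ van S
    · refine ⟨A, u, hA, hu, fun g hg => ?_⟩
      rcases Finset.mem_insert.1 hg with rfl | hg
      · exact he
      · exact hT g hg
    · obtain ⟨e, hedef⟩ : ∃ e, e = h - ∑ a ∈ A, C (eval a h) * u a := ⟨_, rfl⟩
      rw [← hedef, mem_van] at he
      push Not at he
      obtain ⟨s, hs, hes⟩ := he
      have heA : ∀ b ∈ A, eval b e = 0 := by
        intro b hb
        rw [hedef, map_sub, map_sum]
        have : ∑ a ∈ A, eval b (C (eval a h) * u a) = ∑ a ∈ A, if a = b then eval a h else 0 := by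
          refine Finset.sum_congr rfl fun a ha => ?_
          rw [map_mul, eval_C, hu a ha b hb]
          split_ifs <;> simp
        rw [this, Finset.sum_ite_eq' A b, if_pos hb, sub_self]
      have hsA : s ∉ A := fun h' => hes (heA s h')
      obtain ⟨w, hw⟩ : ∃ w, w = C (eval s e)⁻¹ * e := ⟨_, rfl⟩
      have hws : eval s w = 1 := by
        rw [hw, map_mul, eval_C, inv_mul_cancel₀ hes]
      have hwA : ∀ b ∈ A, eval b w = 0 := by
        intro b hb
        rw [hw, map_mul, heA b hb, mul_zero]
      have hneA : ∀ a ∈ A, a ≠ s := fun a ha h' => hsA (h' ▸ ha)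
      refine ⟨insert s A, fun a => if a = s then w else u a - C (eval s (u a)) * w, ?_, ?_, ?_⟩
      · intro a ha
        rcases Finset.mem_insert.1 ha with rfl | ha
        · exact hs
        · exact hA a ha
      · intro a ha b hb
        dsimp only
        rcases Finset.mem_insert.1 ha with ha' | ha'
        · rw [if_pos ha']
          rcases Finset.mem_insert.1 hb with hb' | hb'
          · rw [if_pos (ha'.trans hb'.symm), hb', hws]
          · rw [if_neg (fun h' => hneA b hb' (h'.symm.trans ha')), hwA b hb']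
        · rw [if_neg (hneA a ha')]
          rcases Finset.mem_insert.1 hb with hb' | hb'
          · rw [if_neg (fun h' => hneA a ha' (h'.trans hb')), hb', map_sub, map_mul, eval_C, hws,
              mul_one, sub_self]
          · rw [map_sub, map_mul, eval_C, hwA b hb', mul_zero, sub_zero, hu a ha' b hb']
      · -- the key computation
        have key : ∀ g : MvPolynomial σ K,
            g - ∑ a ∈ insert s A, C (eval a g) *
              (if a = s then w else u a - C (eval s (u a)) * w) =
            (g - ∑ a ∈ A, C (eval a g) * u a) -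
              C (eval s (g - ∑ a ∈ A, C (eval a g) * u a)) * w := by
          intro g
          rw [Finset.sum_insert hsA, if_pos rfl]
          have h1 : ∑ a ∈ A, C (eval a g) * (if a = s then w else u a - C (eval s (u a)) * w) =
              ∑ a ∈ A, C (eval a g) * u a - (∑ a ∈ A, C (eval a g * eval s (u a))) * w := by
            rw [Finset.sum_mul, ← Finset.sum_sub_distrib]
            refine Finset.sum_congr rfl fun a ha => ?_
            rw [if_neg (hneA a ha), C_mul]
            ring
          have h2 : C (eval s (g - ∑ a ∈ A, C (eval a g) * u a)) =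
              C (eval s g) - ∑ a ∈ A, C (eval a g * eval s (u a)) (σ := σ) := by
            rw [map_sub, map_sub, map_sum, map_sum]
            congr 1
            refine Finset.sum_congr rfl fun a _ => ?_
            rw [map_mul, eval_C]
          rw [h1, h2]
          ring
        intro g hg
        rw [key]
        rcases Finset.mem_insert.1 hg with rfl | hg
        · rw [← hedef, hw, ← mul_assoc, ← C_mul, mul_inv_cancel₀ hes, C_1, one_mul, sub_self]
          exact Ideal.zero_mem _
        · have hg' := hT g hg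
          rw [mem_van.1 hg' s hs, C_0, zero_mul, sub_zero]
          exact hg'

/-- a polynomial vanishing on `S^r` lies in the sum of the block ideals -/
theorem block {r : ℕ} [Fintype σ] (S : Set (σ → K)) (I : Ideal (MvPolynomial (Fin r × σ) K))
    (hI : ∀ (j : Fin r), ∀ h ∈ van S, rename (Prod.mk j) h ∈ I)
    (P : MvPolynomial (Fin r × σ) K)
    (hP : ∀ x : Fin r → σ → K, (∀ j, x j ∈ S) → eval (fun m => x m.1 m.2) P = 0) :
    P ∈ I := by
  classical
  -- the factors
  let hh : (Fin r × σ →₀ ℕ) → Fin r → MvPolynomial σ K := fun m j => ∏ i : σ, X i ^ m (j, i)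
  let T : Finset (MvPolynomial σ K) :=
    (P.support ×ˢ (Finset.univ : Finset (Fin r))).image fun mj => hh mj.1 mj.2
  obtain ⟨A, u, hA, -, hT⟩ := interp S T
  have hPsum : P = ∑ m ∈ P.support, C (coeff m P) * ∏ j, rename (Prod.mk j) (hh m j) := by
    conv_lhs => rw [P.as_sum]
    refine Finset.sum_congr rfl fun m _ => ?_
    rw [monomial_eq, Finsupp.prod_fintype _ _ (fun _ => pow_zero _), Fintype.prod_prod_type]
    congr 1
    refine Finset.prod_congr rfl fun j _ => ?_
    simp only [hh, map_prod, map_pow, rename_X]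
  have hfac : ∀ m ∈ P.support, ∀ j : Fin r,
      Ideal.Quotient.mk I (rename (Prod.mk j) (hh m j)) =
        ∑ a ∈ A, Ideal.Quotient.mk I (C (eval a (hh m j))) *
          Ideal.Quotient.mk I (rename (Prod.mk j) (u a)) := by
    intro m hm j
    have h1 := hT (hh m j) (Finset.mem_image.2 ⟨(m, j), by simpa using hm, rfl⟩)
    have h2 := hI j _ h1
    rw [map_sub, map_sum] at h2
    rw [← Ideal.Quotient.eq_zero_iff_mem, map_sub, map_sum, sub_eq_zero] at h2
    rw [h2]
    refine Finset.sum_congr rfl fun a _ => ?_
    rw [map_mul, rename_C, map_mul]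
  rw [← Ideal.Quotient.eq_zero_iff_mem]
  have hmain : Ideal.Quotient.mk I P =
      ∑ f ∈ Fintype.piFinset (fun _ : Fin r => A),
        Ideal.Quotient.mk I (C (eval (fun m => f m.1 m.2) P)) *
          ∏ j, Ideal.Quotient.mk I (rename (Prod.mk j) (u (f j))) := by
    have hev : ∀ f : Fin r → σ → K, eval (fun m : Fin r × σ => f m.1 m.2) P =
        ∑ m ∈ P.support, coeff m P * ∏ j, eval (f j) (hh m j) := by
      intro f
      conv_lhs => rw [hPsum]
      rw [map_sum]
      refine Finset.sum_congr rfl fun m _ => ?_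
      rw [map_mul, eval_C, map_prod]
      congr 1
      refine Finset.prod_congr rfl fun j _ => ?_
      rw [eval_rename]
      rfl
    conv_lhs => rw [hPsum]
    rw [map_sum]
    have h3 : ∀ m ∈ P.support, Ideal.Quotient.mk I
        (C (coeff m P) * ∏ j, rename (Prod.mk j) (hh m j)) =
        ∑ f ∈ Fintype.piFinset (fun _ : Fin r => A),
          Ideal.Quotient.mk I (C (coeff m P * ∏ j, eval (f j) (hh m j))) *
            ∏ j, Ideal.Quotient.mk I (rename (Prod.mk j) (u (f j))) := by
      intro m hm
      rw [map_mul, map_prod, Finset.prod_congr rfl fun j _ => hfac m hm j,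
        Finset.prod_univ_sum, Finset.mul_sum]
      refine Finset.sum_congr rfl fun f _ => ?_
      rw [Finset.prod_mul_distrib, ← mul_assoc]
      congr 1
      rw [C_mul, map_mul, map_prod, map_prod]
    rw [Finset.sum_congr rfl h3, Finset.sum_comm]
    refine Finset.sum_congr rfl fun f _ => ?_
    rw [hev f, ← Finset.sum_mul]
    congr 1
    rw [map_sum, map_sum]
  rw [hmain]
  refine Finset.sum_eq_zero fun f hf => ?_
  rw [hP f (fun j => hA _ (Fintype.mem_piFinset.1 hf j)), C_0, map_zero, zero_mul]

end Field

section Denominators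

attribute [local instance] MvPolynomial.algebraMvPolynomial

variable {R : Type*} [CommRing R] [IsDomain R]

/-- common denominators for finitely many polynomials over the fraction field -/
theorem clear {κ τ : Type*} [Finite κ] (f : κ → MvPolynomial τ (FractionRing R)) :
    ∃ (D : R), D ≠ 0 ∧ ∀ i, ∃ g : MvPolynomial τ R,
      map (algebraMap R (FractionRing R)) g = C (algebraMap R (FractionRing R) D) * f i := by
  obtain ⟨b, hb⟩ := IsLocalization.exist_integer_multiples_of_finite
    ((nonZeroDivisors R).map (C (σ := τ))) f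
  obtain ⟨D, hD, hbD⟩ := b.2
  refine ⟨D, nonZeroDivisors.ne_zero hD, fun i => ?_⟩
  obtain ⟨g, hg⟩ := hb i
  refine ⟨g, ?_⟩
  have h1 : algebraMap (MvPolynomial τ R) (MvPolynomial τ (FractionRing R)) g =
      map (algebraMap R (FractionRing R)) g := rfl
  rw [← h1, hg, Algebra.smul_def]
  congr 1
  rw [← hbD]
  exact map_C _ _

end Denominators

theorem eval_aeval {R κ τ : Type*} [CommRing R] (F : τ → MvPolynomial κ R) (x : κ → R)
    (P : MvPolynomial τ R) : eval x (aeval F P) = eval (fun k => eval x (F k)) P := by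
  induction P using MvPolynomial.induction_on with
  | C a => simp
  | add p q hp hq => rw [map_add, map_add, map_add, hp, hq]
  | mul_X p n hp => rw [map_mul, map_mul, map_mul, hp, aeval_X, eval_X]

/-- THE CERTIFICATE LEMMA. -/
theorem certificate {R : Type*} [CommRing R] [IsDomain R] {N : ℕ}
    {ι : Type*} [Finite ι] (r : ι → ℕ)
    (F : ∀ a, Fin N → MvPolynomial (Fin (r a) × Fin N) R)
    {ε : Type*} [Finite ε] (G : ε → MvPolynomial (Fin N) R)
    (S : Set (Fin N → R))
    (hS : ∀ a (x : Fin (r a) → Fin N → R), (∀ j, x j ∈ S) →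
      (fun i => eval (fun m : Fin (r a) × Fin N => x m.1 m.2) (F a i)) ∈ S)
    (hG : ∀ e, ∀ x ∈ S, eval x (G e) = 0) :
    ∃ (n : ℕ) (p : Fin n → MvPolynomial (Fin N) R) (D : R), D ≠ 0 ∧
      (∀ a i, ∃ c : Fin (r a) → Fin n → MvPolynomial (Fin (r a) × Fin N) R,
        C D * aeval (F a) (p i) = ∑ j, ∑ l, c j l * rename (Prod.mk j) (p l)) ∧
      (∀ e, ∃ c : Fin n → MvPolynomial (Fin N) R, C D * G e = ∑ l, c l * p l) := by
  classical
  let K := FractionRing R
  let φ : R →+* K := algebraMap R K
  have hφ : Function.Injective φ := IsFractionRing.injective R K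
  let SK : Set (Fin N → K) := (fun x i => φ (x i)) '' S
  -- generators of the vanishing ideal, without denominators
  obtain ⟨gs, hgs⟩ := IsNoetherian.noetherian (van SK)
  obtain ⟨n, g, hg⟩ : ∃ (n : ℕ) (g : Fin n → MvPolynomial (Fin N) K),
      Ideal.span (Set.range g) = van SK := by
    refine ⟨gs.card, fun i => (gs.equivFin.symm i : MvPolynomial (Fin N) K), ?_⟩
    rw [← hgs]
    congr 1
    ext x
    simp only [Set.mem_range, Finset.mem_coe]
    constructor
    · rintro ⟨i, rfl⟩
      exact (gs.equivFin.symm i).2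
    · intro hx
      exact ⟨gs.equivFin ⟨x, hx⟩, by simp⟩
  obtain ⟨d, hd, hp⟩ := clear (R := R) g
  choose p hp using hp
  have hpspan : Ideal.span (Set.range fun l => map φ (p l)) = van SK := by
    rw [← hg]
    apply le_antisymm
    · rw [Ideal.span_le]
      rintro _ ⟨l, rfl⟩
      change map φ (p l) ∈ Ideal.span (Set.range g)
      rw [hp l]
      exact Ideal.mul_mem_left _ _ (Ideal.subset_span ⟨l, rfl⟩)
    · rw [Ideal.span_le]
      rintro _ ⟨l, rfl⟩
      change g l ∈ Ideal.span (Set.range fun l => map φ (p l))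
      have h1 : g l = C (φ d)⁻¹ * map φ (p l) := by
        rw [hp l, ← mul_assoc, ← C_mul, inv_mul_cancel₀, C_1, one_mul]
        exact fun h' => hd (hφ (by rw [h', map_zero]))
      rw [h1]
      exact Ideal.mul_mem_left _ _ (Ideal.subset_span ⟨l, rfl⟩)
  -- the polynomials `p l` vanish on `S`
  have hpS : ∀ l, ∀ x ∈ S, eval x (p l) = 0 := by
    intro l x hx
    have h1 : map φ (p l) ∈ van SK := by
      rw [← hpspan]
      exact Ideal.subset_span ⟨l, rfl⟩
    have h2 := h1 _ ⟨x, hx, rfl⟩
    apply hφ
    rw [map_zero, ← h2, eval_map]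
    exact (eval₂_comp_left φ (RingHom.id R) x (p l)).trans (by rfl)
  -- step for one polynomial
  have hstep : ∀ a i, ∃ D : R, D ≠ 0 ∧
      ∃ c : Fin (r a) → Fin n → MvPolynomial (Fin (r a) × Fin N) R,
        C D * aeval (F a) (p i) = ∑ j, ∑ l, c j l * rename (Prod.mk j) (p l) := by
    intro a i
    let I : Ideal (MvPolynomial (Fin (r a) × Fin N) K) :=
      Ideal.span (Set.range fun jl : Fin (r a) × Fin n => rename (Prod.mk jl.1) (map φ (p jl.2)))
    have hI : ∀ (j : Fin (r a)), ∀ h ∈ van SK, rename (Prod.mk j) h ∈ I := by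
      intro j h hh
      rw [← hpspan] at hh
      have : Ideal.span (Set.range fun l => map φ (p l)) ≤
          I.comap (rename (Prod.mk j) : MvPolynomial (Fin N) K →ₐ[K] _).toRingHom := by
        rw [Ideal.span_le]
        rintro _ ⟨l, rfl⟩
        exact Ideal.subset_span ⟨(j, l), rfl⟩
      exact this hh
    have hmem : map φ (aeval (F a) (p i)) ∈ I := by
      apply block SK I hI
      intro x hx
      choose y hy hyx using hx
      have hx' : (fun m : Fin (r a) × Fin N => x m.1 m.2) =
          fun m => φ (y m.1 m.2) := by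
        funext m
        rw [← hyx m.1]
      rw [hx', eval_map]
      have h3 : eval₂ φ (fun m : Fin (r a) × Fin N => φ (y m.1 m.2)) (aeval (F a) (p i)) =
          φ (eval (fun m : Fin (r a) × Fin N => y m.1 m.2) (aeval (F a) (p i))) :=
        (eval₂_comp_left φ (RingHom.id R) _ _).symm.trans (by rfl)
      rw [h3]
      have h4 : eval (fun m : Fin (r a) × Fin N => y m.1 m.2) (aeval (F a) (p i)) =
          eval (fun k => eval (fun m : Fin (r a) × Fin N => y m.1 m.2) (F a k)) (p i) := by
        exact eval_aeval _ _ _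
      rw [h4, hpS i _ (hS a y hy), map_zero]
    obtain ⟨c, hc⟩ := Ideal.mem_span_range_iff_exists_fun.1 hmem
    obtain ⟨D, hD, hcl⟩ := clear (R := R) c
    choose c' hc' using hcl
    refine ⟨D, hD, fun j l => c' (j, l), ?_⟩
    apply map_injective φ hφ
    rw [map_mul, map_C, ← hc, Finset.mul_sum, map_sum, Fintype.sum_prod_type]
    refine Finset.sum_congr rfl fun j _ => ?_
    rw [map_sum]
    refine Finset.sum_congr rfl fun l _ => ?_
    rw [map_mul, hc', map_rename, mul_assoc]
  have htar : ∀ e, ∃ D : R, D ≠ 0 ∧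
      ∃ c : Fin n → MvPolynomial (Fin N) R, C D * G e = ∑ l, c l * p l := by
    intro e
    have hmem : map φ (G e) ∈ van SK := by
      rintro _ ⟨x, hx, rfl⟩
      rw [eval_map]
      have h3 : eval₂ φ (fun k => φ (x k)) (G e) = φ (eval x (G e)) :=
        (eval₂_comp_left φ (RingHom.id R) _ _).symm.trans (by rfl)
      rw [h3, hG e x hx, map_zero]
    rw [← hpspan] at hmem
    obtain ⟨c, hc⟩ := Ideal.mem_span_range_iff_exists_fun.1 hmem
    obtain ⟨D, hD, hcl⟩ := clear (R := R) c
    choose c' hc' using hcl
    refine ⟨D, hD, c', ?_⟩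
    apply map_injective φ hφ
    rw [map_mul, map_C, ← hc, Finset.mul_sum, map_sum]
    refine Finset.sum_congr rfl fun l _ => ?_
    rw [map_mul, hc', mul_assoc]
  -- one common denominator
  have := Fintype.ofFinite ι
  have := Fintype.ofFinite ε
  choose D1 hD1 c1 hc1 using hstep
  choose D2 hD2 c2 hc2 using htar
  let E1 : R := ∏ ai : ι × Fin n, D1 ai.1 ai.2
  let E2 : R := ∏ e : ε, D2 e
  have hE1 : E1 ≠ 0 := Finset.prod_ne_zero_iff.2 fun ai _ => hD1 ai.1 ai.2
  have hE2 : E2 ≠ 0 := Finset.prod_ne_zero_iff.2 fun e _ => hD2 e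
  refine ⟨n, p, E1 * E2, mul_ne_zero hE1 hE2, fun a i => ?_, fun e => ?_⟩
  · obtain ⟨q, hq⟩ : D1 a i ∣ E1 := Finset.dvd_prod_of_mem
      (fun ai : ι × Fin n => D1 ai.1 ai.2) (Finset.mem_univ (a, i))
    refine ⟨fun j l => C (q * E2) * c1 a i j l, ?_⟩
    have : (C (E1 * E2) : MvPolynomial (Fin (r a) × Fin N) R) * aeval (F a) (p i) =
        C (q * E2) * (C (D1 a i) * aeval (F a) (p i)) := by
      rw [hq]
      simp only [C_mul]
      ring
    rw [this, hc1, Finset.mul_sum]
    refine Finset.sum_congr rfl fun j _ => ?_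
    rw [Finset.mul_sum]
    exact Finset.sum_congr rfl fun l _ => by rw [mul_assoc]
  · obtain ⟨q, hq⟩ : D2 e ∣ E2 := Finset.dvd_prod_of_mem D2 (Finset.mem_univ e)
    refine ⟨fun l => C (E1 * q) * c2 e l, ?_⟩
    have : (C (E1 * E2) : MvPolynomial (Fin N) R) * G e = C (E1 * q) * (C (D2 e) * G e) := by
      rw [hq]
      simp only [C_mul]
      ring
    rw [this, hc2, Finset.mul_sum]
    exact Finset.sum_congr rfl fun l _ => by rw [mul_assoc]

end P39893.Alg
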