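import Pool.Agent.Lib.MP_39893a_lc.Spec
import Pool.Agent.Lib.MP_39893a_lc.Alg

/-!
# MP_39893a_lc: module ALG
-/

set_option autoImplicit false

namespace Pool.Agent.Lib.MP_39893a_lc

open MvPolynomial

theorem specAlg : SpecAlg := by
  intro R _ _ N ι _ r F E _ G S hS hG
  obtain ⟨n, p, D, hD, h1, h2⟩ := P39893.Alg.certificate r F G S hS hG
  choose c hc using h1
  choose c' hc' using h2
  exact ⟨n, p, D, c, c', hD, hc, hc'⟩

end Pool.Agent.Lib.MP_39893a_lc
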