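import Pool.Agent.Lib.MP_39893a_lc.Machine

/-!
# Certificates and the search for counterexamples: definitions (MP_39893a_lc)
-/

set_option autoImplicit false

namespace Pool.Agent.Lib.MP_39893a_lc

/-- A token of a polynomial expression (postfix). -/
abbrev PTok : Type := ℕ × ℕ

namespace Ops

variable {α : Type} (o : Ops α)

/-- One step of the evaluation of a polynomial expression. -/
def pstep (env : List (List α)) (st : List α) (tk : PTok) : List α :=
  if tk.1 = 0 then o.nat tk.2 :: st
  else if tk.1 = 1 then o.add (st.getD 0 (o.nat 0)) (st.getD 1 (o.nat 0)) :: st.drop 2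
  else if tk.1 = 2 then o.mul (st.getD 0 (o.nat 0)) (st.getD 1 (o.nat 0)) :: st.drop 2
  else if tk.1 = 3 then o.neg (st.getD 0 (o.nat 0)) :: st.drop 1
  else (env.getD (tk.1 - 4) []).getD tk.2 (o.nat 0) :: st

/-- Value of a polynomial expression. -/
def evalP (env : List (List α)) (e : List PTok) : α :=
  (e.foldl (o.pstep env) []).getD 0 (o.nat 0)

end Ops

/-- A system: `(P, d, nB, n1, A, T)`. -/
abbrev Sys : Type := ℕ × ℕ × ℕ × ℕ × List ℕ × List (List (Option (List Tok)))

namespace Sys

variable (s : Sys)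

/-- Bound for parameters and ranks. -/
def P : ℕ := s.1
/-- Dimension. -/
def d : ℕ := s.2.1
/-- Number of output symbols. -/
def nB : ℕ := s.2.2.1
/-- Number of states of the first transducer. -/
def n1 : ℕ := s.2.2.2.1
/-- Ranks of the input symbols. -/
def A : List ℕ := s.2.2.2.2.1
/-- Table of the rules. -/
def T : List (List (Option (List Tok))) := s.2.2.2.2.2
/-- Number of coefficients of an interpretation. -/
def nV : ℕ := s.nB * fs s.P s.d
/-- Length of the coefficient vectors. -/
def N : ℕ := s.T.length * fs s.P s.d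
/-- Rank of an input symbol. -/
def rk (a : ℕ) : ℕ := s.A.getD a 0

end Sys

/-- A certificate: `(vst, D, ps, cs, es)`. -/
abbrev Cert : Type :=
  List (ℕ × ℕ) × List PTok × List (List PTok) × List (List PTok) × List (List PTok)

namespace Cert

variable (c : Cert)

/-- A point where the denominator does not vanish. -/
def vst : List (ℕ × ℕ) := c.1
/-- The common denominator. -/
def D : List PTok := c.2.1
/-- The generators. -/
def ps : List (List PTok) := c.2.2.1
/-- The `i`-th generator. -/
def p (i : ℕ) : List PTok := c.ps.getD i []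
/-- The cofactors of the inductive conditions, as a list. -/
def csl : List (List PTok) := c.2.2.2.1
/-- The cofactors of the inductive conditions. -/
def cs (a i j l : ℕ) : List PTok :=
  c.csl.getD (Nat.pair a (Nat.pair i (Nat.pair j l))) []
/-- The cofactors of the targets, as a list. -/
def esl : List (List PTok) := c.2.2.2.2
/-- The cofactors of the targets. -/
def es (e l : ℕ) : List PTok := c.esl.getD (Nat.pair e l) []

end Cert

/-- Total length of a list of lists. -/
def tlen {β : Type} (l : List (List β)) : ℕ := l.foldr (fun x n => x.length + n) 0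

/-- Total length of the rules. -/
def tlenT (T : List (List (Option (List Tok)))) : ℕ :=
  T.foldr (fun row n => row.foldr (fun x m => (x.getD []).length + m) 0 + n) 0

/-- Number of values tried for each variable; larger than all degrees. -/
def bnd (s : Sys) (c : Cert) : ℕ :=
  c.D.length + tlen c.ps * (1 + (s.P + 1) * tlenT s.T) + tlen c.csl + tlen c.esl + tlen c.ps
    + s.P + 4

namespace Ops

variable {α : Type} (o : Ops α)

/-- Left-hand side of the inductive condition. -/
def lhs1 (s : Sys) (c : Cert) (a i : ℕ) (V : List α) (bl : List (List α)) : α :=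
  o.mul (o.evalP [V] c.D) (o.evalP [V, o.vecS s.P s.d s.n1 s.T a V bl] (c.p i))

/-- Right-hand side of the inductive condition. -/
def rhs1 (s : Sys) (c : Cert) (a i : ℕ) (V : List α) (bl : List (List α)) : α :=
  o.sum (fun j => o.sum (fun l => o.mul (o.evalP (V :: bl) (c.cs a i j l))
    (o.evalP [V, bl.getD j []] (c.p l))) c.ps.length) (s.rk a)

/-- Left-hand side of the condition on the targets. -/
def lhs2 (s : Sys) (c : Cert) (e : ℕ) (V x : List α) : α :=
  o.mul (o.evalP [V] c.D) (o.target s.P s.d s.n1 x e)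

/-- Right-hand side of the condition on the targets. -/
def rhs2 (c : Cert) (e : ℕ) (V x : List α) : α :=
  o.sum (fun l => o.mul (o.evalP [V, x] (c.es e l)) (o.evalP [V, x] (c.p l))) c.ps.length

end Ops

/-- Integers as differences of natural numbers. -/
def zz : Ops (ℕ × ℕ) :=
  ⟨fun n => (n, 0), fun a b => (a.1 + b.1, a.2 + b.2),
    fun a b => (a.1 * b.1 + a.2 * b.2, a.1 * b.2 + a.2 * b.1), fun a => (a.2, a.1)⟩

/-- The value of a difference. -/
def zv (a : ℕ × ℕ) : ℤ := (a.1 : ℤ) - a.2

/-- Equality of differences. -/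
def zeq (a b : ℕ × ℕ) : Prop := a.1 + b.2 = b.1 + a.2

instance (a b : ℕ × ℕ) : Decidable (zeq a b) := inferInstanceAs (Decidable (_ = _))

/-- The `t`-th digit. -/
def dig (B z t : ℕ) : ℕ := z / B ^ t % B

/-- The grid point `z`: coefficients of the interpretation. -/
def gridV (B z nV : ℕ) : List (ℕ × ℕ) := (List.range nV).map fun t => (dig B z t, 0)

/-- The grid point `z`: the block `i`. -/
def gridB (B z nV N i : ℕ) : List (ℕ × ℕ) :=
  (List.range N).map fun t => (dig B z (nV + i * N + t), 0)

/-- The grid point `z`: all blocks. -/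
def gridBl (B z nV N r : ℕ) : List (List (ℕ × ℕ)) := (List.range r).map (gridB B z nV N)

/-- The first test at a grid point. -/
def test1 (s : Sys) (c : Cert) (a i z : ℕ) : Prop :=
  zeq (zz.lhs1 s c a i (gridV (bnd s c) z s.nV) (gridBl (bnd s c) z s.nV s.N (s.rk a)))
    (zz.rhs1 s c a i (gridV (bnd s c) z s.nV) (gridBl (bnd s c) z s.nV s.N (s.rk a)))

/-- The second test at a grid point. -/
def test2 (s : Sys) (c : Cert) (e z : ℕ) : Prop :=
  zeq (zz.lhs2 s c e (gridV (bnd s c) z s.nV) (gridB (bnd s c) z s.nV s.N 0))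
    (zz.rhs2 c e (gridV (bnd s c) z s.nV) (gridB (bnd s c) z s.nV s.N 0))

/-- The certificate `c` is accepted. -/
def Chk (s : Sys) (c : Cert) : Prop :=
  c.vst.length = s.nV ∧ ¬ zeq (zz.evalP [c.vst] c.D) (0, 0) ∧
  (∀ a < s.A.length, ∀ i < c.ps.length, ∀ z < bnd s c ^ (s.nV + s.rk a * s.N),
    test1 s c a i z) ∧
  ∀ e < s.d + 1, ∀ z < bnd s c ^ (s.nV + 1 * s.N), test2 s c e z

/-- The statement that is decided: all targets vanish. -/
def Raw (s : Sys) : Prop :=
  ∀ t, Ranked s.A t → ∀ V : List ℤ, V.length = s.nV → ∀ e < s.d + 1,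
    (ringOps ℤ).target s.P s.d s.n1 ((ringOps ℤ).vecT s.P s.d s.n1 s.T V t) e = 0

/-! ## Search for a counterexample -/

/-- One step of the evaluation of a tree given by its postfix code. -/
def sstep (s : Sys) (V : List (ℕ × ℕ)) (st : ℕ × List (List (ℕ × ℕ))) (a : ℕ) :
    ℕ × List (List (ℕ × ℕ)) :=
  (if a < s.A.length ∧ s.rk a ≤ st.2.length then st.1 else 1,
    zz.vecS s.P s.d s.n1 s.T a V (st.2.take (s.rk a)).reverse :: st.2.drop (s.rk a))

/-- Evaluation of a postfix code. -/
def srun (s : Sys) (V : List (ℕ × ℕ)) (w : List ℕ) : ℕ × List (List (ℕ × ℕ)) :=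
  w.foldl (sstep s V) (0, [])

/-- `(w, V, e)` is a counterexample. -/
def Srch (s : Sys) (k : List ℕ × List (ℕ × ℕ) × ℕ) : Prop :=
  k.2.1.length = s.nV ∧ k.2.2 < s.d + 1 ∧ (srun s k.2.1 k.1).1 = 0 ∧
  0 < (srun s k.2.1 k.1).2.length ∧
  ¬ zeq (zz.target s.P s.d s.n1 ((srun s k.2.1 k.1).2.getD 0 []) k.2.2) (0, 0)

end Pool.Agent.Lib.MP_39893a_lc
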