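import Mathlib

/-!
# Deterministic macro tree transducers: definitions (MP_39893a_lc)
-/

set_option autoImplicit false

namespace Pool.Agent.Lib.MP_39893a_lc

/-- Finite trees. The label of a node is a symbol `a`, together with the number `r` of its
children. -/
inductive Tree : Type
  | node (a r : ℕ) (c : Fin r → Tree) : Tree

/-- `t` is a tree over the ranked alphabet with the symbols `0, ..., A.length - 1`, the symbol `a`
having rank `A[a]`. -/
def Ranked (A : List ℕ) : Tree → Prop
  | .node a r c => A[a]? = some r ∧ ∀ i, Ranked A (c i)

/-- Right-hand sides of the rules of a macro tree transducer: a parameter `y_j`; an output symbol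
`b` with `r` subterms; a call `q (x_i, ζ_0, ..., ζ_(n-1))` of the state `q` on the `i`-th subtree
(everything is counted from 0). -/
inductive Rhs : Type
  | param (j : ℕ) : Rhs
  | out (b r : ℕ) (c : Fin r → Rhs) : Rhs
  | call (q i n : ℕ) (c : Fin n → Rhs) : Rhs

/-- The right-hand side is well formed for a state with `m` parameters and an input symbol of
rank `r`, where `B` lists the ranks of the output symbols and `Q` the numbers of parameters of the
states. -/
def Rhs.WF (B Q : List ℕ) (m r : ℕ) : Rhs → Prop
  | .param j => j < m
  | .out b n c => B[b]? = some n ∧ ∀ i, (c i).WF B Q m r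
  | .call q i n c => Q[q]? = some n ∧ i < r ∧ ∀ l, (c l).WF B Q m r

/-- A deterministic macro tree transducer with input alphabet `A` and output alphabet `B`. The
states are `0, ..., params.length - 1`, `params[q]` is the number of parameters of `q`, the
initial state is `0`, and `rule q a` is the right-hand side of the rule of the state `q` and the
input symbol `a` (`none` if there is no rule). -/
structure DMTT (A B : List ℕ) where
  params : List ℕ
  rule : ℕ → ℕ → Option Rhs
  init : params[0]? = some 0
  wf : ∀ (q m a r : ℕ) (ζ : Rhs), params[q]? = some m → A[a]? = some r → rule q a = some ζ →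
    ζ.WF B params m r

/-- Value of a right-hand side, by name (outside-in): `ρ j` is the value of the parameter `y_j` and
`f i q` the function computed by the state `q` on the `i`-th subtree; `none` means undefined. An
undefined argument matters only if it is used. -/
def Rhs.eval (ρ : ℕ → Option Tree) (f : ℕ → ℕ → (ℕ → Option Tree) → Option Tree) :
    Rhs → Option Tree
  | .param j => ρ j
  | .out b r c =>
      if h : ∀ i, ((c i).eval ρ f).isSome then
        some (.node b r fun i => ((c i).eval ρ f).get (h i))
      else none
  | .call q i n c => f i q fun l => if h : l < n then (c ⟨l, h⟩).eval ρ f else none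

/-- The function computed by the state `q` on the tree `s`, applied to the parameter values `ρ`. -/
def DMTT.run {A B : List ℕ} (M : DMTT A B) : Tree → ℕ → (ℕ → Option Tree) → Option Tree
  | .node a r c, q, ρ =>
      match M.rule q a with
      | none => none
      | some ζ => ζ.eval ρ fun i q' ρ' => if h : i < r then M.run (c ⟨i, h⟩) q' ρ' else none

/-- The partial function realised by the transducer. -/
def DMTT.tau {A B : List ℕ} (M : DMTT A B) (s : Tree) : Option Tree :=
  M.run s 0 fun _ => none

/-- The Strahler number: `0` for a leaf; the maximum `m` over the children if it is attained once,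
and `m + 1` if it is attained at least twice. -/
def strahler : Tree → ℕ
  | .node _ r c =>
      let m := Finset.univ.sup fun i : Fin r => strahler (c i)
      if 2 ≤ (Finset.univ.filter fun i : Fin r => strahler (c i) = m).card then m + 1 else m

/-- Postfix code of a right-hand side. -/
def Rhs.code : Rhs → List (ℕ × ℕ × ℕ × ℕ)
  | .param j => [(0, j, 0, 0)]
  | .out b r c => (List.ofFn fun i => (c i).code).flatten ++ [(1, b, r, 0)]
  | .call q i n c => (List.ofFn fun l => (c l).code).flatten ++ [(2, q, i, n)]

/-- Codes of transducers: the numbers of parameters and the table of the rules. -/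
abbrev Code : Type := List ℕ × List (List (Option (List (ℕ × ℕ × ℕ × ℕ))))

/-- The code of a transducer. -/
def DMTT.code {A B : List ℕ} (M : DMTT A B) : Code :=
  (M.params, (List.range M.params.length).map fun q =>
    (List.range A.length).map fun a => (M.rule q a).map Rhs.code)

end Pool.Agent.Lib.MP_39893a_lc
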