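import Pool.Agent.Lib.MP_39893a_lc.Defs

/-!
# Separation of trees by affine interpretations (MP_39893a_lc)
-/

set_option autoImplicit false

open Finset

namespace Pool.Agent.Lib.MP_39893a_lc

/-- An affine interpretation: the symbol `b` acts by `u ↦ C b + ∑ i, A b i * u i`. -/
structure Interp (S : Type) where
  C : ℕ → ℕ → S
  A : ℕ → ℕ → ℕ → ℕ → S

/-- The value of a tree under an interpretation of dimension `d` (only the coordinates below `d`
matter). -/
def W {S : Type} [CommRing S] (d : ℕ) (I : Interp S) : Tree → ℕ → S
  | .node b r c, x => I.C b x + ∑ i : Fin r, ∑ y ∈ range d, I.A b i x y * W d I (c i) y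

/-- Image of an interpretation under a ring homomorphism. -/
def Interp.map {S T : Type} (f : S → T) (I : Interp S) : Interp T :=
  ⟨fun b x => f (I.C b x), fun b i x y => f (I.A b i x y)⟩

theorem W_map {S T : Type} [CommRing S] [CommRing T] (f : S →+* T) (d : ℕ) (I : Interp S)
    (t : Tree) : ∀ x, W d (I.map f) t x = f (W d I t x) := by
  induction t with
  | node b r c ih =>
    intro x
    simp only [W, Interp.map, map_add, map_sum, map_mul]
    congr 1
    refine Finset.sum_congr rfl fun i _ => Finset.sum_congr rfl fun y _ => ?_
    rw [← ih i y]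
    rfl

/-- `W` depends only on the coordinates below `d`. -/
theorem W_congr {S : Type} [CommRing S] (d : ℕ) (B : List ℕ) (I J : Interp S)
    (hC : ∀ b x, b < B.length → x < d → I.C b x = J.C b x)
    (hA : ∀ b i x y, b < B.length → i < B.getD b 0 → x < d → y < d → I.A b i x y = J.A b i x y)
    (t : Tree) (ht : Ranked B t) : ∀ x, x < d → W d I t x = W d J t x := by
  induction t with
  | node b r c ih =>
    intro x hx
    obtain ⟨hb, hc⟩ := ht
    obtain ⟨hbl, hbr⟩ := List.getElem?_eq_some_iff.1 hb
    simp only [W]
    rw [hC b x hbl hx]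
    congr 1
    refine Finset.sum_congr rfl fun i _ => Finset.sum_congr rfl fun y hy => ?_
    have hi : (i : ℕ) < B.getD b 0 := by
      rw [List.getD_eq_getElem?_getD, hb]
      exact i.2
    rw [hA b i x y hbl hi hx (Finset.mem_range.1 hy), ih i (hc i) y (Finset.mem_range.1 hy)]

/-- Two trees have the same value under all interpretations of dimension `d`, over all commutative
rings. -/
def Sim (d : ℕ) (t t' : Tree) : Prop :=
  ∀ (S : Type) [CommRing S] (I : Interp S) (x : ℕ), x < d → W d I t x = W d I t' x

theorem strahler_child_le {b r : ℕ} {c : Fin r → Tree} (i : Fin r) :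
    strahler (c i) ≤ strahler (.node b r c) := by
  have h1 : strahler (c i) ≤ Finset.univ.sup fun i : Fin r => strahler (c i) :=
    Finset.le_sup (f := fun i : Fin r => strahler (c i)) (Finset.mem_univ i)
  rw [strahler]
  split <;> omega

theorem strahler_unique {b r k : ℕ} {c : Fin r → Tree} (h : strahler (.node b r c) ≤ k)
    (i j : Fin r) (hi : strahler (c i) = k) (hj : strahler (c j) = k) : i = j := by
  by_contra hij
  have h1 : ∀ l, strahler (c l) ≤ k := fun l => (strahler_child_le l).trans h
  have hm : (Finset.univ.sup fun i : Fin r => strahler (c i)) = k := by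
    apply le_antisymm
    · exact Finset.sup_le fun l _ => h1 l
    · rw [← hi]
      exact Finset.le_sup (f := fun i : Fin r => strahler (c i)) (Finset.mem_univ i)
  rw [strahler] at h
  rw [hm] at h
  have h2 : 2 ≤ (Finset.univ.filter fun i : Fin r => strahler (c i) = k).card := by
    have : ({i, j} : Finset (Fin r)) ⊆ Finset.univ.filter fun i : Fin r => strahler (c i) = k := by
      intro l hl
      rcases Finset.mem_insert.1 hl with rfl | hl
      · simp [hi]
      · rw [Finset.mem_singleton.1 hl]
        simp [hj]
    calc 2 = ({i, j} : Finset (Fin r)).card := (Finset.card_pair hij).symm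
      _ ≤ _ := Finset.card_le_card this
  rw [if_pos h2] at h
  omega

/-- Injectivity of a generic matrix. -/
theorem generic_inj {S : Type} [CommRing S] (d : ℕ) (A : ℕ → ℕ → S)
    (v : ℕ → Polynomial S)
    (h : ∀ x < d, ∑ y ∈ range d,
      (Polynomial.C (A x y) + if x = y then Polynomial.X else 0) * v y = 0) :
    ∀ x < d, v x = 0 := by
  classical
  let N : Matrix (Fin d) (Fin d) S := fun x y => - A x y
  let M := Matrix.charmatrix N
  have hM : M.mulVec (fun y : Fin d => v y) = 0 := by
    funext x
    have := h x x.2
    rw [Finset.sum_range] at this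
    rw [Matrix.mulVec, Pi.zero_apply, ← this]
    simp only [dotProduct]
    refine Finset.sum_congr rfl fun y _ => ?_
    congr 1
    simp only [M, N, Matrix.charmatrix_apply, Matrix.diagonal_apply, map_neg, sub_neg_eq_add]
    rw [add_comm]
    congr 1
    by_cases hxy : x = y
    · subst hxy
      simp
    · have : (x : ℕ) ≠ y := fun h => hxy (Fin.ext h)
      simp [hxy, this]
  have hdet : M.det ∈ nonZeroDivisors (Polynomial S) := by
    have : (Matrix.charpoly N).Monic := Matrix.charpoly_monic N
    exact this.mem_nonZeroDivisors
  have h2 : M.det • (fun y : Fin d => v y) = 0 := by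
    have := congrArg (fun w => (M.adjugate).mulVec w) hM
    simp only [Matrix.mulVec_mulVec, Matrix.adjugate_mul, Matrix.mulVec_zero] at this
    rw [Matrix.smul_mulVec, Matrix.one_mulVec] at this
    exact this
  intro x hx
  have h3 := congrFun h2 ⟨x, hx⟩
  simp only [Pi.smul_apply, smul_eq_mul, Pi.zero_apply] at h3
  exact (mem_nonZeroDivisors_iff.1 hdet).1 _ h3

theorem iso_symbol {d : ℕ} (hd : 0 < d) {b b' r r' : ℕ} {c : Fin r → Tree} {c' : Fin r' → Tree}
    (h : Sim d (.node b r c) (.node b' r' c')) : b = b' := by
  by_contra hb
  have := h ℤ ⟨fun a _ => if a = b then 1 else 0, fun _ _ _ _ => 0⟩ 0 hd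
  simp [W, Ne.symm hb] at this

/-- Passing to a child costs one dimension. -/
theorem iso_child {d b r : ℕ} {c c' : Fin r → Tree} (i : Fin r)
    (h : Sim (d + 1) (.node b r c) (.node b r c')) : Sim d (c i) (c' i) := by
  intro S _ I y0 hy0
  -- coordinates 1, ..., d carry the old interpretation, coordinate 0 reads the child `i`
  let J : Interp S :=
    ⟨fun a x => if x = 0 then 0 else I.C a (x - 1), fun a j x y =>
      if x = 0 then (if a = b ∧ j = i ∧ y = y0 + 1 then 1 else 0)
      else if y = 0 then 0 else I.A a j (x - 1) (y - 1)⟩
  have key : ∀ t : Tree, ∀ x, W (d + 1) J t (x + 1) = W d I t x := by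
    intro t
    induction t with
    | node a n e ih =>
      intro x
      simp only [W]
      congr 1
      refine Finset.sum_congr rfl fun j _ => ?_
      rw [Finset.sum_range_succ']
      simp only [J, Nat.add_eq_zero_iff, one_ne_zero, and_false, if_false, if_true,
        Nat.add_sub_cancel, zero_mul, add_zero]
      refine Finset.sum_congr rfl fun y _ => ?_
      rw [← ih j y]
  have key0 : ∀ e : Fin r → Tree, W (d + 1) J (.node b r e) 0 = W d I (e i) y0 := by
    intro e
    rw [W]
    have : J.C b 0 = 0 := by simp [J]
    rw [this, zero_add, Finset.sum_eq_single i]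
    · rw [Finset.sum_eq_single (y0 + 1)]
      · rw [key]
        simp [J]
      · intro y _ hy
        simp [J, hy]
      · intro hy
        exact absurd (Finset.mem_range.2 (by omega)) hy
    · intro j _ hj
      have : (j : ℕ) ≠ i := fun h => hj (Fin.ext h)
      refine Finset.sum_eq_zero fun y _ => ?_
      simp [J, this]
    · intro hi
      exact absurd (Finset.mem_univ i) hi
  have := h S J 0 (by omega)
  rwa [key0, key0] at this

/-- If all children except `j` agree, so does `j`. -/
theorem iso_heavy {d b r : ℕ} {c c' : Fin r → Tree} (j : Fin r)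
    (hne : ∀ i, i ≠ j → c i = c' i)
    (h : Sim d (.node b r c) (.node b r c')) : Sim d (c j) (c' j) := by
  intro S _ I x0 hx0
  let J : Interp (Polynomial S) :=
    ⟨fun a x => Polynomial.C (I.C a x), fun a i x y =>
      Polynomial.C (I.A a i x y) + if a = b ∧ i = j ∧ x = y then Polynomial.X else 0⟩
  have hJ : J.map (Polynomial.evalRingHom (0 : S)) = I := by
    simp only [Interp.map, J]
    congr 1
    · funext a x
      simp
    · funext a i x y
      by_cases h : a = b ∧ i = (j : ℕ) ∧ x = y <;> simp [h]
  have h1 : ∀ x < d, W d J (c j) x = W d J (c' j) x := by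
    have h2 : ∀ x < d, W d J (c j) x - W d J (c' j) x = 0 := by
      apply generic_inj d (fun x y => I.A b j x y) (fun x => W d J (c j) x - W d J (c' j) x)
      intro x hx
      have h3 := h _ J x hx
      rw [W, W] at h3
      have h4 := add_left_cancel h3
      rw [← Finset.add_sum_erase _ _ (Finset.mem_univ j),
        ← Finset.add_sum_erase (a := j) Finset.univ
          (fun i : Fin r => ∑ y ∈ range d, J.A b i x y * W d J (c' i) y)
          (Finset.mem_univ j)] at h4
      have h5 : ∑ i ∈ Finset.univ.erase j, ∑ y ∈ range d, J.A b i x y * W d J (c i) y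
          = ∑ i ∈ Finset.univ.erase j, ∑ y ∈ range d, J.A b i x y * W d J (c' i) y := by
        refine Finset.sum_congr rfl fun i hi => ?_
        rw [hne i (Finset.ne_of_mem_erase hi)]
      rw [h5] at h4
      have h6 := add_right_cancel h4
      have : ∑ y ∈ range d, J.A b j x y * (W d J (c j) y - W d J (c' j) y) = 0 := by
        simp only [mul_sub, Finset.sum_sub_distrib]
        rw [h6, sub_self]
      refine Eq.trans (Finset.sum_congr rfl fun y _ => ?_) this
      congr 1
      simp [J]
    intro x hx
    exact sub_eq_zero.1 (h2 x hx)
  have h2 := congrArg (Polynomial.evalRingHom (0 : S)) (h1 x0 hx0)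
  rw [← W_map, ← W_map, hJ] at h2
  exact h2

/-- **Separation.** Trees of Strahler number at most `k` are separated from all other trees by the
affine interpretations of dimension `k + 1`. -/
theorem separation (B : List ℕ) : ∀ (k : ℕ) (t t' : Tree), Ranked B t → Ranked B t' →
    strahler t ≤ k → Sim (k + 1) t t' → t = t' := by
  intro k
  induction k with
  | zero =>
    intro t
    induction t with
    | node b r c ih =>
      intro t' ht ht' hs hsim
      obtain ⟨b', r', c'⟩ := t'
      have hb := iso_symbol (Nat.succ_pos 0) hsim
      subst hb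
      obtain ⟨h1, h2⟩ := ht
      obtain ⟨h1', h2'⟩ := ht'
      rw [h1] at h1'
      have hr := Option.some.inj h1'
      subst hr
      congr 1
      funext i
      have hz : ∀ l, strahler (c l) = 0 := fun l =>
        Nat.le_zero.1 ((strahler_child_le l).trans hs)
      apply ih i _ (h2 i) (h2' i) (hz i).le
      apply iso_heavy i _ hsim
      intro l hl
      exact absurd (strahler_unique hs l i (hz l) (hz i)) hl
  | succ k ihk =>
    intro t
    induction t with
    | node b r c ih =>
      intro t' ht ht' hs hsim
      obtain ⟨b', r', c'⟩ := t'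
      have hb := iso_symbol (Nat.succ_pos _) hsim
      subst hb
      obtain ⟨h1, h2⟩ := ht
      obtain ⟨h1', h2'⟩ := ht'
      rw [h1] at h1'
      have hr := Option.some.inj h1'
      subst hr
      congr 1
      have hle : ∀ l, strahler (c l) ≤ k + 1 := fun l => (strahler_child_le l).trans hs
      have hlight : ∀ l, strahler (c l) ≠ k + 1 → c l = c' l := by
        intro l hl
        apply ihk _ _ (h2 l) (h2' l)
        · have := hle l
          omega
        · exact iso_child l hsim
      funext i
      by_cases hi : strahler (c i) = k + 1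
      · apply ih i _ (h2 i) (h2' i) hi.le
        apply iso_heavy i _ hsim
        intro l hl
        apply hlight
        intro hl'
        exact hl (strahler_unique hs l i hl' hi)
      · exact hlight i hi

end Pool.Agent.Lib.MP_39893a_lc
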