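import Pool.Agent.Lib.MP_39893a_lc.Check

/-!
# Module statements (MP_39893a_lc)

Paper proof: /team-store/MP_39893a_STRAHLER.md. Each module XXX.lean proves
`theorem specXXX : SpecXXX` (with the earlier Specs it uses as hypotheses).
-/

set_option autoImplicit false

namespace Pool.Agent.Lib.MP_39893a_lc

open MvPolynomial

/-- ALG (helper90). Vanishing ideal certificate. `K = FractionRing R`, `J` = ideal of the
polynomials over `K` in `N` variables vanishing at the points of `S`; it is finitely generated; if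
`p ∈ J`, then `p(F_a)` vanishes on `S^r`, and over a field a polynomial vanishing on `S^r` lies in
the ideal generated by the `r` copies of `J` (lemma on page 1, step 5: for `h_1..h_n` in `K[x]`
there are finitely many `s_a` in `S` and `u_a` in `K[x]` with `h_i - ∑ h_i(s_a) u_a` in `J`; add
the `h_i` one by one keeping `u_a(s_b) = δ_ab`). Clear denominators. -/
def SpecAlg : Prop :=
  ∀ (R : Type) [CommRing R] [IsDomain R] (N : ℕ) (ι : Type) [Finite ι] (r : ι → ℕ)
    (F : ∀ a : ι, Fin N → MvPolynomial (Fin (r a) × Fin N) R)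
    (E : Type) [Finite E] (G : E → MvPolynomial (Fin N) R) (S : Set (Fin N → R)),
    (∀ (a : ι) (x : Fin (r a) → Fin N → R), (∀ j, x j ∈ S) →
      (fun n => eval (fun q : Fin (r a) × Fin N => x q.1 q.2) (F a n)) ∈ S) →
    (∀ e, ∀ x ∈ S, eval x (G e) = 0) →
    ∃ (n : ℕ) (p : Fin n → MvPolynomial (Fin N) R) (D : R)
      (c : ∀ a : ι, Fin n → Fin (r a) → Fin n → MvPolynomial (Fin (r a) × Fin N) R)
      (c' : E → Fin n → MvPolynomial (Fin N) R), D ≠ 0 ∧
      (∀ (a : ι) (i : Fin n), C D * aeval (F a) (p i)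
        = ∑ j : Fin (r a), ∑ l : Fin n, c a i j l * rename (fun m => (j, m)) (p l)) ∧
      ∀ e, C D * G e = ∑ l : Fin n, c' e l * p l

/-- DEG (helper64). Degrees. Machine: if the entries of `V`, `bl` have degree at most `1`, then after
`m` tokens the sum over the stack of (bounds for) the degrees of the forms is at most
`(P + 1) * m`: `mkF (parE p)` has degree 0, `appE` of `S` (degree at most 1) and `F_0, F_1, ..`
has degree at most `P + 1 + ∑ deg F_i` (missing forms are `[]`, all entries 0, degree 0). So the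
entries of `vecS` have degree at most `(P + 1) * tlenT T`. `evalP env e` has degree at most
`e.length * w` if all entries of `env` have degree at most `w` (invariant: sum over the stack at
most `w * tokens`, for `w ≥ 1`; use a bound like `1 + (P + 1) * tlenT T`). `target` has degree at
most `P + 2`. -/
def SpecDeg : Prop :=
  ∀ (s : Sys) (c : Cert) (σ : Type) (V : List (MvPolynomial σ ℤ))
    (bl : List (List (MvPolynomial σ ℤ))),
    (∀ p ∈ V, p.totalDegree ≤ 1) → (∀ F ∈ bl, ∀ p ∈ F, p.totalDegree ≤ 1) →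
    (∀ a i, ((ringOps (MvPolynomial σ ℤ)).lhs1 s c a i V bl).totalDegree < bnd s c ∧
      ((ringOps (MvPolynomial σ ℤ)).rhs1 s c a i V bl).totalDegree < bnd s c) ∧
    (∀ x ∈ bl, ∀ e, ((ringOps (MvPolynomial σ ℤ)).lhs2 s c e V x).totalDegree < bnd s c ∧
      ((ringOps (MvPolynomial σ ℤ)).rhs2 c e V x).totalDegree < bnd s c)

/-- GRID (helper64). From the grid to all integer points. Use `Ops.Hom` (file Natu) for
`zv : zz → ringOps ℤ` and for `eval x : ringOps (MvPolynomial (Fin n) ℤ) → ringOps ℤ`, the generic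
point (`V = X 0, ..., X (nV-1)`, block `i` = the next `N` variables), `SpecDeg`, and
`MvPolynomial.eq_zero_of_eval_zero_at_prod_finset` with the sets `{0, ..., bnd - 1}`; every
function `Fin n → {0, ..., B - 1}` consists of the digits of some `z < B ^ n`
(`finFunctionFinEquiv` or `Nat.ofDigits`). (The case `bl` with wrong lengths is not needed.) -/
def SpecGrid : Prop :=
  ∀ (s : Sys) (c : Cert), Chk s c →
    (∀ a < s.A.length, ∀ i < c.ps.length, ∀ (V : List ℤ) (bl : List (List ℤ)),
      V.length = s.nV → bl.length = s.rk a → (∀ F ∈ bl, F.length = s.N) →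
      (ringOps ℤ).lhs1 s c a i V bl = (ringOps ℤ).rhs1 s c a i V bl) ∧
    (∀ e < s.d + 1, ∀ V x : List ℤ, V.length = s.nV → x.length = s.N →
      (ringOps ℤ).lhs2 s c e V x = (ringOps ℤ).rhs2 c e V x)

/-- SOUND (helper32). -/
def SpecSound : Prop := ∀ (s : Sys) (c : Cert), Chk s c → Raw s

/-- TOK (helper32). Every polynomial has an expression. -/
def SpecTok : Prop :=
  ∀ (ι : Type) (pos : ι → ℕ × ℕ) (n : ℕ) (p : MvPolynomial ι (MvPolynomial (Fin n) ℤ)),
    ∃ e : List PTok, ∀ env : List (List ℤ), (ringOps ℤ).evalP env e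
      = eval (fun q => (env.getD (pos q).1 []).getD (pos q).2 0)
          (MvPolynomial.map (eval fun i : Fin n => (env.getD 0 []).getD i 0) p)

/-- COMPLETE (helper32). -/
def SpecComplete : Prop := ∀ s : Sys, Raw s → ∃ c : Cert, Chk s c

/-- SEARCH (helper32). -/
def SpecSearch : Prop := ∀ s : Sys, ¬ Raw s ↔ ∃ k, Srch s k

/-- PRIMVEC (helper10). Primitive recursion of the machine over `zz`. Useful: `Primrec.list_foldl`,
`list_map`, `list_range`, `list_take`, `list_drop`, `list_reverse`, `list_getD`, `nat_rec` (for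
`Ops.sum`, `Ops.prod`), `Primrec.ite`, `Primrec.nat_div`, `nat_mod`, `nat_mul`. -/
def SpecPrimVec : Prop :=
  Primrec (fun p : Sys × ℕ × List (ℕ × ℕ) × List (List (ℕ × ℕ)) =>
    zz.vecS p.1.P p.1.d p.1.n1 p.1.T p.2.1 p.2.2.1 p.2.2.2)

/-- PRIMTAR (helper10). -/
def SpecPrimTar : Prop :=
  Primrec (fun p : Sys × List (ℕ × ℕ) × ℕ => zz.target p.1.P p.1.d p.1.n1 p.2.1 p.2.2)

/-- PRIMCHK (free). Uses SpecPrimVec, SpecPrimTar as hypotheses; the rest of `Chk` (`evalP`,
`lhs1`, ..., `bnd`, digits) has to be done. Bounded quantifiers: `PrimrecPred.forall_lt`,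
`PrimrecRel.forall_lt`. -/
def SpecPrimChk : Prop := PrimrecPred (fun p : Sys × Cert => Chk p.1 p.2)

/-- PRIMSRCH (free). Uses SpecPrimVec, SpecPrimTar as hypotheses. -/
def SpecPrimSrch : Prop :=
  PrimrecPred (fun p : Sys × (List ℕ × List (ℕ × ℕ) × ℕ) => Srch p.1 p.2)

end Pool.Agent.Lib.MP_39893a_lc
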