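import Pool.Agent.Lib.MP_39893a_lc.Dag

/-!
# Separation of trees with a thin divergence (MP_39893a_lc)
-/

set_option autoImplicit false

open Finset

namespace Pool.Agent.Lib.MP_39893a_lc

/-- The divergence of `t` and `t'` is thin at level `k`. Reading `t` and `t'` in parallel from
the root as long as the symbols agree and the subtrees differ gives a tree of pairs of subtrees,
whose leaves are pairs with different root symbols; this says that the Strahler number of its
minimal DAG is at most `k`, where moreover pairs `(u, u')` with `dstr u ≤ k` or `dstr u' ≤ k`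
may be taken as leaves: the least relation that contains
* the pairs with `dstr t ≤ k` or `dstr t' ≤ k` (`low`),
* the pairs with different root symbols (`root`),
* the pairs with the same root symbol such that for some pair `(u, u')` whose divergence is thin
  at level `k` each pair of corresponding children is equal or `(u, u')` (`stem`) or, if `k > 0`,
  a pair whose divergence is thin at level `k - 1` (`branch`). -/
inductive Thin : ℕ → Tree → Tree → Prop
  | low {k : ℕ} {t t' : Tree} : dstr t ≤ k ∨ dstr t' ≤ k → Thin k t t'
  | root {k b b' r r' : ℕ} {c : Fin r → Tree} {c' : Fin r' → Tree} : b ≠ b' →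
      Thin k (.node b r c) (.node b' r' c')
  | stem {k b r : ℕ} {c c' : Fin r → Tree} (u u' : Tree) : Thin k u u' →
      (∀ i, c i = c' i ∨ (c i = u ∧ c' i = u')) → Thin k (.node b r c) (.node b r c')
  | branch {k b r : ℕ} {c c' : Fin r → Tree} (u u' : Tree) (L : Set (Fin r)) :
      Thin (k + 1) u u' → (∀ i ∈ L, Thin k (c i) (c' i)) →
      (∀ i, i ∉ L → c i = c' i ∨ (c i = u ∧ c' i = u')) →
      Thin (k + 1) (.node b r c) (.node b r c')

/-- The heavy part: all children are equal or the pair `(u, u')`. -/
theorem eq_of_heavy {B : List ℕ} {k b r : ℕ} {c c' : Fin r → Tree} {u u' : Tree}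
    (ih : Ranked B u → Ranked B u' → ∀ (J : Type) (s : Finset J), s.Nonempty →
      Avg k s (fun _ => u') u → u = u')
    (h : ∀ i, c i = c' i ∨ (c i = u ∧ c' i = u')) (ht : Ranked B (.node b r c))
    (ht' : Ranked B (.node b r c')) (J : Type) (s : Finset J) (hs : s.Nonempty)
    (hA : Avg k s (fun _ => .node b r c') (.node b r c)) :
    Tree.node b r c = .node b r c' := by
  classical
  let H : Finset (Fin r) := Finset.univ.filter fun i => c i ≠ c' i
  have hH : ∀ i ∈ H, c i = u ∧ c' i = u' := fun i hi =>
    (h i).resolve_left (Finset.mem_filter.1 hi).2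
  by_cases hne : H.Nonempty
  · obtain ⟨i, hi⟩ := hne
    obtain ⟨h1, h2⟩ := hH i hi
    have hR : Ranked B u := h1 ▸ ht.2 i
    have hR' : Ranked B u' := h2 ▸ ht'.2 i
    have hall := avg_all (c' := fun _ : J => c') (fun j _ => rfl) hA
    have huu : u = u' := by
      refine ih hR hR' (J × Fin r) (s ×ˢ H) ((hs.product ⟨i, hi⟩)) ?_
      intro S _ x c0 a I
      have hh := hall S x c0 a I
      rw [Finset.sum_const, nsmul_eq_mul] at hh
      have e1 : ∑ i' : Fin r, W (k + 1) (ext x c0 a I) (c' i') 0
          = H.card * W (k + 1) (ext x c0 a I) u' 0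
            + ∑ i' ∈ Finset.univ.filter (fun l => ¬ c l ≠ c' l),
                W (k + 1) (ext x c0 a I) (c i') 0 := by
        rw [← Finset.sum_filter_add_sum_filter_not Finset.univ (fun l : Fin r => c l ≠ c' l)]
        congr 1
        · rw [Finset.sum_congr rfl fun i' hi' => by rw [(hH i' hi').2], Finset.sum_const,
            nsmul_eq_mul]
        · refine Finset.sum_congr rfl fun i' hi' => ?_
          rw [not_not.1 (Finset.mem_filter.1 hi').2]
      have e2 : ∑ i' : Fin r, W (k + 1) (ext x c0 a I) (c i') 0
          = H.card * W (k + 1) (ext x c0 a I) u 0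
            + ∑ i' ∈ Finset.univ.filter (fun l => ¬ c l ≠ c' l),
                W (k + 1) (ext x c0 a I) (c i') 0 := by
        rw [← Finset.sum_filter_add_sum_filter_not Finset.univ (fun l : Fin r => c l ≠ c' l)]
        congr 1
        rw [Finset.sum_congr rfl fun i' hi' => by rw [(hH i' hi').1], Finset.sum_const,
          nsmul_eq_mul]
      rw [e1, e2, mul_add, mul_add] at hh
      have h5 := add_right_cancel hh
      rw [Finset.sum_const, nsmul_eq_mul, Finset.card_product]
      push_cast
      rw [mul_assoc, mul_assoc, h5]
    congr 1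
    funext i'
    rcases h i' with h' | ⟨h3, h4⟩
    · exact h'
    · rw [h3, h4, huu]
  · congr 1
    funext i
    by_contra hi
    exact hne ⟨i, Finset.mem_filter.2 ⟨Finset.mem_univ _, hi⟩⟩

theorem thin_avg (B : List ℕ) {k : ℕ} {t t' : Tree} (h : Thin k t t') :
    Ranked B t → Ranked B t' → ∀ (J : Type) (s : Finset J), s.Nonempty →
      Avg k s (fun _ => t') t → t = t' := by
  classical
  induction h with
  | @low k t t' h =>
    intro ht ht' J s hs hA
    obtain ⟨j, hj⟩ := hs
    rcases h with h | h
    · exact (extremal B k t ht h J s (fun _ => t') (fun _ _ => ht') hA j hj).symm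
    · refine extremal B k t' ht' h J s (fun _ => t) (fun _ _ => ht) ?_ j hj
      intro S _ x c0 a I
      have := hA S x c0 a I
      rw [Finset.sum_const, nsmul_eq_mul] at this ⊢
      exact this.symm
  | @root k b b' r r' c c' hb =>
    intro ht ht' J s hs hA
    obtain ⟨j, hj⟩ := hs
    obtain ⟨r'', c'', h1⟩ := avg_root hA j hj
    injection h1 with h1
    exact absurd h1.symm hb
  | @stem k b r c c' u u' hu h ih =>
    intro ht ht' J s hs hA
    exact eq_of_heavy ih h ht ht' J s hs hA
  | @branch k b r c c' u u' L hu hL h ihu ihL =>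
    intro ht ht' J s hs hA
    have hLeq : ∀ i ∈ L, c i = c' i := fun i hi =>
      ihL i hi (ht.2 i) (ht'.2 i) J s hs (avg_child (c' := fun _ : J => c') (fun j _ => rfl) hA i)
    refine eq_of_heavy ihu (fun i => ?_) ht ht' J s hs hA
    by_cases hi : i ∈ L
    · exact Or.inl (hLeq i hi)
    · exact h i hi

/-- **Separation.** Different trees with a thin divergence at level `k` are separated by the
affine interpretations of dimension `k + 1`. -/
theorem separation_thin (B : List ℕ) (k : ℕ) (t t' : Tree) (ht : Ranked B t) (ht' : Ranked B t')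
    (hk : Thin k t t') (h : Sim (k + 1) t t') : t = t' := by
  refine thin_avg B hk ht ht' Unit {()} (Finset.singleton_nonempty _) ?_
  intro S _ x c0 a I
  rw [Finset.sum_singleton, Finset.card_singleton, Nat.cast_one, one_mul]
  exact (h S (ext x c0 a I) 0 (Nat.succ_pos k)).symm

/-- Thin divergence is monotone in the level. -/
theorem Thin.succ {k : ℕ} {t t' : Tree} (h : Thin k t t') : Thin (k + 1) t t' := by
  induction h with
  | low h => exact .low (h.imp (fun h => h.trans (Nat.le_succ _)) fun h => h.trans (Nat.le_succ _))
  | root h => exact .root h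
  | stem u u' _ h ih => exact .stem u u' ih h
  | branch u u' L _ _ h ihu ihL => exact .branch u u' L ihu ihL h

end Pool.Agent.Lib.MP_39893a_lc
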