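import Pool.Agent.Lib.MP_39893a_lc.Machine
import Pool.Agent.Lib.MP_39893a_lc.Spec
import Pool.Agent.Lib.MP_39893a_lc.Iso
import Pool.Agent.Lib.MP_39893a_lc.Thin

section
/-!
# The machine commutes with homomorphisms (MP_39893a_lc)
-/
set_option autoImplicit false

namespace Pool.Agent.Lib.MP_39893a_lc

theorem map_getD {α β : Type} (φ : α → β) (l : List α) (n : ℕ) (a : α) :
    φ (l.getD n a) = (l.map φ).getD n (φ a) := by
  rw [List.getD_eq_getElem?_getD, List.getD_eq_getElem?_getD, List.getElem?_map]
  cases l[n]? <;> rfl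

theorem getD_map_nil {α β : Type} (φ : α → β) (l : List (List α)) (n : ℕ) :
    (l.getD n []).map φ = (l.map (List.map φ)).getD n [] :=
  map_getD (List.map φ) l n []

namespace Ops.Hom

variable {α β : Type} {o : Ops α} {o' : Ops β} {φ : α → β} (h : Ops.Hom o o' φ)

include h

theorem sum (f : ℕ → α) (n : ℕ) : φ (o.sum f n) = o'.sum (fun i => φ (f i)) n := by
  induction n with
  | zero => exact h.nat 0
  | succ n ih => rw [Ops.sum, Ops.sum, h.add, ih]

theorem prod (f : ℕ → α) (n : ℕ) : φ (o.prod f n) = o'.prod (fun i => φ (f i)) n := by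
  induction n with
  | zero => exact h.nat 1
  | succ n ih => rw [Ops.prod, Ops.prod, h.mul, ih]

theorem co (a : α) : φ (o.co a) = o'.co (φ a) := by
  rw [Ops.co, Ops.co, h.add, h.nat, h.neg]

theorem gF (d : ℕ) (F : List α) (j x y : ℕ) : φ (o.gF d F j x y) = o'.gF d (F.map φ) j x y := by
  rw [Ops.gF, Ops.gF, map_getD φ, h.nat]

theorem gFs (d : ℕ) (Fs : List (List α)) (i j x y : ℕ) :
    φ (o.gF d (Fs.getD i []) j x y) = o'.gF d ((Fs.map (List.map φ)).getD i []) j x y := by
  rw [h.gF, getD_map_nil]

omit h in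
theorem mkF (φ : α → β) (P d : ℕ) (f : ℕ → ℕ → ℕ → α) :
    (mkF P d f).map φ = Pool.Agent.Lib.MP_39893a_lc.mkF P d (fun j x y => φ (f j x y)) := by
  rw [Pool.Agent.Lib.MP_39893a_lc.mkF, Pool.Agent.Lib.MP_39893a_lc.mkF, List.map_map]
  rfl

theorem appE (P d : ℕ) (S : List α) (Fs : List (List α)) (j x y : ℕ) :
    φ (o.appE P d S Fs j x y) = o'.appE P d (S.map φ) (Fs.map (List.map φ)) j x y := by
  unfold Ops.appE
  split
  · split
    · rw [h.mul, h.gF, h.prod]
      congr 2
      funext i
      rw [h.co, h.mul, h.gF, h.co, h.gFs]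
    · rw [h.co, h.prod]
      congr 2
      funext i
      rw [h.co, h.mul, h.gF, h.gFs]
  · rw [h.add, h.sum]
    congr 1
    · split
      · rw [h.gF]
      · rw [h.nat]
    · congr 1
      funext i
      rw [h.sum]
      congr 1
      funext b
      rw [h.mul, h.gF, h.gFs]

theorem parE (d p j x y : ℕ) : φ (o.parE d p j x y) = o'.parE d p j x y := by
  unfold Ops.parE
  split <;> split <;> rw [h.nat]

theorem symE (P d : ℕ) (V : List α) (b r j x y : ℕ) :
    φ (o.symE P d V b r j x y) = o'.symE P d (V.map φ) b r j x y := by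
  unfold Ops.symE
  split
  · split
    · rw [h.nat]
    · rw [map_getD φ, h.nat]
  · rw [h.nat]

theorem step (P d off : ℕ) (V : List α) (bl st : List (List α)) (tk : Tok) :
    (o.step P d off V bl st tk).map (List.map φ)
      = o'.step P d off (V.map φ) (bl.map (List.map φ)) (st.map (List.map φ)) tk := by
  unfold Ops.step
  split
  · rw [List.map_cons, Hom.mkF]
    congr 2
    funext j x y
    rw [h.parE]
  · split
    · rw [List.map_cons, Hom.mkF, List.map_drop]
      congr 2
      funext j x y
      rw [h.appE, Hom.mkF, List.map_reverse, List.map_take]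
      congr 2
      funext j x y
      rw [h.symE]
    · rw [List.map_cons, Hom.mkF, List.map_drop]
      congr 2
      funext j x y
      rw [h.appE, List.map_reverse, List.map_take, List.map_drop, getD_map_nil]

theorem foldl (P d off : ℕ) (V : List α) (bl : List (List α)) (l : List Tok) :
    ∀ st : List (List α), (l.foldl (o.step P d off V bl) st).map (List.map φ)
      = l.foldl (o'.step P d off (V.map φ) (bl.map (List.map φ))) (st.map (List.map φ)) := by
  induction l with
  | nil => intro st; rfl
  | cons t l ih =>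
    intro st
    rw [List.foldl_cons, List.foldl_cons, ih, h.step]

theorem rhsV (P d off : ℕ) (V : List α) (bl : List (List α)) (rhs : Option (List Tok)) :
    (o.rhsV P d off V bl rhs).map φ
      = o'.rhsV P d off (V.map φ) (bl.map (List.map φ)) rhs := by
  unfold Ops.rhsV
  have := h.foldl P d off V bl (rhs.getD []) []
  rw [List.map_nil] at this
  rw [← this]
  cases List.foldl (o.step P d off V bl) [] (rhs.getD []) <;> rfl

theorem vecS (P d n1 : ℕ) (T : List (List (Option (List Tok)))) (a : ℕ) (V : List α)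
    (bl : List (List α)) :
    (o.vecS P d n1 T a V bl).map φ
      = o'.vecS P d n1 T a (V.map φ) (bl.map (List.map φ)) := by
  unfold Ops.vecS
  rw [List.map_map]
  refine List.map_congr_left fun t _ => ?_
  rw [Function.comp_apply, map_getD φ, h.nat, h.rhsV]

theorem vecT (P d n1 : ℕ) (T : List (List (Option (List Tok)))) (V : List α) (t : Tree) :
    (o.vecT P d n1 T V t).map φ = o'.vecT P d n1 T (V.map φ) t := by
  induction t with
  | node a r c ih =>
    rw [Ops.vecT, Ops.vecT, h.vecS, List.map_ofFn]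
    congr 2
    funext i
    exact ih i

theorem nbres (P d : ℕ) (F : List α) : φ (o.nbres P d F) = o'.nbres P d (F.map φ) := by
  unfold Ops.nbres
  rw [h.mul, h.gF, h.prod]
  congr 2
  funext j
  rw [h.co, h.gF]

theorem target (P d n1 : ℕ) (x : List α) (e : ℕ) :
    φ (o.target P d n1 x e) = o'.target P d n1 (x.map φ) e := by
  unfold Ops.target
  split
  · rw [h.add, h.neg, h.nbres, h.nbres, List.map_drop]
  · rw [h.mul, h.nbres, h.add, h.neg, h.gF, h.gF, List.map_drop]

end Ops.Hom

/-- Ring homomorphisms respect the operations. -/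
theorem homRing {S T : Type} [CommRing S] [CommRing T] (f : S →+* T) :
    Ops.Hom (ringOps S) (ringOps T) f :=
  ⟨fun n => map_natCast f n, fun a b => map_add f a b, fun a b => map_mul f a b,
    fun a => map_neg f a⟩

end Pool.Agent.Lib.MP_39893a_lc
end

section
/-!
# Expressions and certificates commute with homomorphisms (MP_39893a_lc)
-/
set_option autoImplicit false

namespace Pool.Agent.Lib.MP_39893a_lc

namespace Ops.Hom

variable {α β : Type} {o : Ops α} {o' : Ops β} {φ : α → β} (h : Ops.Hom o o' φ)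

include h

theorem getD0 (l : List α) (n : ℕ) : φ (l.getD n (o.nat 0)) = (l.map φ).getD n (o'.nat 0) := by
  rw [map_getD φ, h.nat]

theorem pstep (env : List (List α)) (st : List α) (tk : PTok) :
    (o.pstep env st tk).map φ = o'.pstep (env.map (List.map φ)) (st.map φ) tk := by
  unfold Ops.pstep
  split
  · rw [List.map_cons, h.nat]
  · split
    · rw [List.map_cons, h.add, h.getD0, h.getD0, List.map_drop]
    · split
      · rw [List.map_cons, h.mul, h.getD0, h.getD0, List.map_drop]
      · split
        · rw [List.map_cons, h.neg, h.getD0, List.map_drop]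
        · rw [List.map_cons, h.getD0, getD_map_nil]

theorem foldlP (env : List (List α)) (l : List PTok) :
    ∀ st : List α, (l.foldl (o.pstep env) st).map φ
      = l.foldl (o'.pstep (env.map (List.map φ))) (st.map φ) := by
  induction l with
  | nil => intro st; rfl
  | cons t l ih =>
    intro st
    rw [List.foldl_cons, List.foldl_cons, ih, h.pstep]

theorem evalP (env : List (List α)) (e : List PTok) :
    φ (o.evalP env e) = o'.evalP (env.map (List.map φ)) e := by
  unfold Ops.evalP
  rw [h.getD0, h.foldlP]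
  rfl

theorem lhs1 (s : Sys) (c : Cert) (a i : ℕ) (V : List α) (bl : List (List α)) :
    φ (o.lhs1 s c a i V bl) = o'.lhs1 s c a i (V.map φ) (bl.map (List.map φ)) := by
  unfold Ops.lhs1
  rw [h.mul, h.evalP, h.evalP]
  simp only [List.map_cons, List.map_nil]
  rw [h.vecS]

theorem rhs1 (s : Sys) (c : Cert) (a i : ℕ) (V : List α) (bl : List (List α)) :
    φ (o.rhs1 s c a i V bl) = o'.rhs1 s c a i (V.map φ) (bl.map (List.map φ)) := by
  unfold Ops.rhs1
  rw [h.sum]
  congr 1
  funext j
  rw [h.sum]
  congr 1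
  funext l
  rw [h.mul, h.evalP, h.evalP]
  simp only [List.map_cons, List.map_nil]
  rw [getD_map_nil]

theorem lhs2 (s : Sys) (c : Cert) (e : ℕ) (V x : List α) :
    φ (o.lhs2 s c e V x) = o'.lhs2 s c e (V.map φ) (x.map φ) := by
  unfold Ops.lhs2
  rw [h.mul, h.evalP, h.target]
  simp only [List.map_cons, List.map_nil]

theorem rhs2 (c : Cert) (e : ℕ) (V x : List α) :
    φ (o.rhs2 c e V x) = o'.rhs2 c e (V.map φ) (x.map φ) := by
  unfold Ops.rhs2
  rw [h.sum]
  congr 1
  funext l
  rw [h.mul, h.evalP, h.evalP]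
  simp only [List.map_cons, List.map_nil]

end Ops.Hom

theorem homZv : Ops.Hom zz (ringOps ℤ) zv := by
  refine ⟨fun n => ?_, fun a b => ?_, fun a b => ?_, fun a => ?_⟩ <;>
    simp only [zz, ringOps, zv] <;> push_cast <;> ring

theorem zeq_iff (a b : ℕ × ℕ) : zeq a b ↔ zv a = zv b := by
  unfold zeq zv
  omega

theorem zeq_zero_iff (a : ℕ × ℕ) : zeq a (0, 0) ↔ zv a = 0 := by
  rw [zeq_iff]
  simp [zv]

theorem zv_surj (z : ℤ) : ∃ a, zv a = z := by
  refine ⟨(z.toNat, (-z).toNat), ?_⟩
  unfold zv
  omega

theorem vecS_length {α : Type} (o : Ops α) (P d n1 : ℕ) (T : List (List (Option (List Tok))))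
    (a : ℕ) (V : List α) (bl : List (List α)) :
    (o.vecS P d n1 T a V bl).length = T.length * fs P d := by
  rw [Ops.vecS, List.length_map, List.length_range]

theorem vecT_length {α : Type} (o : Ops α) (P d n1 : ℕ) (T : List (List (Option (List Tok))))
    (V : List α) (t : Tree) : (o.vecT P d n1 T V t).length = T.length * fs P d := by
  cases t
  rw [Ops.vecT, vecS_length]

theorem ranked_rk {s : Sys} {a r : ℕ} {c : Fin r → Tree} (h : Ranked s.A (.node a r c)) :
    a < s.A.length ∧ s.rk a = r ∧ ∀ i, Ranked s.A (c i) := by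
  obtain ⟨h1, h2⟩ := h
  obtain ⟨h3, h4⟩ := List.getElem?_eq_some_iff.1 h1
  refine ⟨h3, ?_, h2⟩
  rw [Sys.rk, List.getD_eq_getElem?_getD, h1]
  rfl

/-- A list of integers is the image of the generic list. -/
theorem gen_map (n : ℕ) (V : List ℤ) (hV : V.length = n) :
    (List.ofFn fun i : Fin n => (MvPolynomial.X i : MvPolynomial (Fin n) ℤ)).map
      (MvPolynomial.eval fun i : Fin n => V.getD i 0) = V := by
  rw [List.map_ofFn]
  apply List.ext_getElem
  · simp [hV]
  · intro i h1 h2
    rw [List.getElem_ofFn]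
    simp [h2]

end Pool.Agent.Lib.MP_39893a_lc
end

section
/-!
# Existence of certificates (MP_39893a_lc)
-/
set_option autoImplicit false

namespace Pool.Agent.Lib.MP_39893a_lc

open MvPolynomial

namespace CompleteM

/-- Evaluation of a polynomial with polynomial coefficients. -/
noncomputable def theta {ι : Type} {n : ℕ} (V : List ℤ) (y : ι → ℤ) :
    MvPolynomial ι (MvPolynomial (Fin n) ℤ) →+* ℤ :=
  (eval y).comp (MvPolynomial.map (eval fun i : Fin n => V.getD i 0))

theorem theta_apply {ι : Type} {n : ℕ} (V : List ℤ) (y : ι → ℤ)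
    (p : MvPolynomial ι (MvPolynomial (Fin n) ℤ)) : theta V y p
      = eval y (MvPolynomial.map (eval fun i : Fin n => V.getD i 0) p) := rfl

theorem theta_C {ι : Type} {n : ℕ} (V : List ℤ) (y : ι → ℤ) (a : MvPolynomial (Fin n) ℤ) :
    theta V y (C a) = eval (fun i : Fin n => V.getD i 0) a := by
  rw [theta_apply, map_C, eval_C]

theorem theta_X {ι : Type} {n : ℕ} (V : List ℤ) (y : ι → ℤ) (i : ι) :
    theta (n := n) V y (X i) = y i := by
  rw [theta_apply, map_X, eval_X]

theorem theta_aeval {ι κ : Type} {n : ℕ} (V : List ℤ) (y : κ → ℤ)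
    (F : ι → MvPolynomial κ (MvPolynomial (Fin n) ℤ))
    (p : MvPolynomial ι (MvPolynomial (Fin n) ℤ)) :
    theta V y (aeval F p) = theta V (fun i => theta V y (F i)) p := by
  induction p using MvPolynomial.induction_on with
  | C a => rw [aeval_C, algebraMap_eq, theta_C, theta_C]
  | add p q hp hq => rw [map_add, map_add, map_add, hp, hq]
  | mul_X p i hp => rw [map_mul, map_mul, map_mul, hp, aeval_X, theta_X]

theorem theta_rename {ι κ : Type} {n : ℕ} (V : List ℤ) (y : κ → ℤ) (f : ι → κ)
    (p : MvPolynomial ι (MvPolynomial (Fin n) ℤ)) :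
    theta V y (rename f p) = theta V (fun i => y (f i)) p := by
  induction p using MvPolynomial.induction_on with
  | C a => rw [rename_C, theta_C, theta_C]
  | add p q hp hq => rw [map_add, map_add, map_add, hp, hq]
  | mul_X p i hp => rw [map_mul, map_mul, map_mul, hp, rename_X, theta_X, theta_X]

theorem sum_ring (g : ℕ → ℤ) (n : ℕ) :
    (ringOps ℤ).sum g n = ∑ i ∈ Finset.range n, g i := by
  induction n with
  | zero => simp [Ops.sum, ringOps]
  | succ n ih => rw [Ops.sum, ih, Finset.sum_range_succ]; rfl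

theorem ofFn_getD_eq {α : Type} (n : ℕ) (L : List α) (z : α) (h : L.length = n) :
    (List.ofFn fun i : Fin n => L.getD i z) = L := by
  apply List.ext_getElem
  · simp [h]
  · intro i h1 h2
    rw [List.getElem_ofFn]
    simp [h2]

theorem getD_ofFn {α : Type} {n : ℕ} (f : Fin n → α) (i : Fin n) (z : α) :
    (List.ofFn f).getD i z = f i := by
  rw [List.getD_eq_getElem?_getD, List.getElem?_ofFn, dif_pos i.2]
  rfl

/-- The generic coefficients, as constant polynomials. -/
noncomputable def Vx (ι : Type) (n : ℕ) : List (MvPolynomial ι (MvPolynomial (Fin n) ℤ)) :=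
  List.ofFn fun i : Fin n => C (X i)

/-- The generic blocks. -/
noncomputable def blx (r N n : ℕ) :
    List (List (MvPolynomial (Fin r × Fin N) (MvPolynomial (Fin n) ℤ))) :=
  List.ofFn fun j : Fin r => List.ofFn fun m : Fin N => X (j, m)

theorem Vx_theta (ι : Type) (n : ℕ) (V : List ℤ) (y : ι → ℤ) (hV : V.length = n) :
    (Vx ι n).map (theta V y) = V := by
  rw [Vx, List.map_ofFn]
  conv_rhs => rw [← ofFn_getD_eq n V 0 hV]
  congr 1
  funext i
  rw [Function.comp_apply, theta_C, eval_X]

theorem blx_theta (r N n : ℕ) (V : List ℤ) (bl : List (List ℤ)) (hbl : bl.length = r)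
    (hF : ∀ F ∈ bl, F.length = N) :
    (blx r N n).map (List.map (theta V fun q => (bl.getD q.1 []).getD q.2 0)) = bl := by
  rw [blx, List.map_ofFn]
  conv_rhs => rw [← ofFn_getD_eq r bl [] hbl]
  congr 1
  funext j
  rw [Function.comp_apply, List.map_ofFn]
  have hj : (bl.getD j []).length = N := by
    apply hF
    rw [List.getD_eq_getElem?_getD, List.getElem?_eq_getElem (by omega)]
    exact List.getElem_mem _
  conv_rhs => rw [← ofFn_getD_eq N (bl.getD j []) 0 hj]
  congr 1
  funext m
  rw [Function.comp_apply, theta_X]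

/-- Evaluation at a point of `R^N`. -/
theorem Vx_eval (ι : Type) (n : ℕ) (y : ι → MvPolynomial (Fin n) ℤ) :
    (Vx ι n).map (eval y) = List.ofFn fun i : Fin n => X i := by
  rw [Vx, List.map_ofFn]
  congr 1
  funext i
  rw [Function.comp_apply, eval_C]

theorem blx_eval (r N n : ℕ) (y : Fin r → Fin N → MvPolynomial (Fin n) ℤ) :
    (blx r N n).map (List.map (eval fun q : Fin r × Fin N => y q.1 q.2))
      = List.ofFn fun j => List.ofFn fun m => y j m := by
  rw [blx, List.map_ofFn]
  congr 1
  funext j
  rw [Function.comp_apply, List.map_ofFn]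
  congr 1
  funext m
  rw [Function.comp_apply, eval_X]

/-- The transition polynomials. -/
noncomputable def Fp (s : Sys) (a : ℕ) (m : Fin s.N) :
    MvPolynomial (Fin (s.rk a) × Fin s.N) (MvPolynomial (Fin s.nV) ℤ) :=
  ((ringOps _).vecS s.P s.d s.n1 s.T a (Vx _ s.nV) (blx (s.rk a) s.N s.nV)).getD m 0

/-- The target polynomials. -/
noncomputable def Gp (s : Sys) (e : ℕ) : MvPolynomial (Fin s.N) (MvPolynomial (Fin s.nV) ℤ) :=
  (ringOps _).target s.P s.d s.n1 (List.ofFn fun m : Fin s.N => X m) e

/-- The set of the generic coefficient vectors. -/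
def Sp (s : Sys) : Set (Fin s.N → MvPolynomial (Fin s.nV) ℤ) :=
  {y | ∃ t, Ranked s.A t ∧ y = fun m : Fin s.N => ((ringOps (MvPolynomial (Fin s.nV) ℤ)).vecT s.P s.d
    s.n1 s.T (List.ofFn fun i => X i) t).getD m 0}

theorem getD0_ring {S T : Type} [CommRing S] [CommRing T] (f : S →+* T) (l : List S) (n : ℕ) :
    f (l.getD n 0) = (l.map f).getD n 0 := by
  rw [map_getD f, map_zero]

theorem Sp_closed (s : Sys) (a : ℕ) (ha : a < s.A.length)
    (x : Fin (s.rk a) → Fin s.N → MvPolynomial (Fin s.nV) ℤ) (hx : ∀ j, x j ∈ Sp s) :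
    (fun m => eval (fun q : Fin (s.rk a) × Fin s.N => x q.1 q.2) (Fp s a m)) ∈ Sp s := by
  choose c hc1 hc2 using hx
  refine ⟨.node a (s.rk a) c, ⟨?_, hc1⟩, ?_⟩
  · show s.A[a]? = some (s.A.getD a 0)
    rw [List.getD_eq_getElem?_getD, List.getElem?_eq_getElem ha]
    rfl
  · funext m
    rw [Fp, getD0_ring, (homRing (eval fun q : Fin (s.rk a) × Fin s.N => x q.1 q.2)).vecS,
      Vx_eval, blx_eval, Ops.vecT]
    congr 3
    funext j
    rw [hc2 j]
    exact ofFn_getD_eq s.N _ 0 (vecT_length _ _ _ _ _ _ _)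

theorem Gp_vanish (s : Sys) (h : Raw s) (e : ℕ) (he : e < s.d + 1)
    (y : Fin s.N → MvPolynomial (Fin s.nV) ℤ) (hy : y ∈ Sp s) : eval y (Gp s e) = 0 := by
  obtain ⟨t, ht, hy⟩ := hy
  rw [Gp, (homRing (eval y)).target, List.map_ofFn]
  have e1 : (List.ofFn (eval y ∘ fun m : Fin s.N => X m))
      = (ringOps (MvPolynomial (Fin s.nV) ℤ)).vecT s.P s.d s.n1 s.T
        (List.ofFn fun i => X i) t := by
    conv_rhs => rw [← ofFn_getD_eq s.N _ 0 (vecT_length (ringOps (MvPolynomial (Fin s.nV) ℤ))
      s.P s.d s.n1 s.T (List.ofFn fun i => X i) t)]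
    congr 1
    funext m
    rw [Function.comp_apply, eval_X, hy]
  rw [e1]
  apply MvPolynomial.funext
  intro x
  have hx : (fun i : Fin s.nV => (List.ofFn x).getD i 0) = x := by
    funext i
    exact getD_ofFn x i 0
  rw [map_zero, (homRing (eval x)).target, (homRing (eval x)).vecT]
  have e2 : (List.ofFn fun i : Fin s.nV => (X i : MvPolynomial (Fin s.nV) ℤ)).map (eval x)
      = List.ofFn x := by
    have := gen_map s.nV (List.ofFn x) List.length_ofFn
    rwa [hx] at this
  rw [e2]
  exact h t ht (List.ofFn x) List.length_ofFn e he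

end CompleteM

open CompleteM

theorem specComplete (hAlg : SpecAlg) (hTok : SpecTok) : SpecComplete := by
  intro s h
  obtain ⟨n, p, D, c, c', hD, h1, h2⟩ := hAlg (MvPolynomial (Fin s.nV) ℤ) s.N
    (Fin s.A.length) (fun a => s.rk a) (fun a => Fp s a) (Fin (s.d + 1)) (fun e => Gp s e)
    (Sp s) (fun a x hx => Sp_closed s a a.2 x hx) (fun e y hy => Gp_vanish s h e e.2 y hy)
  -- expressions
  choose tp htp using fun l : Fin n => hTok (Fin s.N) (fun m => (1, m)) s.nV (p l)
  obtain ⟨tD, htD⟩ := hTok Empty (fun m => (0, 0)) s.nV (C D)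
  choose tc htc using fun (a : Fin s.A.length) (i : Fin n) (j : Fin (s.rk a)) (l : Fin n) =>
    hTok (Fin (s.rk a) × Fin s.N) (fun q => (q.1 + 1, q.2)) s.nV (c a i j l)
  choose te hte using fun (e : Fin (s.d + 1)) (l : Fin n) =>
    hTok (Fin s.N) (fun m => (1, m)) s.nV (c' e l)
  -- a point where `D` does not vanish
  have hpt : ∃ x : Fin s.nV → ℤ, eval x D ≠ 0 := by
    by_contra hcon
    push Not at hcon
    exact hD (MvPolynomial.funext fun x => by rw [hcon x, map_zero])
  obtain ⟨x0, hx0⟩ := hpt
  choose g hg using zv_surj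
  -- the lists of cofactors
  let fc : ℕ → ℕ → ℕ → ℕ → List PTok := fun a i j l =>
    if ha : a < s.A.length then if hi : i < n then if hj : j < s.rk a then
      if hl : l < n then tc ⟨a, ha⟩ ⟨i, hi⟩ ⟨j, hj⟩ ⟨l, hl⟩ else [] else [] else [] else []
  let fe : ℕ → ℕ → List PTok := fun e l =>
    if he : e < s.d + 1 then if hl : l < n then te ⟨e, he⟩ ⟨l, hl⟩ else [] else []
  let M1 : ℕ := ((Finset.range s.A.length).sup fun a => (Finset.range n).sup fun i =>
    (Finset.range (s.rk a)).sup fun j => (Finset.range n).sup fun l =>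
      Nat.pair a (Nat.pair i (Nat.pair j l))) + 1
  let M2 : ℕ := ((Finset.range (s.d + 1)).sup fun e => (Finset.range n).sup fun l =>
      Nat.pair e l) + 1
  let csl : List (List PTok) := (List.range M1).map fun t =>
    fc t.unpair.1 t.unpair.2.unpair.1 t.unpair.2.unpair.2.unpair.1 t.unpair.2.unpair.2.unpair.2
  let esl : List (List PTok) := (List.range M2).map fun t => fe t.unpair.1 t.unpair.2
  let cert : Cert := (List.ofFn fun i => g (x0 i), tD, List.ofFn tp, csl, esl)
  have hcs : ∀ (a : Fin s.A.length) (i : Fin n) (j : Fin (s.rk a)) (l : Fin n),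
      cert.cs a i j l = tc a i j l := by
    intro a i j l
    have hlt : Nat.pair a (Nat.pair i (Nat.pair j l)) < M1 := by
      have e1 := Finset.le_sup (f := fun l : ℕ => Nat.pair a (Nat.pair i (Nat.pair j l)))
        (Finset.mem_range.2 l.2)
      have e2 := Finset.le_sup (f := fun j : ℕ => (Finset.range n).sup fun l =>
        Nat.pair a (Nat.pair i (Nat.pair j l))) (Finset.mem_range.2 j.2)
      have e3 := Finset.le_sup (f := fun i : ℕ => (Finset.range (s.rk a)).sup fun j =>
        (Finset.range n).sup fun l => Nat.pair a (Nat.pair i (Nat.pair j l)))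
        (Finset.mem_range.2 i.2)
      have e4 := Finset.le_sup (f := fun a : ℕ => (Finset.range n).sup fun i =>
        (Finset.range (s.rk a)).sup fun j => (Finset.range n).sup fun l =>
        Nat.pair a (Nat.pair i (Nat.pair j l))) (Finset.mem_range.2 a.2)
      exact Nat.lt_succ_of_le (e1.trans (e2.trans (e3.trans e4)))
    show ((List.range M1).map fun t => fc t.unpair.1 t.unpair.2.unpair.1
      t.unpair.2.unpair.2.unpair.1 t.unpair.2.unpair.2.unpair.2).getD
        (Nat.pair a (Nat.pair i (Nat.pair j l))) [] = _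
    rw [List.getD_eq_getElem?_getD, List.getElem?_map, List.getElem?_range hlt,
      Option.map_some, Option.getD_some]
    simp only [Nat.unpair_pair, fc, Fin.is_lt, dif_pos, Fin.eta]
  have hes : ∀ (e : Fin (s.d + 1)) (l : Fin n), cert.es e l = te e l := by
    intro e l
    have hlt : Nat.pair e l < M2 := by
      have e1 := Finset.le_sup (f := fun l : ℕ => Nat.pair e l) (Finset.mem_range.2 l.2)
      have e2 := Finset.le_sup (f := fun e : ℕ => (Finset.range n).sup fun l =>
        Nat.pair e l) (Finset.mem_range.2 e.2)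
      exact Nat.lt_succ_of_le (e1.trans e2)
    show ((List.range M2).map fun t => fe t.unpair.1 t.unpair.2).getD (Nat.pair e l) [] = _
    rw [List.getD_eq_getElem?_getD, List.getElem?_map, List.getElem?_range hlt,
      Option.map_some, Option.getD_some]
    simp only [Nat.unpair_pair, fe, Fin.is_lt, dif_pos, Fin.eta]
  have hps : cert.ps.length = n := by
    show (List.ofFn tp).length = n
    exact List.length_ofFn
  have hp : ∀ l : Fin n, cert.p l = tp l := fun l => getD_ofFn tp l []
  have hDv : ∀ V : List ℤ, ∀ rest, (ringOps ℤ).evalP (V :: rest) cert.D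
      = eval (fun i : Fin s.nV => V.getD i 0) D := by
    intro V rest
    show (ringOps ℤ).evalP (V :: rest) tD = _
    rw [htD, map_C, eval_C]
    rfl
  refine ⟨cert, ?_, ?_, ?_, ?_⟩
  · show (List.ofFn fun i => g (x0 i)).length = _
    exact List.length_ofFn
  · rw [zeq_zero_iff, homZv.evalP]
    simp only [List.map_cons, List.map_nil]
    rw [hDv]
    have : (fun i : Fin s.nV => (cert.vst.map zv).getD i 0) = x0 := by
      funext i
      show ((List.ofFn fun i => g (x0 i)).map zv).getD i 0 = _
      rw [List.map_ofFn, getD_ofFn]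
      exact hg _
    rw [this]
    exact hx0
  · intro a ha i hi z _
    rw [hps] at hi
    unfold test1
    rw [zeq_iff, homZv.lhs1, homZv.rhs1]
    generalize hVd : (gridV (bnd s cert) z s.nV).map zv = V
    generalize hbd : (gridBl (bnd s cert) z s.nV s.N (s.rk a)).map (List.map zv) = bl
    have hV : V.length = s.nV := by
      rw [← hVd, List.length_map, gridV, List.length_map, List.length_range]
    have hbl : bl.length = s.rk a := by
      rw [← hbd, List.length_map, gridBl, List.length_map, List.length_range]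
    have hF : ∀ F ∈ bl, F.length = s.N := by
      intro F hF
      rw [← hbd, gridBl, List.map_map] at hF
      obtain ⟨i, _, rfl⟩ := List.mem_map.1 hF
      rw [Function.comp_apply, List.length_map, gridB, List.length_map, List.length_range]
    have key := congrArg (theta V fun q => (bl.getD q.1 []).getD q.2 0) (h1 ⟨a, ha⟩ ⟨i, hi⟩)
    rw [map_mul, theta_C, theta_aeval, map_sum] at key
    have hvec : ∀ m : Fin s.N, theta V (fun q => (bl.getD q.1 []).getD q.2 0) (Fp s a m)
        = ((ringOps ℤ).vecS s.P s.d s.n1 s.T a V bl).getD m 0 := by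
      intro m
      rw [Fp, getD0_ring, (homRing (theta V fun q : Fin (s.rk a) × Fin s.N =>
        (bl.getD q.1 []).getD q.2 0)).vecS, Vx_theta _ _ _ _ hV, blx_theta _ _ _ _ _ hbl hF]
    have hpe : ∀ (l : Fin n) (y : List ℤ), (ringOps ℤ).evalP [V, y] (tp l)
        = theta V (fun m : Fin s.N => y.getD m 0) (p l) := by
      intro l y
      rw [htp]
      rfl
    rw [Ops.lhs1, Ops.rhs1, hDv, sum_ring, hps]
    have hpi : cert.p i = tp ⟨i, hi⟩ := hp ⟨i, hi⟩
    rw [hpi, hpe]
    have e1 : theta V (fun m : Fin s.N => ((ringOps ℤ).vecS s.P s.d s.n1 s.T a V bl).getD m 0)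
        (p ⟨i, hi⟩) = theta V (fun m => theta V (fun q => (bl.getD q.1 []).getD q.2 0)
          (Fp s a m)) (p ⟨i, hi⟩) := by
      congr 1
      congr 1
      funext m
      exact (hvec m).symm
    rw [e1]
    refine Eq.trans key ?_
    rw [Finset.sum_range]
    refine Finset.sum_congr rfl fun j _ => ?_
    rw [map_sum, sum_ring, Finset.sum_range]
    refine Finset.sum_congr rfl fun l _ => ?_
    rw [map_mul, theta_rename]
    have e2 : (ringOps ℤ).evalP (V :: bl) (cert.cs a i j l)
        = theta V (fun q => (bl.getD q.1 []).getD q.2 0) (c ⟨a, ha⟩ ⟨i, hi⟩ j l) := by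
      have : cert.cs a i j l = tc ⟨a, ha⟩ ⟨i, hi⟩ j l := hcs ⟨a, ha⟩ ⟨i, hi⟩ j l
      rw [this, htc]
      rfl
    have e3 : (ringOps ℤ).evalP [V, bl.getD j []] (cert.p l)
        = theta V (fun m : Fin s.N => (bl.getD j []).getD m 0) (p l) := by
      rw [hp l, hpe]
    rw [e2, e3]
    rfl
  · intro e he z _
    unfold test2
    rw [zeq_iff, homZv.lhs2, homZv.rhs2]
    generalize hVd : (gridV (bnd s cert) z s.nV).map zv = V
    generalize hxd : (gridB (bnd s cert) z s.nV s.N 0).map zv = x
    have hV : V.length = s.nV := by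
      rw [← hVd, List.length_map, gridV, List.length_map, List.length_range]
    have hx : x.length = s.N := by
      rw [← hxd, List.length_map, gridB, List.length_map, List.length_range]
    have key := congrArg (theta V fun m : Fin s.N => x.getD m 0) (h2 ⟨e, he⟩)
    rw [map_mul, theta_C, map_sum] at key
    rw [Ops.lhs2, Ops.rhs2, hDv, sum_ring, hps]
    have e1 : theta V (fun m : Fin s.N => x.getD m 0) (Gp s e)
        = (ringOps ℤ).target s.P s.d s.n1 x e := by
      rw [Gp, (homRing (theta V fun m : Fin s.N => x.getD m 0)).target, List.map_ofFn]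
      congr 1
      conv_rhs => rw [← ofFn_getD_eq s.N x 0 hx]
      congr 1
      funext m
      rw [Function.comp_apply, theta_X]
    rw [← e1]
    refine Eq.trans key ?_
    rw [Finset.sum_range]
    refine Finset.sum_congr rfl fun l _ => ?_
    rw [map_mul]
    have e2 : (ringOps ℤ).evalP [V, x] (cert.es e l)
        = theta V (fun m : Fin s.N => x.getD m 0) (c' ⟨e, he⟩ l) := by
      have : cert.es e l = te ⟨e, he⟩ l := hes ⟨e, he⟩ l
      rw [this, hte]
      rfl
    have e3 : (ringOps ℤ).evalP [V, x] (cert.p l)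
        = theta V (fun m : Fin s.N => x.getD m 0) (p l) := by
      rw [hp l, htp]
      rfl
    rw [e2, e3]
    rfl

end Pool.Agent.Lib.MP_39893a_lc
end

section
/-!
# Degrees (MP_39893a_lc, module DEG)
-/
set_option autoImplicit false

namespace Pool.Agent.Lib.MP_39893a_lc

open MvPolynomial

namespace DEGM

variable {σ : Type}

/-- Maximal degree of the entries of a list. -/
noncomputable def md (F : List (MvPolynomial σ ℤ)) : ℕ := (F.map totalDegree).foldr max 0

theorem md_nil : md ([] : List (MvPolynomial σ ℤ)) = 0 := rfl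

theorem md_cons (p : MvPolynomial σ ℤ) (F : List (MvPolynomial σ ℤ)) :
    md (p :: F) = max p.totalDegree (md F) := rfl

theorem le_md {F : List (MvPolynomial σ ℤ)} {p : MvPolynomial σ ℤ} (h : p ∈ F) :
    p.totalDegree ≤ md F := by
  induction F with
  | nil => simp at h
  | cons q F ih =>
    rw [md_cons]
    rcases List.mem_cons.1 h with h | h
    · subst h; exact le_max_left _ _
    · exact (ih h).trans (le_max_right _ _)

theorem md_le {F : List (MvPolynomial σ ℤ)} {n : ℕ} (h : ∀ p ∈ F, p.totalDegree ≤ n) :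
    md F ≤ n := by
  induction F with
  | nil => exact Nat.zero_le _
  | cons q F ih =>
    rw [md_cons]
    exact max_le (h q (List.mem_cons_self ..)) (ih fun p hp => h p (List.mem_cons_of_mem _ hp))

theorem md_drop (F : List (MvPolynomial σ ℤ)) (n : ℕ) : md (F.drop n) ≤ md F :=
  md_le fun _ hp => le_md (List.mem_of_mem_drop hp)

theorem deg_nat (n : ℕ) :
    ((ringOps (MvPolynomial σ ℤ)).nat n).totalDegree = 0 := by
  show (((n : ℕ) : MvPolynomial σ ℤ)).totalDegree = 0
  rw [← C_eq_coe_nat (R := ℤ) n]
  exact totalDegree_C _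

theorem deg_add (a b : MvPolynomial σ ℤ) {n : ℕ} (ha : a.totalDegree ≤ n)
    (hb : b.totalDegree ≤ n) : ((ringOps (MvPolynomial σ ℤ)).add a b).totalDegree ≤ n :=
  (totalDegree_add a b).trans (max_le ha hb)

theorem deg_mul (a b : MvPolynomial σ ℤ) {n m : ℕ} (ha : a.totalDegree ≤ n)
    (hb : b.totalDegree ≤ m) : ((ringOps (MvPolynomial σ ℤ)).mul a b).totalDegree ≤ n + m :=
  (totalDegree_mul a b).trans (add_le_add ha hb)

theorem deg_neg (a : MvPolynomial σ ℤ) :
    ((ringOps (MvPolynomial σ ℤ)).neg a).totalDegree = a.totalDegree :=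
  totalDegree_neg a

theorem deg_co (a : MvPolynomial σ ℤ) {n : ℕ} (ha : a.totalDegree ≤ n) :
    ((ringOps (MvPolynomial σ ℤ)).co a).totalDegree ≤ n := by
  refine deg_add _ _ ?_ ?_
  · rw [deg_nat]; exact Nat.zero_le _
  · rw [deg_neg]; exact ha

theorem deg_getD (F : List (MvPolynomial σ ℤ)) (i : ℕ) :
    (F.getD i ((ringOps (MvPolynomial σ ℤ)).nat 0)).totalDegree ≤ md F := by
  rcases lt_or_ge i F.length with h | h
  · rw [List.getD_eq_getElem _ _ h]
    exact le_md (List.getElem_mem h)
  · rw [List.getD_eq_default _ _ h, deg_nat]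
    exact Nat.zero_le _

theorem deg_gF (d : ℕ) (F : List (MvPolynomial σ ℤ)) (j x y : ℕ) :
    ((ringOps (MvPolynomial σ ℤ)).gF d F j x y).totalDegree ≤ md F :=
  deg_getD F _

theorem deg_sum (f : ℕ → MvPolynomial σ ℤ) (n b : ℕ) (h : ∀ i < n, (f i).totalDegree ≤ b) :
    ((ringOps (MvPolynomial σ ℤ)).sum f n).totalDegree ≤ b := by
  induction n with
  | zero => rw [Ops.sum, deg_nat]; exact Nat.zero_le _
  | succ n ih =>
    rw [Ops.sum]
    exact deg_add _ _ (ih fun i hi => h i (by omega)) (h n (by omega))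

theorem deg_prod (f : ℕ → MvPolynomial σ ℤ) (n : ℕ) (b : ℕ → ℕ)
    (h : ∀ i < n, (f i).totalDegree ≤ b i) :
    ((ringOps (MvPolynomial σ ℤ)).prod f n).totalDegree ≤ ∑ i ∈ Finset.range n, b i := by
  induction n with
  | zero => rw [Ops.prod, deg_nat]; exact Nat.zero_le _
  | succ n ih =>
    rw [Ops.prod, Finset.sum_range_succ]
    exact deg_mul _ _ (ih fun i hi => h i (by omega)) (h n (by omega))

/-- Sum of the degrees over a stack of forms. -/
noncomputable def sd (st : List (List (MvPolynomial σ ℤ))) : ℕ := (st.map md).sum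

theorem sum_getD_le (st : List (List (MvPolynomial σ ℤ))) (P : ℕ) :
    ∑ i ∈ Finset.range P, md (st.getD i []) ≤ sd st := by
  induction st generalizing P with
  | nil => simp [sd, md_nil]
  | cons F st ih =>
    cases P with
    | zero => simp
    | succ P =>
      rw [Finset.sum_range_succ']
      have := ih P
      simp only [List.getD_cons_succ, List.getD_cons_zero, sd, List.map_cons, List.sum_cons]
        at this ⊢
      omega

theorem getD_le_sd (st : List (List (MvPolynomial σ ℤ))) (i : ℕ) :
    md (st.getD i []) ≤ sd st := by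
  have h := sum_getD_le st (i + 1)
  rw [Finset.sum_range_succ] at h
  omega

theorem deg_appE (P d : ℕ) (S : List (MvPolynomial σ ℤ)) (Fs : List (List (MvPolynomial σ ℤ)))
    (j x y : ℕ) (hS : md S ≤ 1) :
    ((ringOps (MvPolynomial σ ℤ)).appE P d S Fs j x y).totalDegree ≤ P + 1 + sd Fs := by
  have hg : ∀ j x y, ((ringOps (MvPolynomial σ ℤ)).gF d S j x y).totalDegree ≤ 1 :=
    fun j x y => (deg_gF d S j x y).trans hS
  have hP := sum_getD_le Fs P
  have hsum : ∑ i ∈ Finset.range P, (1 + md (Fs.getD i [])) ≤ P + sd Fs := by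
    rw [Finset.sum_add_distrib, Finset.sum_const, Finset.card_range, smul_eq_mul, mul_one]
    omega
  unfold Ops.appE
  split
  · split
    · refine (deg_mul _ _ (hg 0 d 0) (deg_prod _ _ (fun i => 1 + md (Fs.getD i []))
        fun i _ => ?_)).trans ?_
      · exact deg_co _ (deg_mul _ _ (hg _ _ _) (deg_co _ (deg_gF _ _ _ _ _)))
      · omega
    · refine (deg_co _ (deg_prod _ _ (fun i => 1 + md (Fs.getD i [])) fun i _ => ?_)).trans ?_
      · exact deg_co _ (deg_mul _ _ (hg _ _ _) (deg_gF _ _ _ _ _))
      · omega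
  · refine deg_add _ _ ?_ ?_
    · split
      · exact (hg _ _ _).trans (by omega)
      · rw [deg_nat]; exact Nat.zero_le _
    · refine deg_sum _ _ _ fun i _ => deg_sum _ _ _ fun b _ => ?_
      refine (deg_mul _ _ (hg _ _ _) (deg_gF _ _ _ _ _)).trans ?_
      have := getD_le_sd Fs i
      omega

theorem md_mkF (P d : ℕ) (f : ℕ → ℕ → ℕ → MvPolynomial σ ℤ) (n : ℕ)
    (h : ∀ j x y, (f j x y).totalDegree ≤ n) : md (mkF P d f) ≤ n := by
  refine md_le fun p hp => ?_
  rw [mkF, List.mem_map] at hp
  obtain ⟨t, _, rfl⟩ := hp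
  exact h _ _ _

theorem deg_parE (d p j x y : ℕ) :
    ((ringOps (MvPolynomial σ ℤ)).parE d p j x y).totalDegree ≤ 0 := by
  unfold Ops.parE
  split <;> split <;> rw [deg_nat]

theorem deg_symE (P d : ℕ) (V : List (MvPolynomial σ ℤ)) (hV : md V ≤ 1) (b r j x y : ℕ) :
    ((ringOps (MvPolynomial σ ℤ)).symE P d V b r j x y).totalDegree ≤ 1 := by
  unfold Ops.symE
  split
  · split
    · rw [deg_nat]; exact Nat.zero_le _
    · exact (deg_getD _ _).trans hV
  · rw [deg_nat]; exact Nat.zero_le _

theorem sd_take_drop (st : List (List (MvPolynomial σ ℤ))) (n : ℕ) :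
    sd (st.take n).reverse + sd (st.drop n) = sd st := by
  unfold sd
  rw [List.map_reverse, List.sum_reverse, ← List.sum_append, ← List.map_append,
    List.take_append_drop]

theorem sd_cons (F : List (MvPolynomial σ ℤ)) (st : List (List (MvPolynomial σ ℤ))) :
    sd (F :: st) = md F + sd st := by
  simp [sd]

theorem sd_step (P d off : ℕ) (V : List (MvPolynomial σ ℤ)) (bl : List (List (MvPolynomial σ ℤ)))
    (hV : md V ≤ 1) (hbl : ∀ i, md (bl.getD i []) ≤ 1) (st : List (List (MvPolynomial σ ℤ)))
    (tk : Tok) : sd ((ringOps (MvPolynomial σ ℤ)).step P d off V bl st tk) ≤ sd st + (P + 1) := by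
  unfold Ops.step
  split
  · rw [sd_cons]
    have := md_mkF P d ((ringOps (MvPolynomial σ ℤ)).parE d tk.2.1) 0
      (fun j x y => deg_parE d tk.2.1 j x y)
    omega
  · split
    · rw [sd_cons]
      have h1 := md_mkF P d _ _ fun j x y => deg_appE P d
        (mkF P d ((ringOps (MvPolynomial σ ℤ)).symE P d V tk.2.1 tk.2.2.1))
        (st.take tk.2.2.1).reverse j x y
        (md_mkF P d _ 1 fun j x y => deg_symE P d V hV _ _ j x y)
      have h2 := sd_take_drop st tk.2.2.1
      omega
    · rw [sd_cons]
      have h1 := md_mkF P d _ _ fun j x y => deg_appE P d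
        ((bl.getD tk.2.2.1 []).drop ((off + tk.2.1) * fs P d))
        (st.take tk.2.2.2).reverse j x y
        ((md_drop _ _).trans (hbl _))
      have h2 := sd_take_drop st tk.2.2.2
      omega

theorem sd_foldl (P d off : ℕ) (V : List (MvPolynomial σ ℤ)) (bl : List (List (MvPolynomial σ ℤ)))
    (hV : md V ≤ 1) (hbl : ∀ i, md (bl.getD i []) ≤ 1) (l : List Tok) :
    ∀ st : List (List (MvPolynomial σ ℤ)),
      sd (l.foldl ((ringOps (MvPolynomial σ ℤ)).step P d off V bl) st)
        ≤ sd st + (P + 1) * l.length := by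
  induction l with
  | nil => intro st; simp
  | cons t l ih =>
    intro st
    rw [List.foldl_cons, List.length_cons]
    have h1 := ih ((ringOps (MvPolynomial σ ℤ)).step P d off V bl st t)
    have h2 := sd_step P d off V bl hV hbl st t
    rw [Nat.mul_succ]
    omega

theorem md_rhsV (P d off : ℕ) (V : List (MvPolynomial σ ℤ)) (bl : List (List (MvPolynomial σ ℤ)))
    (hV : md V ≤ 1) (hbl : ∀ i, md (bl.getD i []) ≤ 1) (rhs : Option (List Tok)) :
    md ((ringOps (MvPolynomial σ ℤ)).rhsV P d off V bl rhs)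
      ≤ (P + 1) * (rhs.getD []).length := by
  unfold Ops.rhsV
  have h := sd_foldl P d off V bl hV hbl (rhs.getD []) []
  have h0 : sd ([] : List (List (MvPolynomial σ ℤ))) = 0 := rfl
  rw [h0, Nat.zero_add] at h
  cases hst : List.foldl ((ringOps (MvPolynomial σ ℤ)).step P d off V bl) [] (rhs.getD []) with
  | nil => simp [md_nil]
  | cons F st =>
    rw [hst, sd_cons] at h
    simp only [List.headD_cons]
    omega

theorem foldr_row_le (row : List (Option (List Tok))) (a : ℕ) :
    ((row.getD a none).getD []).length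
      ≤ row.foldr (fun x m => (x.getD []).length + m) 0 := by
  induction row generalizing a with
  | nil => simp
  | cons x row ih =>
    cases a with
    | zero => simp
    | succ a =>
      have := ih a
      simp only [List.getD_cons_succ, List.foldr_cons] at this ⊢
      omega

theorem tlenT_le (T : List (List (Option (List Tok)))) (q a : ℕ) :
    (((T.getD q []).getD a none).getD []).length ≤ tlenT T := by
  induction T generalizing q with
  | nil => simp
  | cons row T ih =>
    have hc : tlenT (row :: T)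
        = row.foldr (fun x m => (x.getD []).length + m) 0 + tlenT T := rfl
    rw [hc]
    cases q with
    | zero =>
      have := foldr_row_le row a
      simp only [List.getD_cons_zero] at this ⊢
      omega
    | succ q =>
      have := ih q
      simp only [List.getD_cons_succ] at this ⊢
      omega

theorem md_vecS (P d n1 : ℕ) (T : List (List (Option (List Tok)))) (a : ℕ)
    (V : List (MvPolynomial σ ℤ)) (bl : List (List (MvPolynomial σ ℤ)))
    (hV : md V ≤ 1) (hbl : ∀ i, md (bl.getD i []) ≤ 1) :
    md ((ringOps (MvPolynomial σ ℤ)).vecS P d n1 T a V bl) ≤ (P + 1) * tlenT T := by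
  refine md_le fun p hp => ?_
  rw [Ops.vecS, List.mem_map] at hp
  obtain ⟨t, _, rfl⟩ := hp
  refine (deg_getD _ _).trans ((md_rhsV P d _ V bl hV hbl _).trans ?_)
  exact Nat.mul_le_mul_left _ (tlenT_le T _ a)

/-! ## Polynomial expressions -/

theorem sum_drop_le (l : List ℕ) : l.getD 0 0 + l.getD 1 0 + (l.drop 2).sum = l.sum := by
  match l with
  | [] => rfl
  | [a] => simp
  | a :: b :: l => simp [Nat.add_assoc]

theorem getD_map_deg (st : List (MvPolynomial σ ℤ)) (i : ℕ) :
    (st.getD i ((ringOps (MvPolynomial σ ℤ)).nat 0)).totalDegree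
      = (st.map totalDegree).getD i 0 := by
  rcases lt_or_ge i st.length with h | h
  · rw [List.getD_eq_getElem _ _ h, List.getD_eq_getElem _ _ (by simpa using h)]
    simp
  · rw [List.getD_eq_default _ _ h, deg_nat, List.getD_eq_default _ _ (by simpa using h)]

theorem deg_pstep (env : List (List (MvPolynomial σ ℤ))) (w : ℕ)
    (henv : ∀ i, md (env.getD i []) ≤ w) (st : List (MvPolynomial σ ℤ)) (tk : PTok) :
    (((ringOps (MvPolynomial σ ℤ)).pstep env st tk).map totalDegree).sum
      ≤ (st.map totalDegree).sum + w := by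
  have h2 := sum_drop_le (st.map totalDegree)
  rw [← getD_map_deg, ← getD_map_deg] at h2
  unfold Ops.pstep
  split
  · rw [List.map_cons, List.sum_cons, deg_nat]
    omega
  · split
    · rw [List.map_cons, List.sum_cons, List.map_drop]
      have := deg_add (st.getD 0 ((ringOps (MvPolynomial σ ℤ)).nat 0))
        (st.getD 1 ((ringOps (MvPolynomial σ ℤ)).nat 0))
        (n := (st.getD 0 ((ringOps (MvPolynomial σ ℤ)).nat 0)).totalDegree
          + (st.getD 1 ((ringOps (MvPolynomial σ ℤ)).nat 0)).totalDegree)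
        (Nat.le_add_right _ _) (Nat.le_add_left _ _)
      omega
    · split
      · rw [List.map_cons, List.sum_cons, List.map_drop]
        have := deg_mul (st.getD 0 ((ringOps (MvPolynomial σ ℤ)).nat 0))
          (st.getD 1 ((ringOps (MvPolynomial σ ℤ)).nat 0)) le_rfl le_rfl
        omega
      · split
        · rw [List.map_cons, List.sum_cons, deg_neg, List.map_drop, getD_map_deg]
          rcases st with _ | ⟨a, st⟩
          · simp
          · simp
        · rw [List.map_cons, List.sum_cons]
          have := (deg_getD (env.getD (tk.1 - 4) []) tk.2).trans (henv _)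
          omega

theorem deg_pfold (env : List (List (MvPolynomial σ ℤ))) (w : ℕ)
    (henv : ∀ i, md (env.getD i []) ≤ w) (e : List PTok) :
    ∀ st : List (MvPolynomial σ ℤ),
      ((e.foldl ((ringOps (MvPolynomial σ ℤ)).pstep env) st).map totalDegree).sum
        ≤ (st.map totalDegree).sum + e.length * w := by
  induction e with
  | nil => intro st; simp
  | cons t e ih =>
    intro st
    rw [List.foldl_cons, List.length_cons, Nat.succ_mul]
    have h1 := ih ((ringOps (MvPolynomial σ ℤ)).pstep env st t)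
    have h2 := deg_pstep env w henv st t
    omega

theorem deg_evalP (env : List (List (MvPolynomial σ ℤ))) (w : ℕ)
    (henv : ∀ i, md (env.getD i []) ≤ w) (e : List PTok) :
    ((ringOps (MvPolynomial σ ℤ)).evalP env e).totalDegree ≤ e.length * w := by
  unfold Ops.evalP
  have h := deg_pfold env w henv e []
  rw [getD_map_deg]
  simp only [List.map_nil, List.sum_nil, Nat.zero_add] at h
  refine le_trans ?_ h
  cases List.map totalDegree (List.foldl ((ringOps (MvPolynomial σ ℤ)).pstep env) [] e) with
  | nil => simp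
  | cons a l => simp

theorem tlen_le {β : Type} (l : List (List β)) (i : ℕ) : (l.getD i []).length ≤ tlen l := by
  induction l generalizing i with
  | nil => simp
  | cons x l ih =>
    have hc : tlen (x :: l) = x.length + tlen l := rfl
    rw [hc]
    cases i with
    | zero => simp
    | succ i =>
      have := ih i
      simp only [List.getD_cons_succ] at this ⊢
      omega

theorem deg_nbres (P d : ℕ) (F : List (MvPolynomial σ ℤ)) (hF : md F ≤ 1) :
    ((ringOps (MvPolynomial σ ℤ)).nbres P d F).totalDegree ≤ P + 1 := by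
  unfold Ops.nbres
  refine (deg_mul _ _ ((deg_gF _ _ _ _ _).trans hF) (deg_prod _ _ (fun _ => 1)
    fun i _ => deg_co _ ((deg_gF _ _ _ _ _).trans hF))).trans ?_
  rw [Finset.sum_const, Finset.card_range, smul_eq_mul, mul_one]
  omega

theorem deg_target (P d n1 : ℕ) (x : List (MvPolynomial σ ℤ)) (hx : md x ≤ 1) (e : ℕ) :
    ((ringOps (MvPolynomial σ ℤ)).target P d n1 x e).totalDegree ≤ P + 2 := by
  have hx' : md (x.drop (n1 * fs P d)) ≤ 1 := (md_drop _ _).trans hx
  unfold Ops.target
  split
  · refine deg_add _ _ ((deg_nbres P d x hx).trans (by omega)) ?_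
    rw [deg_neg]
    exact (deg_nbres P d _ hx').trans (by omega)
  · refine (deg_mul _ _ (deg_nbres P d x hx) (deg_add _ _ (n := 1)
      ((deg_gF _ _ _ _ _).trans hx) ?_)).trans (by omega)
    rw [deg_neg]
    exact (deg_gF _ _ _ _ _).trans hx'

theorem env_pair (V x : List (MvPolynomial σ ℤ)) {w : ℕ} (hV : md V ≤ w) (hx : md x ≤ w) (i : ℕ) :
    md ([V, x].getD i []) ≤ w := by
  match i with
  | 0 => simpa using hV
  | 1 => simpa using hx
  | i + 2 => simp [md_nil]

theorem env_one (V : List (MvPolynomial σ ℤ)) {w : ℕ} (hV : md V ≤ w) (i : ℕ) :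
    md ([V].getD i []) ≤ w := by
  match i with
  | 0 => simpa using hV
  | i + 1 => simp [md_nil]

theorem env_cons (V : List (MvPolynomial σ ℤ)) (bl : List (List (MvPolynomial σ ℤ))) {w : ℕ}
    (hV : md V ≤ w) (hbl : ∀ i, md (bl.getD i []) ≤ w) (i : ℕ) :
    md ((V :: bl).getD i []) ≤ w := by
  match i with
  | 0 => simpa using hV
  | i + 1 => simpa using hbl i

end DEGM

open DEGM in
theorem specDeg : SpecDeg := by
  intro s c σ V bl hV hbl
  have hV1 : md V ≤ 1 := md_le hV
  have hbl1 : ∀ i, md (bl.getD i []) ≤ 1 := by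
    intro i
    rcases lt_or_ge i bl.length with h | h
    · rw [List.getD_eq_getElem _ _ h]
      exact md_le (hbl _ (List.getElem_mem h))
    · rw [List.getD_eq_default _ _ h, md_nil]
      exact Nat.zero_le _
  have hD := deg_evalP [V] 1 (env_one V hV1) c.D
  rw [Nat.mul_one] at hD
  refine ⟨fun a i => ⟨?_, ?_⟩, fun x hx e => ⟨?_, ?_⟩⟩
  · have hvec := md_vecS s.P s.d s.n1 s.T a V bl hV1 hbl1
    have hp := deg_evalP [V, (ringOps (MvPolynomial σ ℤ)).vecS s.P s.d s.n1 s.T a V bl]
      (1 + (s.P + 1) * tlenT s.T) (env_pair _ _ (by omega) (by omega)) (c.p i)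
    have hp' : (c.p i).length * (1 + (s.P + 1) * tlenT s.T)
        ≤ tlen c.ps * (1 + (s.P + 1) * tlenT s.T) :=
      Nat.mul_le_mul_right _ (tlen_le c.ps i)
    have := deg_mul _ _ hD (hp.trans hp')
    unfold Ops.lhs1 bnd
    omega
  · have h1 : ((ringOps (MvPolynomial σ ℤ)).rhs1 s c a i V bl).totalDegree
        ≤ tlen c.csl + tlen c.ps := by
      unfold Ops.rhs1
      refine deg_sum _ _ _ fun j _ => deg_sum _ _ _ fun l _ => ?_
      have h2 := deg_evalP (V :: bl) 1 (env_cons V bl hV1 hbl1) (c.cs a i j l)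
      have h3 := deg_evalP [V, bl.getD j []] 1 (env_pair _ _ hV1 (hbl1 j)) (c.p l)
      have h4 : (c.cs a i j l).length ≤ tlen c.csl := tlen_le _ _
      have h5 : (c.p l).length ≤ tlen c.ps := tlen_le _ _
      exact deg_mul _ _ (h2.trans (by omega)) (h3.trans (by omega))
    unfold bnd
    omega
  · have hx1 : md x ≤ 1 := md_le (hbl x hx)
    have := deg_mul _ _ hD (deg_target s.P s.d s.n1 x hx1 e)
    unfold Ops.lhs2 bnd
    omega
  · have hx1 : md x ≤ 1 := md_le (hbl x hx)
    have h1 : ((ringOps (MvPolynomial σ ℤ)).rhs2 c e V x).totalDegree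
        ≤ tlen c.esl + tlen c.ps := by
      unfold Ops.rhs2
      refine deg_sum _ _ _ fun l _ => ?_
      have h2 := deg_evalP [V, x] 1 (env_pair _ _ hV1 hx1) (c.es e l)
      have h3 := deg_evalP [V, x] 1 (env_pair _ _ hV1 hx1) (c.p l)
      have h4 : (c.es e l).length ≤ tlen c.esl := tlen_le _ _
      have h5 : (c.p l).length ≤ tlen c.ps := tlen_le _ _
      exact deg_mul _ _ (h2.trans (by omega)) (h3.trans (by omega))
    unfold bnd
    omega

end Pool.Agent.Lib.MP_39893a_lc
end

section
/-!
# From the grid to all points (MP_39893a_lc, module GRID)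
-/
set_option autoImplicit false

namespace Pool.Agent.Lib.MP_39893a_lc

open MvPolynomial

namespace GRIDM

/-! ## Homomorphisms and polynomial expressions -/

section Hom

variable {α β : Type} {o : Ops α} {o' : Ops β} {φ : α → β} (h : Ops.Hom o o' φ)

include h

theorem getD_hom (l : List α) (n : ℕ) :
    φ (l.getD n (o.nat 0)) = (l.map φ).getD n (o'.nat 0) := by
  rw [map_getD φ, h.nat]

theorem pstep_hom (env : List (List α)) (st : List α) (tk : PTok) :
    (o.pstep env st tk).map φ = o'.pstep (env.map (List.map φ)) (st.map φ) tk := by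
  unfold Ops.pstep
  split
  · rw [List.map_cons, h.nat]
  · split
    · rw [List.map_cons, h.add, getD_hom h, getD_hom h, List.map_drop]
    · split
      · rw [List.map_cons, h.mul, getD_hom h, getD_hom h, List.map_drop]
      · split
        · rw [List.map_cons, h.neg, getD_hom h, List.map_drop]
        · rw [List.map_cons, getD_hom h, getD_map_nil]

theorem pfold_hom (env : List (List α)) (e : List PTok) :
    ∀ st : List α, (e.foldl (o.pstep env) st).map φ
      = e.foldl (o'.pstep (env.map (List.map φ))) (st.map φ) := by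
  induction e with
  | nil => intro st; rfl
  | cons t e ih =>
    intro st
    rw [List.foldl_cons, List.foldl_cons, ih, pstep_hom h]

theorem evalP_hom (env : List (List α)) (e : List PTok) :
    φ (o.evalP env e) = o'.evalP (env.map (List.map φ)) e := by
  unfold Ops.evalP
  rw [getD_hom h, pfold_hom h, List.map_nil]

theorem lhs1_hom (s : Sys) (c : Cert) (a i : ℕ) (V : List α) (bl : List (List α)) :
    φ (o.lhs1 s c a i V bl) = o'.lhs1 s c a i (V.map φ) (bl.map (List.map φ)) := by
  unfold Ops.lhs1
  rw [h.mul, evalP_hom h, evalP_hom h, List.map_cons, List.map_nil, List.map_cons, List.map_cons,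
    List.map_nil, h.vecS]

theorem rhs1_hom (s : Sys) (c : Cert) (a i : ℕ) (V : List α) (bl : List (List α)) :
    φ (o.rhs1 s c a i V bl) = o'.rhs1 s c a i (V.map φ) (bl.map (List.map φ)) := by
  unfold Ops.rhs1
  rw [h.sum]
  congr 1
  funext j
  rw [h.sum]
  congr 1
  funext l
  rw [h.mul, evalP_hom h, evalP_hom h, List.map_cons, List.map_cons, List.map_cons, List.map_nil,
    getD_map_nil]

theorem lhs2_hom (s : Sys) (c : Cert) (e : ℕ) (V x : List α) :
    φ (o.lhs2 s c e V x) = o'.lhs2 s c e (V.map φ) (x.map φ) := by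
  unfold Ops.lhs2
  rw [h.mul, evalP_hom h, h.target, List.map_cons, List.map_nil]

theorem rhs2_hom (c : Cert) (e : ℕ) (V x : List α) :
    φ (o.rhs2 c e V x) = o'.rhs2 c e (V.map φ) (x.map φ) := by
  unfold Ops.rhs2
  rw [h.sum]
  congr 1
  funext l
  rw [h.mul, evalP_hom h, evalP_hom h, List.map_cons, List.map_cons, List.map_nil]

end Hom

/-- The value of a difference respects the operations. -/
theorem homZ : Ops.Hom zz (ringOps ℤ) zv := by
  refine ⟨fun n => ?_, fun a b => ?_, fun a b => ?_, fun a => ?_⟩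
  · simp [zz, zv, ringOps]
  · simp only [zz, zv, ringOps]
    push_cast
    ring
  · simp only [zz, zv, ringOps]
    push_cast
    ring
  · simp only [zz, zv, ringOps]
    ring

theorem zeq_iff (a b : ℕ × ℕ) : zeq a b ↔ zv a = zv b := by
  unfold zeq zv
  omega

/-! ## Lists of values -/

/-- First block. -/
def gV {α : Type} (f : ℕ → α) (nV : ℕ) : List α := (List.range nV).map f

/-- Block `i`. -/
def gB {α : Type} (f : ℕ → α) (nV N i : ℕ) : List α :=
  (List.range N).map fun t => f (nV + i * N + t)

/-- All blocks. -/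
def gBl {α : Type} (f : ℕ → α) (nV N r : ℕ) : List (List α) := (List.range r).map (gB f nV N)

section Lists

variable {α β : Type}

theorem gV_map (φ : α → β) (f : ℕ → α) (nV : ℕ) : (gV f nV).map φ = gV (fun t => φ (f t)) nV := by
  unfold gV
  rw [List.map_map]
  rfl

theorem gB_map (φ : α → β) (f : ℕ → α) (nV N i : ℕ) :
    (gB f nV N i).map φ = gB (fun t => φ (f t)) nV N i := by
  unfold gB
  rw [List.map_map]
  rfl

theorem gBl_map (φ : α → β) (f : ℕ → α) (nV N r : ℕ) :
    (gBl f nV N r).map (List.map φ) = gBl (fun t => φ (f t)) nV N r := by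
  unfold gBl
  rw [List.map_map]
  refine List.map_congr_left fun i _ => ?_
  rw [Function.comp_apply, gB_map]

theorem gV_congr {f g : ℕ → α} {nV n : ℕ} (hn : nV ≤ n) (h : ∀ t < n, f t = g t) :
    gV f nV = gV g nV := by
  unfold gV
  refine List.map_congr_left fun t ht => h t ?_
  have := List.mem_range.1 ht
  omega

theorem gB_congr {f g : ℕ → α} {nV N r i : ℕ} (hi : i < r) (h : ∀ t < nV + r * N, f t = g t) :
    gB f nV N i = gB g nV N i := by
  unfold gB
  refine List.map_congr_left fun t ht => h _ ?_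
  have h1 := List.mem_range.1 ht
  have h2 : (i + 1) * N ≤ r * N := Nat.mul_le_mul_right _ hi
  rw [Nat.succ_mul] at h2
  omega

theorem gBl_congr {f g : ℕ → α} {nV N r : ℕ} (h : ∀ t < nV + r * N, f t = g t) :
    gBl f nV N r = gBl g nV N r := by
  unfold gBl
  exact List.map_congr_left fun i hi => gB_congr (List.mem_range.1 hi) h

end Lists

/-- Digits. -/
theorem digits_exist (B : ℕ) (n : ℕ) : ∀ m : ℕ → ℕ, (∀ t < n, m t < B) →
    ∃ z < B ^ n, ∀ t < n, dig B z t = m t := by
  induction n with
  | zero => intro m _; exact ⟨0, by simp, fun t ht => absurd ht (Nat.not_lt_zero t)⟩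
  | succ n ih =>
    intro m hm
    obtain ⟨z, hz, hd⟩ := ih (fun t => m (t + 1)) fun t ht => hm (t + 1) (by omega)
    have h0 : m 0 < B := hm 0 (by omega)
    have hB : 0 < B := by omega
    refine ⟨m 0 + B * z, ?_, ?_⟩
    · rw [pow_succ]
      have h1 : B * (z + 1) ≤ B * B ^ n := Nat.mul_le_mul_left _ hz
      rw [Nat.mul_succ] at h1
      rw [Nat.mul_comm (B ^ n) B]
      omega
    · intro t ht
      cases t with
      | zero =>
        unfold dig
        rw [pow_zero, Nat.div_one, Nat.add_mul_mod_self_left, Nat.mod_eq_of_lt h0]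
      | succ t =>
        have := hd t (by omega)
        unfold dig at this ⊢
        rw [← this, pow_succ, Nat.mul_comm (B ^ t) B, ← Nat.div_div_eq_div_mul,
          Nat.add_mul_div_left _ _ hB, Nat.div_eq_of_lt h0, Nat.zero_add]

/-- A polynomial of degree less than `B` vanishing on the grid is zero. -/
theorem zero_of_grid (n B : ℕ) (Q : MvPolynomial (Fin n) ℤ) (hdeg : Q.totalDegree < B)
    (h : ∀ z < B ^ n, eval (fun i : Fin n => ((dig B z i : ℕ) : ℤ)) Q = 0) : Q = 0 := by
  classical
  refine MvPolynomial.eq_zero_of_eval_zero_at_prod_finset Q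
    (fun _ => (Finset.range B).image fun m : ℕ => (m : ℤ)) (fun i => ?_) (fun x hx => ?_)
  · rw [Finset.card_image_of_injective _ Nat.cast_injective, Finset.card_range]
    exact (MvPolynomial.degreeOf_le_totalDegree Q i).trans_lt hdeg
  · have hm : ∀ i : Fin n, ∃ m : ℕ, m < B ∧ (m : ℤ) = x i := by
      intro i
      obtain ⟨m, hm, hme⟩ := Finset.mem_image.1 (hx i)
      exact ⟨m, Finset.mem_range.1 hm, hme⟩
    choose m hm hme using hm
    obtain ⟨z, hz, hd⟩ := digits_exist B n (fun t => if ht : t < n then m ⟨t, ht⟩ else 0)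
      (fun t ht => by simp only [ht, dif_pos]; exact hm _)
    have : x = fun i : Fin n => ((dig B z i : ℕ) : ℤ) := by
      funext i
      rw [hd i i.2]
      simp only [i.2, dif_pos, Fin.eta]
      exact (hme i).symm
    rw [this]
    exact h z hz

/-- The generic point. -/
noncomputable def Xg (n t : ℕ) : MvPolynomial (Fin n) ℤ := if h : t < n then X ⟨t, h⟩ else 0

theorem Xg_deg (n t : ℕ) : (Xg n t).totalDegree ≤ 1 := by
  unfold Xg
  split
  · exact (totalDegree_X _).le
  · rw [totalDegree_zero]; exact Nat.zero_le _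

theorem Xg_eval (n t : ℕ) (ht : t < n) (f : ℕ → ℤ) :
    eval (fun i : Fin n => f i) (Xg n t) = f t := by
  unfold Xg
  rw [dif_pos ht, eval_X]

theorem gV_deg (n nV : ℕ) : ∀ p ∈ gV (Xg n) nV, p.totalDegree ≤ 1 := by
  intro p hp
  obtain ⟨t, _, rfl⟩ := List.mem_map.1 hp
  exact Xg_deg n t

theorem gB_deg (n nV N i : ℕ) : ∀ p ∈ gB (Xg n) nV N i, p.totalDegree ≤ 1 := by
  intro p hp
  obtain ⟨t, _, rfl⟩ := List.mem_map.1 hp
  exact Xg_deg n _

theorem gBl_deg (n nV N r : ℕ) : ∀ F ∈ gBl (Xg n) nV N r, ∀ p ∈ F, p.totalDegree ≤ 1 := by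
  intro F hF
  obtain ⟨i, _, rfl⟩ := List.mem_map.1 hF
  exact gB_deg n nV N i

/-- First identity at all points given by functions. -/
theorem key1 (hD : SpecDeg) (s : Sys) (c : Cert) (a i : ℕ)
    (ht : ∀ z < bnd s c ^ (s.nV + s.rk a * s.N), test1 s c a i z) (f : ℕ → ℤ) :
    (ringOps ℤ).lhs1 s c a i (gV f s.nV) (gBl f s.nV s.N (s.rk a))
      = (ringOps ℤ).rhs1 s c a i (gV f s.nV) (gBl f s.nV s.N (s.rk a)) := by
  set n := s.nV + s.rk a * s.N with hn
  set V' := gV (Xg n) s.nV with hV'
  set bl' := gBl (Xg n) s.nV s.N (s.rk a) with hbl'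
  have hd := (hD s c (Fin n) V' bl' (gV_deg _ _) (gBl_deg _ _ _ _)).1 a i
  have hsub : ∀ g : ℕ → ℤ, eval (fun i : Fin n => g i)
      ((ringOps (MvPolynomial (Fin n) ℤ)).lhs1 s c a i V' bl'
        - (ringOps (MvPolynomial (Fin n) ℤ)).rhs1 s c a i V' bl')
      = (ringOps ℤ).lhs1 s c a i (gV g s.nV) (gBl g s.nV s.N (s.rk a))
        - (ringOps ℤ).rhs1 s c a i (gV g s.nV) (gBl g s.nV s.N (s.rk a)) := by
    intro g
    have hh := homRing (eval fun i : Fin n => g i)
    rw [map_sub, lhs1_hom hh, rhs1_hom hh, hV', hbl', gV_map, gBl_map,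
      gV_congr (n := n) (g := g) (by omega) (fun t ht => Xg_eval n t ht g),
      gBl_congr (g := g) (fun t ht => Xg_eval n t ht g)]
  have hQ : (ringOps (MvPolynomial (Fin n) ℤ)).lhs1 s c a i V' bl'
        - (ringOps (MvPolynomial (Fin n) ℤ)).rhs1 s c a i V' bl' = 0 := by
    refine zero_of_grid n (bnd s c) _ ((totalDegree_sub _ _).trans_lt (max_lt hd.1 hd.2))
      fun z hz => ?_
    rw [hsub fun t => ((dig (bnd s c) z t : ℕ) : ℤ), sub_eq_zero]
    have h1 := (zeq_iff _ _).1 (ht z hz)
    rw [lhs1_hom homZ, rhs1_hom homZ] at h1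
    have h2 : (gridV (bnd s c) z s.nV).map zv
        = gV (fun t => ((dig (bnd s c) z t : ℕ) : ℤ)) s.nV := by
      unfold gridV gV
      rw [List.map_map]
      exact List.map_congr_left fun t _ => by simp [zv]
    have h3 : (gridBl (bnd s c) z s.nV s.N (s.rk a)).map (List.map zv)
        = gBl (fun t => ((dig (bnd s c) z t : ℕ) : ℤ)) s.nV s.N (s.rk a) := by
      unfold gridBl gBl
      rw [List.map_map]
      refine List.map_congr_left fun i _ => ?_
      rw [Function.comp_apply]
      unfold gridB gB
      rw [List.map_map]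
      exact List.map_congr_left fun t _ => by simp [zv]
    rw [h2, h3] at h1
    exact h1
  have := hsub f
  rw [hQ, map_zero] at this
  exact (sub_eq_zero.1 this.symm)

/-- Second identity at all points given by functions. -/
theorem key2 (hD : SpecDeg) (s : Sys) (c : Cert) (e : ℕ)
    (ht : ∀ z < bnd s c ^ (s.nV + 1 * s.N), test2 s c e z) (f : ℕ → ℤ) :
    (ringOps ℤ).lhs2 s c e (gV f s.nV) (gB f s.nV s.N 0)
      = (ringOps ℤ).rhs2 c e (gV f s.nV) (gB f s.nV s.N 0) := by
  set n := s.nV + 1 * s.N with hn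
  set V' := gV (Xg n) s.nV with hV'
  set x' := gB (Xg n) s.nV s.N 0 with hx'
  have hd := (hD s c (Fin n) V' [x'] (gV_deg _ _) (by
    intro F hF
    rw [List.mem_singleton] at hF
    subst hF
    exact gB_deg n s.nV s.N 0)).2 x' (List.mem_singleton.2 rfl) e
  have hsub : ∀ g : ℕ → ℤ, eval (fun i : Fin n => g i)
      ((ringOps (MvPolynomial (Fin n) ℤ)).lhs2 s c e V' x'
        - (ringOps (MvPolynomial (Fin n) ℤ)).rhs2 c e V' x')
      = (ringOps ℤ).lhs2 s c e (gV g s.nV) (gB g s.nV s.N 0)
        - (ringOps ℤ).rhs2 c e (gV g s.nV) (gB g s.nV s.N 0) := by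
    intro g
    have hh := homRing (eval fun i : Fin n => g i)
    rw [map_sub, lhs2_hom hh, rhs2_hom hh, hV', hx', gV_map, gB_map,
      gV_congr (n := n) (g := g) (by omega) (fun t ht => Xg_eval n t ht g),
      gB_congr (r := 1) (g := g) Nat.zero_lt_one (fun t ht => Xg_eval n t ht g)]
  have hQ : (ringOps (MvPolynomial (Fin n) ℤ)).lhs2 s c e V' x'
        - (ringOps (MvPolynomial (Fin n) ℤ)).rhs2 c e V' x' = 0 := by
    refine zero_of_grid n (bnd s c) _ ((totalDegree_sub _ _).trans_lt (max_lt hd.1 hd.2))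
      fun z hz => ?_
    rw [hsub fun t => ((dig (bnd s c) z t : ℕ) : ℤ), sub_eq_zero]
    have h1 := (zeq_iff _ _).1 (ht z hz)
    rw [lhs2_hom homZ, rhs2_hom homZ] at h1
    have h2 : (gridV (bnd s c) z s.nV).map zv
        = gV (fun t => ((dig (bnd s c) z t : ℕ) : ℤ)) s.nV := by
      unfold gridV gV
      rw [List.map_map]
      exact List.map_congr_left fun t _ => by simp [zv]
    have h3 : (gridB (bnd s c) z s.nV s.N 0).map zv
        = gB (fun t => ((dig (bnd s c) z t : ℕ) : ℤ)) s.nV s.N 0 := by
      unfold gridB gB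
      rw [List.map_map]
      exact List.map_congr_left fun t _ => by simp [zv]
    rw [h2, h3] at h1
    exact h1
  have := hsub f
  rw [hQ, map_zero] at this
  exact (sub_eq_zero.1 this.symm)

/-- Values of a point. -/
def pt (nV N : ℕ) (V : List ℤ) (bl : List (List ℤ)) (k : ℕ) : ℤ :=
  if k < nV then V.getD k 0 else (bl.getD ((k - nV) / N) []).getD ((k - nV) % N) 0

theorem gV_pt (nV N : ℕ) (V : List ℤ) (bl : List (List ℤ)) (hV : V.length = nV) :
    gV (pt nV N V bl) nV = V := by
  refine List.ext_getElem (by simp [gV, hV]) fun t h1 h2 => ?_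
  have h1' : t < nV := by simpa [gV] using h1
  simp only [gV, List.getElem_map, List.getElem_range, pt, if_pos h1']
  exact List.getD_eq_getElem _ _ h2

theorem gB_pt (nV N : ℕ) (V : List ℤ) (bl : List (List ℤ)) (i : ℕ) (hi : i < bl.length)
    (hF : bl[i].length = N) : gB (pt nV N V bl) nV N i = bl[i] := by
  refine List.ext_getElem (by simp [gB, hF]) fun t h1 h2 => ?_
  have h1' : t < N := by simpa [gB] using h1
  have hN : 0 < N := by omega
  simp only [gB, List.getElem_map, List.getElem_range, pt]
  rw [if_neg (by omega), show nV + i * N + t - nV = i * N + t by omega]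
  rw [Nat.add_comm (i * N) t, Nat.add_mul_div_right _ _ hN, Nat.div_eq_of_lt h1', Nat.zero_add,
    Nat.add_mul_mod_self_right, Nat.mod_eq_of_lt h1', List.getD_eq_getElem _ _ hi,
    List.getD_eq_getElem _ _ h2]

theorem gBl_pt (nV N r : ℕ) (V : List ℤ) (bl : List (List ℤ)) (hr : bl.length = r)
    (hF : ∀ F ∈ bl, F.length = N) : gBl (pt nV N V bl) nV N r = bl := by
  refine List.ext_getElem (by simp [gBl, hr]) fun i h1 h2 => ?_
  simp only [gBl, List.getElem_map, List.getElem_range]
  exact gB_pt nV N V bl i h2 (hF _ (List.getElem_mem h2))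

end GRIDM

open GRIDM in
theorem specGrid (hD : SpecDeg) : SpecGrid := by
  intro s c hc
  obtain ⟨_, _, h1, h2⟩ := hc
  refine ⟨fun a ha i hi V bl hV hbl hF => ?_, fun e he V x hV hx => ?_⟩
  · have := key1 hD s c a i (h1 a ha i hi) (pt s.nV s.N V bl)
    rwa [gV_pt _ _ _ _ hV, gBl_pt _ _ _ _ _ hbl hF] at this
  · have := key2 hD s c e (h2 e he) (pt s.nV s.N V [x])
    rw [gV_pt _ _ _ _ hV] at this
    rwa [gB_pt s.nV s.N V [x] 0 (by simp) (by simpa using hx)] at this

end Pool.Agent.Lib.MP_39893a_lc
end

section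
/-!
# The machine computes the semantics of transducers (MP_39893a_lc)
-/
set_option autoImplicit false

open Finset

namespace Pool.Agent.Lib.MP_39893a_lc

/-- Trees with undefined leaves. -/
inductive BT : Type
  | bot : BT
  | node (b r : ℕ) (c : Fin r → BT) : BT

/-- No undefined leaf. -/
def BT.good : BT → Prop
  | .bot => False
  | .node _ _ c => ∀ i, (c i).good

/-- The tree, if there is no undefined leaf. -/
def BT.strip : BT → Option Tree
  | .bot => none
  | .node b r c =>
      if h : ∀ i, (c i).strip.isSome then some (.node b r fun i => (c i).strip.get (h i))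
      else none

theorem BT.good_iff (t : BT) : t.good ↔ t.strip.isSome := by
  induction t with
  | bot => simp [BT.good, BT.strip]
  | node b r c ih =>
    simp only [BT.good, BT.strip, ih]
    split
    · next h => simp [h]
    · next h => simp [h]

/-- Value of a tree with undefined leaves. -/
def WB {S : Type} [CommRing S] (d : ℕ) (I : Interp S) : BT → ℕ → S
  | .bot, _ => 0
  | .node b r c, x => I.C b x + ∑ i : Fin r, ∑ y ∈ range d, I.A b i x y * WB d I (c i) y

theorem WB_strip {S : Type} [CommRing S] (d : ℕ) (I : Interp S) (t : BT) :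
    ∀ u, t.strip = some u → ∀ x, WB d I t x = W d I u x := by
  induction t with
  | bot => intro u hu; simp [BT.strip] at hu
  | node b r c ih =>
    intro u hu x
    rw [BT.strip] at hu
    split at hu
    · next h =>
      rw [← Option.some.inj hu, WB, W]
      congr 1
      refine Finset.sum_congr rfl fun i _ => Finset.sum_congr rfl fun y _ => ?_
      rw [ih i _ (Option.some_get (h i)).symm y]
    · cases hu

/-- Total value of a right-hand side. -/
def Rhs.evalB (ρ : ℕ → BT) (f : ℕ → ℕ → (ℕ → BT) → BT) : Rhs → BT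
  | .param j => ρ j
  | .out b r c => .node b r fun i => (c i).evalB ρ f
  | .call q i n c => f i q fun l => if h : l < n then (c ⟨l, h⟩).evalB ρ f else .bot

/-- Total semantics. -/
def DMTT.runB {A B : List ℕ} (M : DMTT A B) : Tree → ℕ → (ℕ → BT) → BT
  | .node a r c, q, ρ =>
      match M.rule q a with
      | none => .bot
      | some ζ => ζ.evalB ρ fun i q' ρ' => if h : i < r then M.runB (c ⟨i, h⟩) q' ρ' else .bot

theorem Rhs.strip_evalB (ζ : Rhs) (ρ : ℕ → BT) (f : ℕ → ℕ → (ℕ → BT) → BT)
    (f' : ℕ → ℕ → (ℕ → Option Tree) → Option Tree)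
    (hf : ∀ i q ρ', (f i q ρ').strip = f' i q fun j => (ρ' j).strip) :
    (ζ.evalB ρ f).strip = ζ.eval (fun j => (ρ j).strip) f' := by
  induction ζ with
  | param j => rfl
  | out b r c ih =>
    rw [Rhs.evalB, Rhs.eval, BT.strip]
    simp only [ih]
  | call q i n c ih =>
    rw [Rhs.evalB, Rhs.eval, hf]
    congr 1
    funext l
    split
    · exact ih _
    · rfl

theorem DMTT.strip_runB {A B : List ℕ} (M : DMTT A B) (s : Tree) :
    ∀ q ρ, (M.runB s q ρ).strip = M.run s q fun j => (ρ j).strip := by
  induction s with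
  | node a r c ih =>
    intro q ρ
    rw [DMTT.runB, DMTT.run]
    cases M.rule q a with
    | none => rfl
    | some ζ =>
      apply Rhs.strip_evalB
      intro i q' ρ'
      split
      · exact ih _ _ _
      · rfl

theorem DMTT.strip_tau {A B : List ℕ} (M : DMTT A B) (s : Tree) :
    (M.runB s 0 fun _ => .bot).strip = M.tau s :=
  M.strip_runB s 0 _

/-! ## Indicators -/

open Classical in
/-- The indicator of a proposition. -/
noncomputable def ind (S : Type) [CommRing S] (p : Prop) : S := if p then 1 else 0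

section ind

variable {S : Type} [CommRing S]

theorem ind_true {p : Prop} (h : p) : ind S p = 1 := if_pos h
theorem ind_false {p : Prop} (h : ¬p) : ind S p = 0 := if_neg h

theorem one_sub_ind_mul (p q : Prop) : 1 - ind S p * (1 - ind S q) = ind S (p → q) := by
  by_cases hp : p <;> by_cases hq : q <;> simp [ind, hp, hq]

theorem one_sub_ind_mul' (p q : Prop) : 1 - ind S p * ind S q = ind S (¬(p ∧ q)) := by
  by_cases hp : p <;> by_cases hq : q <;> simp [ind, hp, hq]

theorem one_sub_ind (p : Prop) : 1 - ind S p = ind S (¬p) := by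
  by_cases hp : p <;> simp [ind, hp]

theorem ind_mul (p q : Prop) : ind S p * ind S q = ind S (p ∧ q) := by
  by_cases hp : p <;> by_cases hq : q <;> simp [ind, hp, hq]

theorem prod_ind (p : ℕ → Prop) (n : ℕ) :
    ∏ i ∈ range n, ind S (p i) = ind S (∀ i < n, p i) := by
  induction n with
  | zero => simp [ind]
  | succ n ih =>
    rw [Finset.prod_range_succ, ih, ind_mul]
    congr 1
    apply propext
    constructor
    · rintro ⟨h1, h2⟩ i hi
      rcases Nat.lt_succ_iff_lt_or_eq.1 hi with h | rfl
      · exact h1 i h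
      · exact h2
    · intro h
      exact ⟨fun i hi => h i (by omega), h n (by omega)⟩

end ind

theorem ringOps_sum {S : Type} [CommRing S] (f : ℕ → S) (n : ℕ) :
    (ringOps S).sum f n = ∑ i ∈ range n, f i := by
  induction n with
  | zero => simp [Ops.sum, ringOps]
  | succ n ih => rw [Ops.sum, ih, Finset.sum_range_succ]; rfl

theorem ringOps_prod {S : Type} [CommRing S] (f : ℕ → S) (n : ℕ) :
    (ringOps S).prod f n = ∏ i ∈ range n, f i := by
  induction n with
  | zero => simp [Ops.prod, ringOps]
  | succ n ih => rw [Ops.prod, ih, Finset.prod_range_succ]; rfl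

theorem ringOps_co {S : Type} [CommRing S] (a : S) : (ringOps S).co a = 1 - a := by
  simp [Ops.co, ringOps, sub_eq_add_neg]

/-! ## Representation of functions by forms -/

/-- The list `L` represents the function `g` of `P` parameters. -/
def RepL {S : Type} [CommRing S] (P d : ℕ) (I : Interp S) (L : List S)
    (g : (ℕ → BT) → BT) : Prop :=
  (∀ ρ : ℕ → BT, ∀ x < d, WB d I (g ρ) x = (ringOps S).gF d L 0 x 0 +
    ∑ j ∈ range P, ∑ y ∈ range d, (ringOps S).gF d L (j + 1) x y * WB d I (ρ j) y) ∧
  ∃ (p : Prop) (occ : ℕ → Prop), (ringOps S).gF d L 0 d 0 = ind S p ∧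
    (∀ j < P, (ringOps S).gF d L (j + 1) d 0 = ind S (occ j)) ∧
    ∀ ρ : ℕ → BT, (g ρ).good ↔ p ∧ ∀ j < P, occ j → (ρ j).good

section rep

variable {S : Type} [CommRing S] {P d : ℕ} {I : Interp S}

theorem gF_nil (j x y : ℕ) : (ringOps S).gF d [] j x y = 0 := by
  simp [Ops.gF, ringOps]

theorem rep_bot : RepL P d I [] (fun _ => BT.bot) := by
  refine ⟨fun ρ x _ => ?_, False, fun _ => False, ?_, fun j _ => ?_, fun ρ => ?_⟩
  · simp [WB, gF_nil]
  · rw [gF_nil, ind_false not_false]
  · rw [gF_nil, ind_false not_false]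
  · simp [BT.good]

theorem rep_congr {L L' : List S} {g : (ℕ → BT) → BT}
    (h : ∀ j x y, j ≤ P → x ≤ d → y ≤ d → (ringOps S).gF d L j x y = (ringOps S).gF d L' j x y)
    (hL : RepL P d I L g) : RepL P d I L' g := by
  obtain ⟨h1, p, occ, h2, h3, h4⟩ := hL
  refine ⟨fun ρ x hx => ?_, p, occ, ?_, fun j hj => ?_, h4⟩
  · rw [h1 ρ x hx, h 0 x 0 (Nat.zero_le _) hx.le (Nat.zero_le _)]
    congr 1
    refine Finset.sum_congr rfl fun j hj => Finset.sum_congr rfl fun y hy => ?_
    rw [h (j + 1) x y (Finset.mem_range.1 hj) hx.le (Finset.mem_range.1 hy).le]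
  · rw [← h 0 d 0 (Nat.zero_le _) le_rfl (Nat.zero_le _), h2]
  · rw [← h (j + 1) d 0 hj le_rfl (Nat.zero_le _), h3 j hj]

theorem rep_param {p : ℕ} (hp : p < P) :
    RepL P d I (mkF P d ((ringOps S).parE d p)) (fun ρ => ρ p) := by
  refine ⟨fun ρ x hx => ?_, True, fun j => j = p, ?_, fun j hj => ?_, fun ρ => ?_⟩
  · rw [gF_mkF _ (Nat.zero_le _) hx.le (Nat.zero_le _)]
    have e1 : (ringOps S).parE d p 0 x 0 = 0 := by
      simp [Ops.parE, ringOps, hx.ne]
    rw [e1, zero_add, Finset.sum_eq_single p, Finset.sum_eq_single x]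
    · rw [gF_mkF _ hp hx.le hx.le]
      simp [Ops.parE, ringOps, hx.ne]
    · intro y hy hyx
      rw [gF_mkF _ hp hx.le (Finset.mem_range.1 hy).le]
      simp [Ops.parE, ringOps, hx.ne, Ne.symm hyx]
    · intro h
      exact absurd (Finset.mem_range.2 hx) h
    · intro j hj hjp
      refine Finset.sum_eq_zero fun y hy => ?_
      rw [gF_mkF _ (Finset.mem_range.1 hj) hx.le (Finset.mem_range.1 hy).le]
      simp [Ops.parE, ringOps, hx.ne, hjp]
    · intro h
      exact absurd (Finset.mem_range.2 hp) h
  · rw [gF_mkF _ (Nat.zero_le _) le_rfl (Nat.zero_le _), ind_true trivial]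
    simp [Ops.parE, ringOps]
  · rw [gF_mkF _ hj le_rfl (Nat.zero_le _)]
    by_cases h : j = p
    · simp [Ops.parE, ringOps, ind, h]
    · simp [Ops.parE, ringOps, ind, h]
  · constructor
    · intro h
      exact ⟨trivial, fun j _ hj => hj ▸ h⟩
    · rintro ⟨_, h⟩
      exact h p hp rfl

/-- Composition. -/
theorem rep_app {L : List S} {Fs : List (List S)} {g : (ℕ → BT) → BT}
    {u : ℕ → (ℕ → BT) → BT} (hL : RepL P d I L g)
    (hF : ∀ i < P, RepL P d I (Fs.getD i []) (u i)) :
    RepL P d I (mkF P d ((ringOps S).appE P d L Fs)) (fun ρ => g fun i => u i ρ) := by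
  obtain ⟨h1, p, occ, h2, h3, h4⟩ := hL
  choose! k1 q occ' k2 k3 k4 using hF
  refine ⟨fun ρ x hx => ?_, p ∧ ∀ i < P, occ i → q i, fun j => ∃ i < P, occ i ∧ occ' i j, ?_,
    fun j hj => ?_, fun ρ => ?_⟩
  · rw [h1 _ x hx, gF_mkF _ (Nat.zero_le _) hx.le (Nat.zero_le _)]
    have e1 : ∀ j ∈ range P, ∀ y ∈ range d,
        (ringOps S).gF d (mkF P d ((ringOps S).appE P d L Fs)) (j + 1) x y
          = ∑ i ∈ range P, ∑ b ∈ range d, (ringOps S).gF d L (i + 1) x b *
            (ringOps S).gF d (Fs.getD i []) (j + 1) b y := by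
      intro j hj y hy
      rw [gF_mkF _ (Finset.mem_range.1 hj) hx.le (Finset.mem_range.1 hy).le]
      unfold Ops.appE
      rw [if_neg hx.ne, if_neg (Nat.succ_ne_zero j)]
      simp only [ringOps_sum]
      simp [ringOps]
    have e0 : (ringOps S).appE P d L Fs 0 x 0 = (ringOps S).gF d L 0 x 0 +
        ∑ i ∈ range P, ∑ b ∈ range d, (ringOps S).gF d L (i + 1) x b *
            (ringOps S).gF d (Fs.getD i []) 0 b 0 := by
      unfold Ops.appE
      rw [if_neg hx.ne]
      simp only [ringOps_sum, if_true]
      rfl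
    rw [e0, add_assoc]
    congr 1
    have e2 : ∑ j ∈ range P, ∑ y ∈ range d,
        (ringOps S).gF d (mkF P d ((ringOps S).appE P d L Fs)) (j + 1) x y * WB d I (ρ j) y
        = ∑ j ∈ range P, ∑ y ∈ range d, ∑ i ∈ range P, ∑ b ∈ range d,
          (ringOps S).gF d L (i + 1) x b *
            ((ringOps S).gF d (Fs.getD i []) (j + 1) b y * WB d I (ρ j) y) := by
      refine Finset.sum_congr rfl fun j hj => Finset.sum_congr rfl fun y hy => ?_
      rw [e1 j hj y hy, Finset.sum_mul]
      refine Finset.sum_congr rfl fun i _ => ?_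
      rw [Finset.sum_mul]
      refine Finset.sum_congr rfl fun b _ => ?_
      ring
    rw [e2]
    have e3 : ∀ i ∈ range P, ∀ b ∈ range d, WB d I (u i ρ) b
        = (ringOps S).gF d (Fs.getD i []) 0 b 0 + ∑ j ∈ range P, ∑ y ∈ range d,
          (ringOps S).gF d (Fs.getD i []) (j + 1) b y * WB d I (ρ j) y := by
      intro i hi b hb
      exact k1 i (Finset.mem_range.1 hi) ρ b (Finset.mem_range.1 hb)
    have e4 : ∑ i ∈ range P, ∑ b ∈ range d, (ringOps S).gF d L (i + 1) x b * WB d I (u i ρ) b
        = ∑ i ∈ range P, ∑ b ∈ range d, ((ringOps S).gF d L (i + 1) x b *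
            (ringOps S).gF d (Fs.getD i []) 0 b 0 + ∑ j ∈ range P, ∑ y ∈ range d,
          (ringOps S).gF d L (i + 1) x b *
            ((ringOps S).gF d (Fs.getD i []) (j + 1) b y * WB d I (ρ j) y)) := by
      refine Finset.sum_congr rfl fun i hi => Finset.sum_congr rfl fun b hb => ?_
      rw [e3 i hi b hb, mul_add, Finset.mul_sum]
      simp only [Finset.mul_sum]
    rw [e4]
    simp only [Finset.sum_add_distrib]
    congr 1
    calc ∑ i ∈ range P, ∑ b ∈ range d, ∑ j ∈ range P, ∑ y ∈ range d,
          (ringOps S).gF d L (i + 1) x b *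
            ((ringOps S).gF d (Fs.getD i []) (j + 1) b y * WB d I (ρ j) y)
        = ∑ i ∈ range P, ∑ j ∈ range P, ∑ b ∈ range d, ∑ y ∈ range d,
          (ringOps S).gF d L (i + 1) x b *
            ((ringOps S).gF d (Fs.getD i []) (j + 1) b y * WB d I (ρ j) y) := by
          refine Finset.sum_congr rfl fun i _ => Finset.sum_comm
      _ = ∑ j ∈ range P, ∑ i ∈ range P, ∑ b ∈ range d, ∑ y ∈ range d,
          (ringOps S).gF d L (i + 1) x b *
            ((ringOps S).gF d (Fs.getD i []) (j + 1) b y * WB d I (ρ j) y) := Finset.sum_comm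
      _ = ∑ j ∈ range P, ∑ i ∈ range P, ∑ y ∈ range d, ∑ b ∈ range d,
          (ringOps S).gF d L (i + 1) x b *
            ((ringOps S).gF d (Fs.getD i []) (j + 1) b y * WB d I (ρ j) y) := by
          refine Finset.sum_congr rfl fun j _ => Finset.sum_congr rfl fun i _ =>
            Finset.sum_comm
      _ = _ := by
          refine Finset.sum_congr rfl fun j _ => Finset.sum_comm
  · rw [gF_mkF _ (Nat.zero_le _) le_rfl (Nat.zero_le _)]
    unfold Ops.appE
    rw [if_pos rfl, if_pos rfl, ringOps_prod]
    have : ∀ i ∈ range P, (ringOps S).co ((ringOps S).mul ((ringOps S).gF d L (i + 1) d 0)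
        ((ringOps S).co ((ringOps S).gF d (Fs.getD i []) 0 d 0))) = ind S (occ i → q i) := by
      intro i hi
      rw [ringOps_co, ringOps_co, h3 i (Finset.mem_range.1 hi), k2 i (Finset.mem_range.1 hi)]
      exact one_sub_ind_mul _ _
    rw [Finset.prod_congr rfl this, prod_ind, h2]
    exact ind_mul _ _
  · rw [gF_mkF _ hj le_rfl (Nat.zero_le _)]
    unfold Ops.appE
    rw [if_pos rfl, if_neg (Nat.succ_ne_zero j), ringOps_co, ringOps_prod]
    have : ∀ i ∈ range P, (ringOps S).co ((ringOps S).mul ((ringOps S).gF d L (i + 1) d 0)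
        ((ringOps S).gF d (Fs.getD i []) (j + 1) d 0)) = ind S (¬(occ i ∧ occ' i j)) := by
      intro i hi
      rw [ringOps_co, h3 i (Finset.mem_range.1 hi), k3 i (Finset.mem_range.1 hi) j hj]
      exact one_sub_ind_mul' _ _
    rw [Finset.prod_congr rfl this, prod_ind, one_sub_ind]
    congr 1
    apply propext
    push Not
    rfl
  · rw [h4]
    constructor
    · rintro ⟨hp, h⟩
      refine ⟨⟨hp, fun i hi ho => ?_⟩, ?_⟩
      · exact ((k4 i hi ρ).1 (h i hi ho)).1
      · rintro j hj ⟨i, hi, ho, ho'⟩
        exact ((k4 i hi ρ).1 (h i hi ho)).2 j hj ho'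
    · rintro ⟨⟨hp, h⟩, h'⟩
      refine ⟨hp, fun i hi ho => (k4 i hi ρ).2 ⟨h i hi ho, fun j hj ho' => ?_⟩⟩
      exact h' j hj ⟨i, hi, ho, ho'⟩

/-- The interpretation read off a list of coefficients. -/
def interpOf (P d : ℕ) (V : List S) : Interp S :=
  ⟨fun b x => V.getD (b * fs P d + (x * (d + 1))) 0,
    fun b i x y => V.getD (b * fs P d + (((i + 1) * (d + 1) + x) * (d + 1) + y)) 0⟩

/-- Output symbols. -/
theorem rep_sym {V : List S} {b r : ℕ} (hr : r ≤ P) :
    RepL P d (interpOf P d V) (mkF P d ((ringOps S).symE P d V b r))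
      (fun ρ => BT.node b r fun i : Fin r => ρ i) := by
  refine ⟨fun ρ x hx => ?_, True, fun j => j < r, ?_, fun j hj => ?_, fun ρ => ?_⟩
  · rw [gF_mkF _ (Nat.zero_le _) hx.le (Nat.zero_le _), WB]
    have e0 : (ringOps S).symE P d V b r 0 x 0 = (interpOf P d V).C b x := by
      unfold Ops.symE interpOf
      rw [if_pos (Nat.zero_le _), if_neg hx.ne]
      simp [ringOps]
    rw [e0]
    congr 1
    rw [← Finset.sum_subset (Finset.range_subset_range.2 hr)]
    · rw [Finset.sum_range]
      refine Finset.sum_congr rfl fun i _ => Finset.sum_congr rfl fun y hy => ?_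
      rw [gF_mkF _ (by omega) hx.le (Finset.mem_range.1 hy).le]
      unfold Ops.symE interpOf
      rw [if_pos (by omega), if_neg hx.ne]
      simp [ringOps]
    · intro j hj hjr
      refine Finset.sum_eq_zero fun y hy => ?_
      rw [gF_mkF _ (Finset.mem_range.1 hj) hx.le (Finset.mem_range.1 hy).le]
      unfold Ops.symE
      have : r ≤ j := by simpa using hjr
      rw [if_neg (by omega)]
      simp [ringOps]
  · rw [gF_mkF _ (Nat.zero_le _) le_rfl (Nat.zero_le _), ind_true trivial]
    simp [Ops.symE, ringOps]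
  · rw [gF_mkF _ hj le_rfl (Nat.zero_le _)]
    by_cases h : j < r
    · simp [Ops.symE, ringOps, ind, h]
    · simp [Ops.symE, ringOps, ind, h]
  · constructor
    · intro h
      exact ⟨trivial, fun j _ hj => h ⟨j, hj⟩⟩
    · rintro ⟨_, h⟩ i
      exact h i (lt_of_lt_of_le i.2 hr) i.2

end rep

end Pool.Agent.Lib.MP_39893a_lc
end

section
/-!
# The coefficient vector of a tree represents the functions computed by the states
(MP_39893a_lc)
-/
set_option autoImplicit false

open Finset

namespace Pool.Agent.Lib.MP_39893a_lc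

theorem foldl_flatten_ofFn {α β : Type} (f : List β → α → List β) :
    ∀ (r : ℕ) (code : Fin r → List α) (L : Fin r → β),
      (∀ i, ∀ st, (code i).foldl f st = L i :: st) →
      ∀ st, (List.ofFn code).flatten.foldl f st = (List.ofFn L).reverse ++ st := by
  intro r
  induction r with
  | zero => intro code L _ st; simp
  | succ r ih =>
    intro code L h st
    rw [List.ofFn_succ, List.flatten_cons, List.foldl_append, h 0,
      ih (fun i => code i.succ) (fun i => L i.succ) (fun i => h i.succ), List.ofFn_succ,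
      List.reverse_cons, List.append_assoc]
    rfl

theorem ofFn_getD {β : Type} (r : ℕ) (L : Fin r → β) (i : ℕ) (z : β) :
    (List.ofFn L).getD i z = if h : i < r then L ⟨i, h⟩ else z := by
  rw [List.getD_eq_getElem?_getD, List.getElem?_ofFn]
  split <;> rfl

theorem take_rev_append {β : Type} (r : ℕ) (L : Fin r → β) (st : List β) :
    (((List.ofFn L).reverse ++ st).take r).reverse = List.ofFn L := by
  have : ((List.ofFn L).reverse).length = r := by simp
  rw [List.take_append_of_le_length this.ge, List.take_of_length_le this.le, List.reverse_reverse]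

theorem drop_rev_append {β : Type} (r : ℕ) (L : Fin r → β) (st : List β) :
    ((List.ofFn L).reverse ++ st).drop r = st := by
  have : ((List.ofFn L).reverse).length = r := by simp
  rw [List.drop_append_of_le_length this.ge, List.drop_of_length_le this.le, List.nil_append]

variable {S : Type} [CommRing S]

/-- The machine, run on the code of a right-hand side, computes a form representing it. -/
theorem rhs_rep {P d off : ℕ} {V : List S} {bl : List (List S)} {B Q : List ℕ} {m r : ℕ}
    (f : ℕ → ℕ → (ℕ → BT) → BT) (hm : m ≤ P) (hB : ∀ b n : ℕ, B[b]? = some n → n ≤ P)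
    (hf : ∀ i q n : ℕ, i < r → Q[q]? = some n →
      RepL P d (interpOf P d V) ((bl.getD i []).drop ((off + q) * fs P d)) (f i q))
    (ζ : Rhs) : ζ.WF B Q m r →
    ∃ L : List S, (∀ st, ζ.code.foldl ((ringOps S).step P d off V bl) st = L :: st) ∧
      RepL P d (interpOf P d V) L (fun ρ => ζ.evalB ρ f) := by
  induction ζ with
  | param j =>
    intro h
    exact ⟨_, fun st => rfl, rep_param (lt_of_lt_of_le h hm)⟩
  | out b n c ih =>
    rintro ⟨hb, hc⟩
    choose L h1 h2 using fun i => ih i (hc i)
    refine ⟨mkF P d ((ringOps S).appE P d (mkF P d ((ringOps S).symE P d V b n))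
      (List.ofFn L)), fun st => ?_, ?_⟩
    · rw [Rhs.code, List.foldl_append, foldl_flatten_ofFn _ n _ L h1, List.foldl_cons,
        List.foldl_nil]
      unfold Ops.step
      rw [if_neg (by norm_num), if_pos rfl]
      dsimp only
      rw [take_rev_append, drop_rev_append]
    · have hn := hB b n hb
      have := rep_app (Fs := List.ofFn L)
        (u := fun i ρ => if h : i < n then (c ⟨i, h⟩).evalB ρ f else BT.bot)
        (rep_sym (V := V) (b := b) (r := n) (P := P) (d := d) hn) (by
          intro i _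
          rw [ofFn_getD]
          by_cases h : i < n
          · simp only [h, dif_pos]
            exact h2 ⟨i, h⟩
          · simp only [h, dif_neg, not_false_eq_true]
            exact rep_bot)
      convert this using 2 with ρ
      rw [Rhs.evalB]
      congr 1
      funext i
      show _ = if h : (i : ℕ) < n then (c ⟨i, h⟩).evalB ρ f else BT.bot
      rw [dif_pos i.2]
  | call q i n c ih =>
    rintro ⟨hq, hi, hc⟩
    choose L h1 h2 using fun l => ih l (hc l)
    refine ⟨mkF P d ((ringOps S).appE P d ((bl.getD i []).drop ((off + q) * fs P d))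
      (List.ofFn L)), fun st => ?_, ?_⟩
    · rw [Rhs.code, List.foldl_append, foldl_flatten_ofFn _ n _ L h1, List.foldl_cons,
        List.foldl_nil]
      unfold Ops.step
      rw [if_neg (by norm_num), if_neg (by norm_num)]
      dsimp only
      rw [take_rev_append, drop_rev_append]
    · have := rep_app (Fs := List.ofFn L)
        (u := fun l ρ => if h : l < n then (c ⟨l, h⟩).evalB ρ f else BT.bot)
        (hf i q n hi hq) (by
          intro l _
          rw [ofFn_getD]
          by_cases h : l < n
          · simp only [h, dif_pos]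
            exact h2 ⟨l, h⟩
          · simp only [h, dif_neg, not_false_eq_true]
            exact rep_bot)
      exact this

/-- Entries of the coefficient vector. -/
theorem gF_vecS {P d n1 : ℕ} {T : List (List (Option (List Tok)))} {a : ℕ} {V : List S}
    {bl : List (List S)} {u : ℕ} (hu : u < T.length) {j x y : ℕ} (hj : j ≤ P) (hx : x ≤ d)
    (hy : y ≤ d) :
    (ringOps S).gF d (((ringOps S).vecS P d n1 T a V bl).drop (u * fs P d)) j x y
      = (ringOps S).gF d ((ringOps S).rhsV P d (if u < n1 then 0 else n1) V bl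
          ((T.getD u []).getD a none)) j x y := by
  have hlt : (j * (d + 1) + x) * (d + 1) + y < fs P d := by
    unfold fs
    nlinarith [Nat.mul_le_mul_right (d + 1) hj, Nat.mul_le_mul_right (d + 1)
      (Nat.mul_le_mul_right (d + 1) hj), Nat.mul_le_mul_right (d + 1) hx]
  have hfs : 0 < fs P d := by unfold fs; positivity
  have hlt2 : u * fs P d + ((j * (d + 1) + x) * (d + 1) + y) < T.length * fs P d := by
    nlinarith [Nat.mul_le_mul_right (fs P d) (Nat.succ_le_of_lt hu)]
  unfold Ops.gF
  rw [List.getD_eq_getElem?_getD, List.getElem?_drop, Ops.vecS, List.getElem?_map,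
    List.getElem?_range hlt2, Option.map_some, Option.getD_some]
  have h1 : (u * fs P d + ((j * (d + 1) + x) * (d + 1) + y)) / fs P d = u := by
    rw [Nat.add_div_of_dvd_right (Dvd.intro_left _ rfl), Nat.mul_div_cancel _ hfs,
      Nat.div_eq_of_lt hlt, Nat.add_zero]
  have h2 : (u * fs P d + ((j * (d + 1) + x) * (d + 1) + y)) % fs P d
      = (j * (d + 1) + x) * (d + 1) + y := by
    rw [Nat.add_comm, Nat.add_mul_mod_self_right, Nat.mod_eq_of_lt hlt]
  rw [h1, h2]

/-- The coefficient vector represents the functions of the states. -/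
theorem vec_rep {A B : List ℕ} (M : DMTT A B) {P d n1 o0 : ℕ}
    {T : List (List (Option (List Tok)))} {V : List S}
    (hP : ∀ m ∈ M.params, m ≤ P) (hB : ∀ n ∈ B, n ≤ P)
    (hT : ∀ q < M.params.length, ∀ a < A.length,
      (T.getD (o0 + q) []).getD a none = (M.rule q a).map Rhs.code)
    (ho : ∀ q < M.params.length, (if o0 + q < n1 then 0 else n1) = o0)
    (hl : ∀ q < M.params.length, o0 + q < T.length)
    (s : Tree) : Ranked A s → ∀ q < M.params.length,
      RepL P d (interpOf P d V)
        (((ringOps S).vecT P d n1 T V s).drop ((o0 + q) * fs P d)) (M.runB s q) := by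
  induction s with
  | node a r c ih =>
    rintro ⟨ha, hc⟩ q hq
    obtain ⟨hal, har⟩ := List.getElem?_eq_some_iff.1 ha
    rw [Ops.vecT]
    refine rep_congr (L := (ringOps S).rhsV P d o0 V
      (List.ofFn fun i => (ringOps S).vecT P d n1 T V (c i)) ((M.rule q a).map Rhs.code))
      (fun j x y hj hx hy => ?_) ?_
    · rw [gF_vecS (hl q hq) hj hx hy, hT q hq a hal, ho q hq]
    · cases hrule : M.rule q a with
      | none =>
        have : M.runB (.node a r c) q = fun _ => BT.bot := by
          funext ρ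
          rw [DMTT.runB, hrule]
        rw [this]
        exact rep_bot
      | some ζ =>
        have e1 : M.runB (.node a r c) q = fun ρ => ζ.evalB ρ fun i q' ρ' =>
            if h : i < r then M.runB (c ⟨i, h⟩) q' ρ' else .bot := by
          funext ρ
          rw [DMTT.runB, hrule]
        rw [e1]
        have hm : M.params[q]? = some M.params[q] := List.getElem?_eq_getElem hq
        obtain ⟨L, h1, h2⟩ := rhs_rep (S := S) (P := P) (d := d) (off := o0) (V := V)
          (bl := List.ofFn fun i => (ringOps S).vecT P d n1 T V (c i)) (B := B)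
          (Q := M.params) (m := M.params[q]) (r := r)
          (fun i q' ρ' => if h : i < r then M.runB (c ⟨i, h⟩) q' ρ' else .bot)
          (hP _ (List.getElem_mem hq))
          (fun b n hb => hB n (List.mem_of_getElem? hb))
          (by
            intro i q' n hi hq'
            obtain ⟨hql, _⟩ := List.getElem?_eq_some_iff.1 hq'
            rw [ofFn_getD, dif_pos hi]
            have := ih ⟨i, hi⟩ (hc ⟨i, hi⟩) q' hql
            convert this using 2 with ρ'
            rw [dif_pos hi]) ζ (M.wf q _ a r ζ hm ha hrule)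
        rw [Ops.rhsV, Option.map_some, Option.getD_some, h1 []]
        exact h2

end Pool.Agent.Lib.MP_39893a_lc
end

section
/-!
# The vanishing of the targets and the transducers (MP_39893a_lc)
-/
set_option autoImplicit false

open Finset

namespace Pool.Agent.Lib.MP_39893a_lc

/-- Sum of a list. -/
def lsum (l : List ℕ) : ℕ := l.foldr (fun a b => a + b) 0

theorem le_lsum {l : List ℕ} {a : ℕ} (h : a ∈ l) : a ≤ lsum l := by
  induction l with
  | nil => simp at h
  | cons b l ih =>
    rw [lsum, List.foldr_cons]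
    rcases List.mem_cons.1 h with rfl | h
    · exact Nat.le_add_right _ _
    · exact (ih h).trans (Nat.le_add_left _ _)

/-- The input of the decision procedure. -/
abbrev Inp : Type := ℕ × List ℕ × List ℕ × Code × Code

/-- The system of an input. -/
def norm (x : Inp) : Sys :=
  (lsum x.2.2.2.1.1 + lsum x.2.2.2.2.1 + lsum x.2.2.1, x.1 + 1, x.2.2.1.length,
    x.2.2.2.1.2.length, x.2.1, x.2.2.2.1.2 ++ x.2.2.2.2.2)

/-! ## Outputs are ranked -/

theorem Rhs.eval_ranked {B Q : List ℕ} {m r : ℕ} {ρ : ℕ → Option Tree}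
    {f : ℕ → ℕ → (ℕ → Option Tree) → Option Tree}
    (hρ : ∀ j t, ρ j = some t → Ranked B t)
    (hf : ∀ i q n ρ', i < r → Q[q]? = some n → (∀ (j : ℕ) t, ρ' j = some t → Ranked B t) →
      ∀ t, f i q ρ' = some t → Ranked B t) (ζ : Rhs) :
    ζ.WF B Q m r → ∀ t, ζ.eval ρ f = some t → Ranked B t := by
  induction ζ with
  | param j => intro _ t ht; exact hρ j t ht
  | out b n c ih =>
    rintro ⟨hb, hc⟩ t ht
    rw [Rhs.eval] at ht
    split at ht
    · next h =>
      rw [← Option.some.inj ht]
      exact ⟨hb, fun i => ih i (hc i) _ (Option.some_get (h i)).symm⟩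
    · cases ht
  | call q i n c ih =>
    rintro ⟨hq, hi, hc⟩ t ht
    rw [Rhs.eval] at ht
    refine hf i q n _ hi hq ?_ t ht
    intro l t' ht'
    split at ht'
    · exact ih _ (hc _) t' ht'
    · cases ht'

theorem DMTT.run_ranked {A B : List ℕ} (M : DMTT A B) (s : Tree) : Ranked A s →
    ∀ q m ρ, M.params[q]? = some m → (∀ (j : ℕ) t, ρ j = some t → Ranked B t) →
      ∀ t, M.run s q ρ = some t → Ranked B t := by
  induction s with
  | node a r c ih =>
    rintro ⟨ha, hc⟩ q m ρ hq hρ t ht
    rw [DMTT.run] at ht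
    cases hrule : M.rule q a with
    | none => rw [hrule] at ht; cases ht
    | some ζ =>
      rw [hrule] at ht
      refine Rhs.eval_ranked (Q := M.params) (m := m) (r := r) hρ ?_ ζ
        (M.wf q m a r ζ hq ha hrule) t ht
      intro i q' n ρ' hi hq' hρ' t' ht'
      rw [dif_pos hi] at ht'
      exact ih ⟨i, hi⟩ (hc _) q' n ρ' hq' hρ' t' ht'

theorem DMTT.tau_ranked {A B : List ℕ} (M : DMTT A B) {s t : Tree} (hs : Ranked A s)
    (h : M.tau s = some t) : Ranked B t :=
  M.run_ranked s hs 0 0 _ M.init (fun j t ht => by cases ht) t h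

/-! ## The value of a form without parameters -/

section form

variable {S : Type} [CommRing S] {P d : ℕ} {I : Interp S}

theorem nbres_rep {L : List S} {g : (ℕ → BT) → BT} (h : RepL P d I L g) :
    (ringOps S).nbres P d L = ind S (g fun _ => BT.bot).good := by
  obtain ⟨_, p, occ, h2, h3, h4⟩ := h
  rw [Ops.nbres, h2, ringOps_prod]
  have : ∀ j ∈ range P, (ringOps S).co ((ringOps S).gF d L (j + 1) d 0) = ind S (¬occ j) := by
    intro j hj
    rw [ringOps_co, h3 j (Finset.mem_range.1 hj), one_sub_ind]
  rw [Finset.prod_congr rfl this, prod_ind]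
  refine (ind_mul _ _).trans ?_
  congr 1
  apply propext
  rw [h4]
  simp [BT.good]

theorem coef_rep {L : List S} {g : (ℕ → BT) → BT} (h : RepL P d I L g) {x : ℕ} (hx : x < d) :
    (ringOps S).gF d L 0 x 0 = WB d I (g fun _ => BT.bot) x := by
  rw [h.1 _ x hx]
  simp [WB]

end form

/-! ## The system of two transducers -/

section sys

variable {A B : List ℕ} (M₁ M₂ : DMTT A B) (k : ℕ)

/-- The input given by two transducers. -/
def inp : Inp := (k, A, B, M₁.code, M₂.code)

theorem code_length (M : DMTT A B) : M.code.2.length = M.params.length := by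
  simp [DMTT.code]

theorem code_getD (M : DMTT A B) {q a : ℕ} (hq : q < M.params.length) (ha : a < A.length) :
    (M.code.2.getD q []).getD a none = (M.rule q a).map Rhs.code := by
  rw [DMTT.code, List.getD_eq_getElem?_getD, List.getD_eq_getElem?_getD, List.getElem?_map,
    List.getElem?_range hq, Option.map_some, Option.getD_some, List.getElem?_map,
    List.getElem?_range ha, Option.map_some, Option.getD_some]

theorem norm_P : (norm (inp M₁ M₂ k)).P = lsum M₁.params + lsum M₂.params + lsum B := rfl
theorem norm_d : (norm (inp M₁ M₂ k)).d = k + 1 := rfl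
theorem norm_n1 : (norm (inp M₁ M₂ k)).n1 = M₁.params.length := code_length M₁
theorem norm_T : (norm (inp M₁ M₂ k)).T = M₁.code.2 ++ M₂.code.2 := rfl
theorem norm_A : (norm (inp M₁ M₂ k)).A = A := rfl
theorem norm_nB : (norm (inp M₁ M₂ k)).nB = B.length := rfl

variable {S : Type} [CommRing S]

theorem rep1 (V : List S) (t : Tree) (ht : Ranked A t) :
    RepL (norm (inp M₁ M₂ k)).P (k + 1) (interpOf (norm (inp M₁ M₂ k)).P (k + 1) V)
      ((ringOps S).vecT (norm (inp M₁ M₂ k)).P (k + 1) (norm (inp M₁ M₂ k)).n1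
        (norm (inp M₁ M₂ k)).T V t) (M₁.runB t 0) := by
  have h0 : 0 < M₁.params.length := by
    obtain ⟨h, _⟩ := List.getElem?_eq_some_iff.1 M₁.init
    exact h
  have := vec_rep M₁ (P := (norm (inp M₁ M₂ k)).P) (d := k + 1) (n1 := (norm (inp M₁ M₂ k)).n1)
    (o0 := 0) (T := (norm (inp M₁ M₂ k)).T) (V := V)
    (fun m hm => by rw [norm_P]; have := le_lsum hm; omega)
    (fun m hm => by rw [norm_P]; have := le_lsum hm; omega)
    (fun q hq a ha => by
      rw [norm_T, Nat.zero_add, List.getD_append _ _ _ _ (by rw [code_length]; exact hq),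
        code_getD M₁ hq ha])
    (fun q hq => by rw [norm_n1, Nat.zero_add, if_pos hq])
    (fun q hq => by
      rw [norm_T, List.length_append, code_length]
      omega) t ht 0 h0
  simpa using this

theorem rep2 (V : List S) (t : Tree) (ht : Ranked A t) :
    RepL (norm (inp M₁ M₂ k)).P (k + 1) (interpOf (norm (inp M₁ M₂ k)).P (k + 1) V)
      (((ringOps S).vecT (norm (inp M₁ M₂ k)).P (k + 1) (norm (inp M₁ M₂ k)).n1
        (norm (inp M₁ M₂ k)).T V t).drop
          ((norm (inp M₁ M₂ k)).n1 * fs (norm (inp M₁ M₂ k)).P (k + 1))) (M₂.runB t 0) := by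
  have h0 : 0 < M₂.params.length := by
    obtain ⟨h, _⟩ := List.getElem?_eq_some_iff.1 M₂.init
    exact h
  have := vec_rep M₂ (P := (norm (inp M₁ M₂ k)).P) (d := k + 1) (n1 := (norm (inp M₁ M₂ k)).n1)
    (o0 := (norm (inp M₁ M₂ k)).n1) (T := (norm (inp M₁ M₂ k)).T) (V := V)
    (fun m hm => by rw [norm_P]; have := le_lsum hm; omega)
    (fun m hm => by rw [norm_P]; have := le_lsum hm; omega)
    (fun q hq a ha => by
      rw [norm_T, norm_n1, List.getD_append_right _ _ _ _ (by rw [code_length]; omega),
        code_length, Nat.add_sub_cancel_left, code_getD M₂ hq ha])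
    (fun q hq => by rw [if_neg (by omega)])
    (fun q hq => by
      rw [norm_T, norm_n1, List.length_append, code_length, code_length]
      omega) t ht 0 h0
  simpa using this

/-- Values of the targets. -/
theorem target_dom (V : List S) (t : Tree) (ht : Ranked A t) :
    (ringOps S).target (norm (inp M₁ M₂ k)).P (k + 1) (norm (inp M₁ M₂ k)).n1
      ((ringOps S).vecT (norm (inp M₁ M₂ k)).P (k + 1) (norm (inp M₁ M₂ k)).n1
        (norm (inp M₁ M₂ k)).T V t) (k + 1)
      = ind S (M₁.tau t).isSome - ind S (M₂.tau t).isSome := by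
  unfold Ops.target
  rw [if_pos rfl, nbres_rep (rep1 M₁ M₂ k V t ht), nbres_rep (rep2 M₁ M₂ k V t ht)]
  rw [BT.good_iff, BT.good_iff, DMTT.strip_tau, DMTT.strip_tau, sub_eq_add_neg]
  rfl

theorem target_val (V : List S) (t : Tree) (ht : Ranked A t) {e : ℕ} (he : e < k + 1) :
    (ringOps S).target (norm (inp M₁ M₂ k)).P (k + 1) (norm (inp M₁ M₂ k)).n1
      ((ringOps S).vecT (norm (inp M₁ M₂ k)).P (k + 1) (norm (inp M₁ M₂ k)).n1
        (norm (inp M₁ M₂ k)).T V t) e
      = ind S (M₁.tau t).isSome *
        (WB (k + 1) (interpOf (norm (inp M₁ M₂ k)).P (k + 1) V) (M₁.runB t 0 fun _ => .bot) e -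
         WB (k + 1) (interpOf (norm (inp M₁ M₂ k)).P (k + 1) V) (M₂.runB t 0 fun _ => .bot) e) := by
  unfold Ops.target
  rw [if_neg he.ne, nbres_rep (rep1 M₁ M₂ k V t ht), coef_rep (rep1 M₁ M₂ k V t ht) he,
    coef_rep (rep2 M₁ M₂ k V t ht) he, BT.good_iff, DMTT.strip_tau, sub_eq_add_neg]
  rfl

/-- Equivalent transducers satisfy the decided statement. -/
theorem raw_of_equiv (h : ∀ t, Ranked A t → M₁.tau t = M₂.tau t) :
    Raw (norm (inp M₁ M₂ k)) := by
  intro t ht V hV e he
  rw [norm_A] at ht
  rw [norm_d] at he ⊢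
  rcases Nat.lt_succ_iff_lt_or_eq.1 he with he | rfl
  · rw [target_val M₁ M₂ k V t ht he]
    cases h1 : M₁.tau t with
    | none =>
      rw [ind_false (by simp), zero_mul]
    | some u =>
      have h2 : M₂.tau t = some u := by rw [← h t ht, h1]
      rw [WB_strip _ _ _ u (by rw [DMTT.strip_tau, h1]), WB_strip _ _ _ u
        (by rw [DMTT.strip_tau, h2]), sub_self, mul_zero]
  · rw [target_dom M₁ M₂ k V t ht, h t ht, sub_self]

/-- The decided statement: domains. -/
theorem dom_of_raw (h : Raw (norm (inp M₁ M₂ k))) (t : Tree) (ht : Ranked A t) :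
    (M₁.tau t).isSome = (M₂.tau t).isSome := by
  have h1 := h t ht (List.replicate (norm (inp M₁ M₂ k)).nV 0) (List.length_replicate) (k + 1)
    (Nat.lt_succ_self _)
  rw [norm_d, target_dom M₁ M₂ k _ t ht] at h1
  cases hb1 : (M₁.tau t).isSome <;> cases hb2 : (M₂.tau t).isSome <;>
    simp_all [ind]

/-- The decided statement: integer interpretations. -/
theorem val_of_raw (h : Raw (norm (inp M₁ M₂ k))) (t : Tree) (ht : Ranked A t) {u₁ u₂ : Tree}
    (h1 : M₁.tau t = some u₁) (h2 : M₂.tau t = some u₂) (V : List ℤ)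
    (hV : V.length = (norm (inp M₁ M₂ k)).nV) {e : ℕ} (he : e < k + 1) :
    W (k + 1) (interpOf (norm (inp M₁ M₂ k)).P (k + 1) V) u₁ e
      = W (k + 1) (interpOf (norm (inp M₁ M₂ k)).P (k + 1) V) u₂ e := by
  have h3 := h t ht V hV e (by rw [norm_d]; omega)
  rw [norm_d, target_val M₁ M₂ k V t ht he, ind_true (by rw [h1]; rfl), one_mul,
    WB_strip _ _ _ u₁ (by rw [DMTT.strip_tau, h1]),
    WB_strip _ _ _ u₂ (by rw [DMTT.strip_tau, h2])] at h3
  exact sub_eq_zero.1 h3

end sys

/-- The interpretation of the image of a list. -/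
theorem interpOf_map {S T : Type} [CommRing S] [CommRing T] (f : S →+* T) (P d : ℕ)
    (V : List S) : (interpOf P d V).map f = interpOf P d (V.map f) := by
  unfold interpOf Interp.map
  congr 1
  · funext b x
    rw [map_getD f, map_zero]
  · funext b i x y
    rw [map_getD f, map_zero]

/-- From integer interpretations to all interpretations. -/
theorem sim_of_int {B : List ℕ} {P d : ℕ} (hB : ∀ n ∈ B, n ≤ P) {u₁ u₂ : Tree}
    (hu₁ : Ranked B u₁) (hu₂ : Ranked B u₂)
    (h : ∀ V : List ℤ, V.length = B.length * fs P d → ∀ e < d,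
      W d (interpOf P d V) u₁ e = W d (interpOf P d V) u₂ e) : Sim d u₁ u₂ := by
  intro S _ I e he
  -- generic interpretation
  let n := B.length * fs P d
  let G : List (MvPolynomial (Fin n) ℤ) := List.ofFn fun i => MvPolynomial.X i
  have hG : W d (interpOf P d G) u₁ e = W d (interpOf P d G) u₂ e := by
    apply MvPolynomial.funext
    intro x
    rw [← W_map (MvPolynomial.eval x), ← W_map (MvPolynomial.eval x), interpOf_map]
    have hx : (fun i : Fin n => (List.ofFn x).getD i 0) = x := by
      funext i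
      rw [List.getD_eq_getElem?_getD, List.getElem?_ofFn, dif_pos i.2]
      rfl
    have e2 : G.map (MvPolynomial.eval x) = List.ofFn x := by
      have := gen_map n (List.ofFn x) List.length_ofFn
      rwa [hx] at this
    rw [e2]
    exact h _ List.length_ofFn e he
  -- the coefficients of `I`
  let v : ℕ → S := fun t =>
    if t % fs P d / (d + 1) / (d + 1) = 0 then
      I.C (t / fs P d) (t % fs P d / (d + 1) % (d + 1))
    else I.A (t / fs P d) (t % fs P d / (d + 1) / (d + 1) - 1)
      (t % fs P d / (d + 1) % (d + 1)) (t % fs P d % (d + 1))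
  let ψ : MvPolynomial (Fin n) ℤ →+* S :=
    MvPolynomial.eval₂Hom (Int.castRingHom S) fun i : Fin n => v i
  have hψ : G.map ψ = List.ofFn fun i : Fin n => v i := by
    rw [List.map_ofFn]
    congr 1
    funext i
    simp [ψ]
  have hval : ∀ b j x y, b < B.length → j ≤ P → x < d → y < d →
      (G.map ψ).getD (b * fs P d + ((j * (d + 1) + x) * (d + 1) + y)) 0
        = if j = 0 then I.C b x else I.A b (j - 1) x y := by
    intro b j x y hb hj hx hy
    have hlt : (j * (d + 1) + x) * (d + 1) + y < fs P d := by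
      unfold fs
      nlinarith [Nat.mul_le_mul_right (d + 1) hj, Nat.mul_le_mul_right (d + 1)
        (Nat.mul_le_mul_right (d + 1) hj), Nat.mul_le_mul_right (d + 1) hx.le]
    have hfs : 0 < fs P d := by unfold fs; positivity
    have hlt2 : b * fs P d + ((j * (d + 1) + x) * (d + 1) + y) < n := by
      show _ < B.length * fs P d
      nlinarith [Nat.mul_le_mul_right (fs P d) (Nat.succ_le_of_lt hb)]
    rw [hψ, List.getD_eq_getElem?_getD, List.getElem?_ofFn, dif_pos hlt2, Option.getD_some]
    have h1 : (b * fs P d + ((j * (d + 1) + x) * (d + 1) + y)) / fs P d = b := by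
      rw [Nat.add_div_of_dvd_right (Dvd.intro_left _ rfl), Nat.mul_div_cancel _ hfs,
        Nat.div_eq_of_lt hlt, Nat.add_zero]
    have h2 : (b * fs P d + ((j * (d + 1) + x) * (d + 1) + y)) % fs P d
        = (j * (d + 1) + x) * (d + 1) + y := by
      rw [Nat.add_comm, Nat.add_mul_mod_self_right, Nat.mod_eq_of_lt hlt]
    have h3 : (j * (d + 1) + x) / (d + 1) = j := by
      rw [Nat.add_div_of_dvd_right (Dvd.intro_left _ rfl), Nat.mul_div_cancel _ (Nat.succ_pos d),
        Nat.div_eq_of_lt (by omega), Nat.add_zero]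
    have h4 : (j * (d + 1) + x) % (d + 1) = x := by
      rw [Nat.add_comm, Nat.add_mul_mod_self_right, Nat.mod_eq_of_lt (by omega)]
    show v _ = _
    simp only [v]
    rw [h1, h2, ix_div hy.le, ix_mod hy.le, h3, h4]
  have key : ∀ u, Ranked B u → ψ (W d (interpOf P d G) u e) = W d I u e := by
    intro u hu
    rw [← W_map, interpOf_map]
    refine W_congr d B _ _ (fun b x hb hx => ?_) (fun b i x y hb hi hx hy => ?_) u hu e he
    · have := hval b 0 x 0 hb (Nat.zero_le _) hx (lt_of_le_of_lt (Nat.zero_le _) hx)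
      rw [if_pos rfl, Nat.zero_mul, Nat.zero_add, Nat.add_zero] at this
      exact this
    · have hiP : i + 1 ≤ P := by
        have h1 : B.getD b 0 ≤ P := by
          rw [List.getD_eq_getElem?_getD, List.getElem?_eq_getElem hb]
          exact hB _ (List.getElem_mem hb)
        omega
      have := hval b (i + 1) x y hb hiP hx hy
      rw [if_neg (Nat.succ_ne_zero i), Nat.add_sub_cancel] at this
      exact this
  rw [← key u₁ hu₁, ← key u₂ hu₂, hG]

/-- The decided statement: outputs whose minimal DAG has bounded Strahler number agree. -/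
theorem eq_of_raw {A B : List ℕ} (M₁ M₂ : DMTT A B) (k : ℕ) (h : Raw (norm (inp M₁ M₂ k)))
    (t : Tree) (ht : Ranked A t) {u₁ u₂ : Tree} (h1 : M₁.tau t = some u₁)
    (h2 : M₂.tau t = some u₂) (hs : Thin k u₁ u₂) : u₁ = u₂ := by
  have hu₁ := M₁.tau_ranked ht h1
  have hu₂ := M₂.tau_ranked ht h2
  have hsim : Sim (k + 1) u₁ u₂ := by
    refine sim_of_int (P := (norm (inp M₁ M₂ k)).P) (B := B) (fun n hn => ?_) hu₁ hu₂
      fun V hV e he => val_of_raw M₁ M₂ k h t ht h1 h2 V hV he
    rw [norm_P]
    have := le_lsum hn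
    omega
  exact separation_thin B k u₁ u₂ hu₁ hu₂ hs hsim

end Pool.Agent.Lib.MP_39893a_lc
end

section
/-!
# The search for a counterexample (MP_39893a_lc)
-/
set_option autoImplicit false

namespace Pool.Agent.Lib.MP_39893a_lc

namespace SearchM

/-- Postfix code of an input tree. -/
def tcode : Tree → List ℕ
  | .node a _ c => (List.ofFn fun i => tcode (c i)).flatten ++ [a]

theorem foldl_flatten (f : ℕ × List (List (ℕ × ℕ)) → ℕ → ℕ × List (List (ℕ × ℕ))) :
    ∀ (r : ℕ) (code : Fin r → List ℕ) (L : Fin r → List (ℕ × ℕ)),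
      (∀ i, ∀ st, (code i).foldl f (0, st) = (0, L i :: st)) →
      ∀ st, (List.ofFn code).flatten.foldl f (0, st) = (0, (List.ofFn L).reverse ++ st) := by
  intro r
  induction r with
  | zero => intro code L _ st; simp
  | succ r ih =>
    intro code L h st
    rw [List.ofFn_succ, List.flatten_cons, List.foldl_append, h 0,
      ih (fun i => code i.succ) (fun i => L i.succ) (fun i => h i.succ), List.ofFn_succ,
      List.reverse_cons, List.append_assoc]
    rfl

theorem srun_tcode (s : Sys) (V : List (ℕ × ℕ)) (t : Tree) : Ranked s.A t →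
    ∀ st, (tcode t).foldl (sstep s V) (0, st) = (0, zz.vecT s.P s.d s.n1 s.T V t :: st) := by
  induction t with
  | node a r c ih =>
    intro ht st
    obtain ⟨ha, hr, hc⟩ := ranked_rk ht
    rw [tcode, List.foldl_append, foldl_flatten _ r _
      (fun i => zz.vecT s.P s.d s.n1 s.T V (c i)) (fun i => ih i (hc i)), List.foldl_cons,
      List.foldl_nil, sstep, hr]
    have hlen : ((List.ofFn fun i => zz.vecT s.P s.d s.n1 s.T V (c i)).reverse).length = r := by
      simp
    have h1 : (((List.ofFn fun i => zz.vecT s.P s.d s.n1 s.T V (c i)).reverse ++ st).take r).reverse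
        = List.ofFn fun i => zz.vecT s.P s.d s.n1 s.T V (c i) := by
      rw [List.take_append_of_le_length hlen.ge, List.take_of_length_le hlen.le,
        List.reverse_reverse]
    have h2 : ((List.ofFn fun i => zz.vecT s.P s.d s.n1 s.T V (c i)).reverse ++ st).drop r
        = st := by
      rw [List.drop_append_of_le_length hlen.ge, List.drop_of_length_le hlen.le, List.nil_append]
    dsimp only
    rw [h1, h2, Ops.vecT, if_pos]
    refine ⟨ha, ?_⟩
    rw [List.length_append, hlen]
    omega

theorem srun_sound (s : Sys) (V : List (ℕ × ℕ)) (w : List ℕ) : (srun s V w).1 = 0 →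
    ∀ F ∈ (srun s V w).2, ∃ t, Ranked s.A t ∧ zz.vecT s.P s.d s.n1 s.T V t = F := by
  induction w using List.reverseRecOn with
  | nil =>
    intro _ F hF
    simp [srun] at hF
  | append_singleton w a ih =>
    intro h F hF
    have e1 : srun s V (w ++ [a]) = sstep s V (srun s V w) a := by
      rw [srun, List.foldl_append]
      rfl
    rw [e1] at h hF
    rw [sstep] at h hF
    dsimp only at h hF
    split at h
    · next hcond =>
      have ih' := ih h
      rcases List.mem_cons.1 hF with rfl | hF
      · set L := ((srun s V w).2.take (s.rk a)).reverse with hL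
        have hlen : L.length = s.rk a := by
          rw [hL, List.length_reverse, List.length_take]
          exact min_eq_left hcond.2
        have hmem : ∀ i : Fin (s.rk a), ∃ t, Ranked s.A t ∧
            zz.vecT s.P s.d s.n1 s.T V t = L[(i : ℕ)]'(by rw [hlen]; exact i.2) := by
          intro i
          apply ih'
          have h1 : L[(i : ℕ)]'(by rw [hlen]; exact i.2) ∈ L := List.getElem_mem _
          have h2 : ∀ G ∈ L, G ∈ (srun s V w).2 := fun G hG =>
            List.mem_of_mem_take (List.mem_reverse.1 hG)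
          exact h2 _ h1
        choose c hc1 hc2 using hmem
        refine ⟨.node a (s.rk a) c, ⟨?_, hc1⟩, ?_⟩
        · show s.A[a]? = some (s.A.getD a 0)
          rw [List.getD_eq_getElem?_getD, List.getElem?_eq_getElem hcond.1]
          rfl
        · rw [Ops.vecT]
          congr 1
          apply List.ext_getElem
          · rw [List.length_ofFn, hlen]
          · intro i h1 h2
            rw [List.getElem_ofFn, hc2]
      · exact ih' F (List.mem_of_mem_drop hF)
    · exact absurd h one_ne_zero

end SearchM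

open SearchM

theorem specSearch : SpecSearch := by
  intro s
  constructor
  · intro h
    unfold Raw at h
    push Not at h
    obtain ⟨t, ht, V, hV, e, he, hne⟩ := h
    choose g hg using zv_surj
    have hmap : (V.map g).map zv = V := by
      rw [List.map_map]
      conv_rhs => rw [← List.map_id V]
      exact List.map_congr_left fun z _ => hg z
    refine ⟨(tcode t, V.map g, e), by simpa using hV, he, ?_⟩
    have hrun : srun s (V.map g) (tcode t)
        = (0, [zz.vecT s.P s.d s.n1 s.T (V.map g) t]) := srun_tcode s _ t ht []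
    dsimp only
    rw [hrun]
    refine ⟨rfl, by simp, ?_⟩
    rw [zeq_zero_iff, homZv.target]
    have h2 := homZv.vecT s.P s.d s.n1 s.T (V.map g) t
    rw [List.getD_cons_zero, h2, hmap]
    exact hne
  · rintro ⟨⟨w, V, e⟩, hV, he, h0, hlen, hne⟩ hraw
    dsimp only at hV he h0 hlen hne
    apply hne
    have hmem : (srun s V w).2.getD 0 [] ∈ (srun s V w).2 := by
      rw [List.getD_eq_getElem?_getD, List.getElem?_eq_getElem hlen]
      exact List.getElem_mem hlen
    obtain ⟨t, ht, hvt⟩ := srun_sound s V w h0 _ hmem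
    rw [zeq_zero_iff, homZv.target, ← hvt, homZv.vecT]
    exact hraw t ht (V.map zv) (by rw [List.length_map]; exact hV) e he

end Pool.Agent.Lib.MP_39893a_lc
end

section
/-!
# Accepted certificates are correct (MP_39893a_lc)
-/
set_option autoImplicit false

namespace Pool.Agent.Lib.MP_39893a_lc

open MvPolynomial

theorem gens_vanish (hG : SpecGrid) {s : Sys} {c : Cert} (h : Chk s c) (V : List ℤ)
    (hV : V.length = s.nV) (hD : (ringOps ℤ).evalP [V] c.D ≠ 0) (t : Tree) :
    Ranked s.A t → ∀ i < c.ps.length,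
      (ringOps ℤ).evalP [V, (ringOps ℤ).vecT s.P s.d s.n1 s.T V t] (c.p i) = 0 := by
  induction t with
  | node a r f ih =>
    intro ht i hi
    obtain ⟨ha, hr, hc⟩ := ranked_rk ht
    have key := (hG s c h).1 a ha i hi V
      (List.ofFn fun j => (ringOps ℤ).vecT s.P s.d s.n1 s.T V (f j)) hV
      (by rw [List.length_ofFn, hr])
      (by
        intro F hF
        obtain ⟨j, rfl⟩ := (List.mem_ofFn' _ _).1 hF
        rw [vecT_length]
        rfl)
    rw [Ops.lhs1, Ops.rhs1] at key
    have hz : (ringOps ℤ).sum (fun j => (ringOps ℤ).sum (fun l => (ringOps ℤ).mul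
        ((ringOps ℤ).evalP (V :: List.ofFn fun j => (ringOps ℤ).vecT s.P s.d s.n1 s.T V (f j))
          (c.cs a i j l))
        ((ringOps ℤ).evalP [V, (List.ofFn fun j =>
          (ringOps ℤ).vecT s.P s.d s.n1 s.T V (f j)).getD j []] (c.p l))) c.ps.length)
          (s.rk a) = 0 := by
      rw [show ∀ (g : ℕ → ℤ) (n : ℕ), (ringOps ℤ).sum g n = ∑ i ∈ Finset.range n, g i from
        fun g n => by
          induction n with
          | zero => simp [Ops.sum, ringOps]
          | succ n ih => rw [Ops.sum, ih, Finset.sum_range_succ]; rfl]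
      refine Finset.sum_eq_zero fun j hj => ?_
      rw [show ∀ (g : ℕ → ℤ) (n : ℕ), (ringOps ℤ).sum g n = ∑ i ∈ Finset.range n, g i from
        fun g n => by
          induction n with
          | zero => simp [Ops.sum, ringOps]
          | succ n ih => rw [Ops.sum, ih, Finset.sum_range_succ]; rfl]
      refine Finset.sum_eq_zero fun l hl => ?_
      have hjr : j < r := by rw [← hr]; exact Finset.mem_range.1 hj
      have e1 : (List.ofFn fun j => (ringOps ℤ).vecT s.P s.d s.n1 s.T V (f j)).getD j []
          = (ringOps ℤ).vecT s.P s.d s.n1 s.T V (f ⟨j, hjr⟩) := by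
        rw [List.getD_eq_getElem?_getD, List.getElem?_ofFn, dif_pos hjr]
        rfl
      rw [e1, ih ⟨j, hjr⟩ (hc _) l (Finset.mem_range.1 hl)]
      exact mul_zero _
    rw [hz] at key
    exact (mul_eq_zero.1 key).resolve_left hD

theorem specSound (hG : SpecGrid) : SpecSound := by
  intro s c h t ht V hV e he
  -- the product with the denominator vanishes for all `V`
  have key : ∀ V : List ℤ, V.length = s.nV → (ringOps ℤ).evalP [V] c.D *
      (ringOps ℤ).target s.P s.d s.n1 ((ringOps ℤ).vecT s.P s.d s.n1 s.T V t) e = 0 := by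
    intro V hV
    by_cases hD : (ringOps ℤ).evalP [V] c.D = 0
    · rw [hD, zero_mul]
    · have h2 := (hG s c h).2 e he V ((ringOps ℤ).vecT s.P s.d s.n1 s.T V t) hV
        (vecT_length _ _ _ _ _ _ _)
      rw [Ops.lhs2, Ops.rhs2] at h2
      refine Eq.trans h2 ?_
      rw [show ∀ (g : ℕ → ℤ) (n : ℕ), (ringOps ℤ).sum g n = ∑ i ∈ Finset.range n, g i from
        fun g n => by
          induction n with
          | zero => simp [Ops.sum, ringOps]
          | succ n ih => rw [Ops.sum, ih, Finset.sum_range_succ]; rfl]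
      refine Finset.sum_eq_zero fun l hl => ?_
      rw [gens_vanish hG h V hV hD t ht l (Finset.mem_range.1 hl)]
      exact mul_zero _
  -- generic point
  let G : List (MvPolynomial (Fin s.nV) ℤ) := List.ofFn fun i => X i
  let R := ringOps (MvPolynomial (Fin s.nV) ℤ)
  have hev : ∀ V : List ℤ, V.length = s.nV → ∀ e',
      eval (fun i : Fin s.nV => V.getD i 0) (R.evalP [G] e') = (ringOps ℤ).evalP [V] e' := by
    intro V hV e'
    have := (homRing (eval fun i : Fin s.nV => V.getD i 0)).evalP [G] e'
    rw [this]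
    simp only [List.map_cons, List.map_nil]
    rw [gen_map s.nV V hV]
  have hev2 : ∀ V : List ℤ, V.length = s.nV →
      eval (fun i : Fin s.nV => V.getD i 0)
        (R.target s.P s.d s.n1 (R.vecT s.P s.d s.n1 s.T G t) e)
        = (ringOps ℤ).target s.P s.d s.n1 ((ringOps ℤ).vecT s.P s.d s.n1 s.T V t) e := by
    intro V hV
    have := (homRing (eval fun i : Fin s.nV => V.getD i 0)).target s.P s.d s.n1
      (R.vecT s.P s.d s.n1 s.T G t) e
    rw [this]
    have h2 := (homRing (eval fun i : Fin s.nV => V.getD i 0)).vecT s.P s.d s.n1 s.T G t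
    rw [h2, gen_map s.nV V hV]
  have hprod : R.evalP [G] c.D *
      R.target s.P s.d s.n1 (R.vecT s.P s.d s.n1 s.T G t) e = 0 := by
    apply MvPolynomial.funext
    intro x
    have hx : (fun i : Fin s.nV => (List.ofFn x).getD i 0) = x := by
      funext i
      rw [List.getD_eq_getElem?_getD, List.getElem?_ofFn, dif_pos i.2]
      rfl
    have h1 := key (List.ofFn x) (List.length_ofFn)
    rw [map_mul, map_zero, ← hx, hev _ List.length_ofFn, hev2 _ List.length_ofFn, h1]
  have hDne : R.evalP [G] c.D ≠ 0 := by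
    intro h0
    apply h.2.1
    rw [zeq_zero_iff, homZv.evalP]
    have := hev (c.vst.map zv) (by rw [List.length_map]; exact h.1) c.D
    rw [h0, map_zero] at this
    exact this.symm
  have h0 := (mul_eq_zero.1 hprod).resolve_left hDne
  rw [← hev2 V hV, h0, map_zero]

end Pool.Agent.Lib.MP_39893a_lc
end
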