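import Pool.Agent.Lib.MP_39893a_lc.Spec
import Pool.Agent.Lib.MP_39893a_lc.Sound
import Pool.Agent.Lib.MP_39893a_lc.AlgSpec

section
/-!
# Primitive recursion of the stack machine (MP_39893a_lc)
-/
set_option autoImplicit false

namespace Pool.Agent.Lib.MP_39893a_lc.PRIMVECM

/-- Differences of natural numbers. -/
abbrev Z : Type := ℕ × ℕ

variable {γ : Type*} [Primcodable γ]

theorem pnat {n : γ → ℕ} (hn : Primrec n) : Primrec fun g => zz.nat (n g) :=
  hn.pair (Primrec.const 0)

theorem padd {a b : γ → Z} (ha : Primrec a) (hb : Primrec b) :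
    Primrec fun g => zz.add (a g) (b g) :=
  (Primrec.nat_add.comp (Primrec.fst.comp ha) (Primrec.fst.comp hb)).pair
    (Primrec.nat_add.comp (Primrec.snd.comp ha) (Primrec.snd.comp hb))

theorem pmul {a b : γ → Z} (ha : Primrec a) (hb : Primrec b) :
    Primrec fun g => zz.mul (a g) (b g) :=
  (Primrec.nat_add.comp
      (Primrec.nat_mul.comp (Primrec.fst.comp ha) (Primrec.fst.comp hb))
      (Primrec.nat_mul.comp (Primrec.snd.comp ha) (Primrec.snd.comp hb))).pair
    (Primrec.nat_add.comp
      (Primrec.nat_mul.comp (Primrec.fst.comp ha) (Primrec.snd.comp hb))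
      (Primrec.nat_mul.comp (Primrec.snd.comp ha) (Primrec.fst.comp hb)))

theorem pneg {a : γ → Z} (ha : Primrec a) : Primrec fun g => zz.neg (a g) :=
  (Primrec.snd.comp ha).pair (Primrec.fst.comp ha)

theorem pco {a : γ → Z} (ha : Primrec a) : Primrec fun g => zz.co (a g) :=
  padd (Primrec.const (zz.nat 1)) (pneg ha)

theorem psum {f : γ → ℕ → Z} {n : γ → ℕ} (hf : Primrec fun p : γ × ℕ => f p.1 p.2)
    (hn : Primrec n) : Primrec fun g => zz.sum (f g) (n g) := by
  have h : Primrec₂ fun (g : γ) (p : ℕ × Z) => zz.add p.2 (f g p.1) :=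
    padd (Primrec.snd.comp Primrec.snd)
      (hf.comp (Primrec.fst.pair (Primrec.fst.comp Primrec.snd)))
  refine (Primrec.nat_rec' hn (Primrec.const (zz.nat 0)) h).of_eq fun g => ?_
  generalize n g = k
  induction k with
  | zero => rfl
  | succ k ih => exact congrArg (fun z => zz.add z (f g k)) ih

theorem pprod {f : γ → ℕ → Z} {n : γ → ℕ} (hf : Primrec fun p : γ × ℕ => f p.1 p.2)
    (hn : Primrec n) : Primrec fun g => zz.prod (f g) (n g) := by
  have h : Primrec₂ fun (g : γ) (p : ℕ × Z) => zz.mul p.2 (f g p.1) :=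
    pmul (Primrec.snd.comp Primrec.snd)
      (hf.comp (Primrec.fst.pair (Primrec.fst.comp Primrec.snd)))
  refine (Primrec.nat_rec' hn (Primrec.const (zz.nat 1)) h).of_eq fun g => ?_
  generalize n g = k
  induction k with
  | zero => rfl
  | succ k ih => exact congrArg (fun z => zz.mul z (f g k)) ih

theorem pgF {d : γ → ℕ} {F : γ → List Z} {j x y : γ → ℕ} (hd : Primrec d) (hF : Primrec F)
    (hj : Primrec j) (hx : Primrec x) (hy : Primrec y) :
    Primrec fun g => zz.gF (d g) (F g) (j g) (x g) (y g) := by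
  have hd1 : Primrec fun g => d g + 1 := Primrec.succ.comp hd
  exact (Primrec.list_getD (zz.nat 0)).comp hF
    (Primrec.nat_add.comp
      (Primrec.nat_mul.comp (Primrec.nat_add.comp (Primrec.nat_mul.comp hj hd1) hx) hd1) hy)

theorem pfs {P d : γ → ℕ} (hP : Primrec P) (hd : Primrec d) : Primrec fun g => fs (P g) (d g) := by
  have hd1 : Primrec fun g => d g + 1 := Primrec.succ.comp hd
  exact Primrec.nat_mul.comp (Primrec.nat_mul.comp (Primrec.succ.comp hP) hd1) hd1

theorem pmkF {P d : γ → ℕ} {f : γ → ℕ → ℕ → ℕ → Z} (hP : Primrec P) (hd : Primrec d)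
    (hf : Primrec fun p : γ × ℕ × ℕ × ℕ => f p.1 p.2.1 p.2.2.1 p.2.2.2) :
    Primrec fun g => mkF (P g) (d g) (f g) := by
  have hd1 : Primrec fun p : γ × ℕ => d p.1 + 1 := Primrec.succ.comp (hd.comp Primrec.fst)
  have h1 : Primrec fun p : γ × ℕ => p.2 / (d p.1 + 1) := Primrec.nat_div.comp Primrec.snd hd1
  refine Primrec.list_map (Primrec.list_range.comp (pfs hP hd)) ?_
  exact hf.comp (Primrec.fst.pair ((Primrec.nat_div.comp h1 hd1).pair
    ((Primrec.nat_mod.comp h1 hd1).pair (Primrec.nat_mod.comp Primrec.snd hd1))))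

theorem pget {Fs : γ → List (List Z)} {i : γ → ℕ} (hF : Primrec Fs) (hi : Primrec i) :
    Primrec fun g => (Fs g).getD (i g) [] :=
  (Primrec.list_getD []).comp hF hi

theorem pappE {P d : γ → ℕ} {S : γ → List Z} {Fs : γ → List (List Z)} {j x y : γ → ℕ}
    (hP : Primrec P) (hd : Primrec d) (hS : Primrec S) (hF : Primrec Fs) (hj : Primrec j)
    (hx : Primrec x) (hy : Primrec y) :
    Primrec fun g => zz.appE (P g) (d g) (S g) (Fs g) (j g) (x g) (y g) := by
  have hj0 : PrimrecPred fun g => j g = 0 := Primrec.eq.comp hj (Primrec.const 0)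
  have c0 : Primrec fun _ : γ => 0 := Primrec.const 0
  have f1 : Primrec (Prod.fst : γ × ℕ → γ) := Primrec.fst
  have f2 : Primrec (Prod.fst : (γ × ℕ) × ℕ → γ × ℕ) := Primrec.fst
  have s1 : Primrec (Prod.snd : γ × ℕ → ℕ) := Primrec.snd
  have s2 : Primrec (Prod.snd : (γ × ℕ) × ℕ → ℕ) := Primrec.snd
  have z1 : Primrec fun _ : γ × ℕ => 0 := Primrec.const 0
  have g1 : Primrec fun p : γ × ℕ => zz.gF (d p.1) (S p.1) (p.2 + 1) (d p.1) 0 :=
    pgF (hd.comp f1) (hS.comp f1) (Primrec.succ.comp s1) (hd.comp f1) z1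
  refine Primrec.ite (Primrec.eq.comp hx hd) (Primrec.ite hj0 ?_ ?_) ?_
  · exact pmul (pgF hd hS c0 hd c0) (pprod (pco (pmul g1
      (pco (pgF (hd.comp f1) (pget (hF.comp f1) s1) z1 (hd.comp f1) z1)))) hP)
  · exact pco (pprod (pco (pmul g1
      (pgF (hd.comp f1) (pget (hF.comp f1) s1) (hj.comp f1) (hd.comp f1) z1))) hP)
  · refine padd (Primrec.ite hj0 (pgF hd hS c0 hx c0) (Primrec.const (zz.nat 0))) (psum ?_ hP)
    refine psum (pmul ?_ ?_) (hd.comp f1)
    · exact pgF (hd.comp (f1.comp f2)) (hS.comp (f1.comp f2)) (Primrec.succ.comp (s1.comp f2))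
        (hx.comp (f1.comp f2)) s2
    · refine pgF (hd.comp (f1.comp f2)) (pget (hF.comp (f1.comp f2)) (s1.comp f2))
        (hj.comp (f1.comp f2)) s2 ?_
      exact Primrec.ite (hj0.comp (f1.comp f2)) (Primrec.const 0) (hy.comp (f1.comp f2))

theorem pparE {d q : γ → ℕ} {j x y : γ → ℕ} (hd : Primrec d) (hq : Primrec q) (hj : Primrec j)
    (hx : Primrec x) (hy : Primrec y) :
    Primrec fun g => zz.parE (d g) (q g) (j g) (x g) (y g) := by
  have hj0 : PrimrecPred fun g => j g = 0 := Primrec.eq.comp hj (Primrec.const 0)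
  have hjq : PrimrecPred fun g => j g = q g + 1 := Primrec.eq.comp hj (Primrec.succ.comp hq)
  refine Primrec.ite (Primrec.eq.comp hx hd)
    (Primrec.ite (hj0.or hjq) (Primrec.const (zz.nat 1)) (Primrec.const (zz.nat 0))) ?_
  exact Primrec.ite (hjq.and (Primrec.eq.comp hx hy)) (Primrec.const (zz.nat 1))
    (Primrec.const (zz.nat 0))

theorem psymE {P d : γ → ℕ} {V : γ → List Z} {b r j x y : γ → ℕ} (hP : Primrec P)
    (hd : Primrec d) (hV : Primrec V) (hb : Primrec b) (hr : Primrec r) (hj : Primrec j)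
    (hx : Primrec x) (hy : Primrec y) :
    Primrec fun g => zz.symE (P g) (d g) (V g) (b g) (r g) (j g) (x g) (y g) := by
  have hd1 : Primrec fun g => d g + 1 := Primrec.succ.comp hd
  refine Primrec.ite (Primrec.nat_le.comp hj hr)
    (Primrec.ite (Primrec.eq.comp hx hd) (Primrec.const (zz.nat 1)) ?_)
    (Primrec.const (zz.nat 0))
  exact (Primrec.list_getD (zz.nat 0)).comp hV (Primrec.nat_add.comp
    (Primrec.nat_mul.comp hb (pfs hP hd)) (Primrec.nat_add.comp
      (Primrec.nat_mul.comp (Primrec.nat_add.comp (Primrec.nat_mul.comp hj hd1) hx) hd1) hy))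

theorem pstepE {P d off : γ → ℕ} {V : γ → List Z} {bl st : γ → List (List Z)} {tk : γ → Tok}
    (hP : Primrec P) (hd : Primrec d) (ho : Primrec off) (hV : Primrec V) (hbl : Primrec bl)
    (hst : Primrec st) (htk : Primrec tk) :
    Primrec fun g => zz.step (P g) (d g) (off g) (V g) (bl g) (st g) (tk g) := by
  have t1 : Primrec fun g => (tk g).1 := Primrec.fst.comp htk
  have t2 : Primrec fun g => (tk g).2.1 := Primrec.fst.comp (Primrec.snd.comp htk)
  have t3 : Primrec fun g => (tk g).2.2.1 :=
    Primrec.fst.comp (Primrec.snd.comp (Primrec.snd.comp htk))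
  have t4 : Primrec fun g => (tk g).2.2.2 :=
    Primrec.snd.comp (Primrec.snd.comp (Primrec.snd.comp htk))
  have F : Primrec (Prod.fst : γ × ℕ × ℕ × ℕ → γ) := Primrec.fst
  have J : Primrec fun p : γ × ℕ × ℕ × ℕ => p.2.1 := Primrec.fst.comp Primrec.snd
  have X : Primrec fun p : γ × ℕ × ℕ × ℕ => p.2.2.1 :=
    Primrec.fst.comp (Primrec.snd.comp Primrec.snd)
  have Y : Primrec fun p : γ × ℕ × ℕ × ℕ => p.2.2.2 :=
    Primrec.snd.comp (Primrec.snd.comp Primrec.snd)
  have hc0 : PrimrecPred fun g => (tk g).1 = 0 := Primrec.eq.comp t1 (Primrec.const 0)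
  have hc1 : PrimrecPred fun g => (tk g).1 = 1 := Primrec.eq.comp t1 (Primrec.const 1)
  have tr3 : Primrec fun g => ((st g).take (tk g).2.2.1).reverse :=
    Primrec.list_reverse.comp (Primrec.list_take.comp t3 hst)
  have tr4 : Primrec fun g => ((st g).take (tk g).2.2.2).reverse :=
    Primrec.list_reverse.comp (Primrec.list_take.comp t4 hst)
  refine Primrec.ite hc0 ?_ (Primrec.ite hc1 ?_ ?_)
  · exact Primrec.list_cons.comp (pmkF hP hd (pparE (hd.comp F) (t2.comp F) J X Y)) hst
  · refine Primrec.list_cons.comp (pmkF hP hd (pappE (hP.comp F) (hd.comp F) ?_ (tr3.comp F)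
      J X Y)) (Primrec.list_drop.comp t3 hst)
    have hS : Primrec fun g => mkF (P g) (d g)
        (zz.symE (P g) (d g) (V g) (tk g).2.1 (tk g).2.2.1) :=
      pmkF hP hd (psymE (hP.comp F) (hd.comp F) (hV.comp F) (t2.comp F) (t3.comp F) J X Y)
    exact hS.comp F
  · refine Primrec.list_cons.comp (pmkF hP hd (pappE (hP.comp F) (hd.comp F) ?_ (tr4.comp F)
      J X Y)) (Primrec.list_drop.comp t4 hst)
    have hS : Primrec fun g =>
        ((bl g).getD (tk g).2.2.1 []).drop ((off g + (tk g).2.1) * fs (P g) (d g)) :=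
      Primrec.list_drop.comp (Primrec.nat_mul.comp (Primrec.nat_add.comp ho t2) (pfs hP hd))
        (pget hbl t3)
    exact hS.comp F

theorem pheadD {L : γ → List (List Z)} (hL : Primrec L) : Primrec fun g => (L g).headD [] := by
  have h : Primrec fun g => ((L g).head?).getD [] :=
    Primrec.option_getD.comp (Primrec.list_head?.comp hL) (Primrec.const [])
  refine h.of_eq fun g => ?_
  cases L g <;> rfl

theorem prhsV {P d off : γ → ℕ} {V : γ → List Z} {bl : γ → List (List Z)}
    {rhs : γ → Option (List Tok)} (hP : Primrec P) (hd : Primrec d) (ho : Primrec off)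
    (hV : Primrec V) (hbl : Primrec bl) (hr : Primrec rhs) :
    Primrec fun g => zz.rhsV (P g) (d g) (off g) (V g) (bl g) (rhs g) := by
  have F : Primrec (Prod.fst : γ × (List (List Z) × Tok) → γ) := Primrec.fst
  have hstep : Primrec₂ fun (g : γ) (p : List (List Z) × Tok) =>
      zz.step (P g) (d g) (off g) (V g) (bl g) p.1 p.2 :=
    pstepE (hP.comp F) (hd.comp F) (ho.comp F) (hV.comp F) (hbl.comp F)
      (Primrec.fst.comp Primrec.snd) (Primrec.snd.comp Primrec.snd)
  exact pheadD (Primrec.list_foldl (Primrec.option_getD.comp hr (Primrec.const []))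
    (Primrec.const []) hstep)

theorem pvecS {P d n1 : γ → ℕ} {T : γ → List (List (Option (List Tok)))} {a : γ → ℕ}
    {V : γ → List Z} {bl : γ → List (List Z)} (hP : Primrec P) (hd : Primrec d)
    (hn : Primrec n1) (hT : Primrec T) (ha : Primrec a) (hV : Primrec V) (hbl : Primrec bl) :
    Primrec fun g => zz.vecS (P g) (d g) (n1 g) (T g) (a g) (V g) (bl g) := by
  have F : Primrec (Prod.fst : γ × ℕ → γ) := Primrec.fst
  have S : Primrec (Prod.snd : γ × ℕ → ℕ) := Primrec.snd
  have hfs := pfs hP hd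
  have hq : Primrec fun p : γ × ℕ => p.2 / fs (P p.1) (d p.1) :=
    Primrec.nat_div.comp S (hfs.comp F)
  have hrow : Primrec fun p : γ × ℕ => (T p.1).getD (p.2 / fs (P p.1) (d p.1)) [] :=
    (Primrec.list_getD []).comp (hT.comp F) hq
  have hrhs : Primrec fun p : γ × ℕ =>
      ((T p.1).getD (p.2 / fs (P p.1) (d p.1)) []).getD (a p.1) none :=
    (Primrec.list_getD none).comp hrow (ha.comp F)
  have hoff : Primrec fun p : γ × ℕ => if p.2 / fs (P p.1) (d p.1) < n1 p.1 then 0 else n1 p.1 :=
    Primrec.ite (Primrec.nat_lt.comp hq (hn.comp F)) (Primrec.const 0) (hn.comp F)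
  refine Primrec.list_map
    (Primrec.list_range.comp (Primrec.nat_mul.comp (Primrec.list_length.comp hT) hfs)) ?_
  exact (Primrec.list_getD (zz.nat 0)).comp
    (prhsV (hP.comp F) (hd.comp F) hoff (hV.comp F) (hbl.comp F) hrhs)
    (Primrec.nat_mod.comp S (hfs.comp F))

theorem pnbres {P d : γ → ℕ} {X : γ → List Z} (hP : Primrec P) (hd : Primrec d)
    (hX : Primrec X) : Primrec fun g => zz.nbres (P g) (d g) (X g) := by
  have F : Primrec (Prod.fst : γ × ℕ → γ) := Primrec.fst
  have S : Primrec (Prod.snd : γ × ℕ → ℕ) := Primrec.snd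
  have c0 : Primrec fun _ : γ => 0 := Primrec.const 0
  exact pmul (pgF hd hX c0 hd c0) (pprod (pco (pgF (hd.comp F) (hX.comp F)
    (Primrec.succ.comp S) (hd.comp F) (Primrec.const 0))) hP)

theorem ptarget {P d n1 : γ → ℕ} {X : γ → List Z} {e : γ → ℕ} (hP : Primrec P) (hd : Primrec d)
    (hn : Primrec n1) (hX : Primrec X) (he : Primrec e) :
    Primrec fun g => zz.target (P g) (d g) (n1 g) (X g) (e g) := by
  have c0 : Primrec fun _ : γ => 0 := Primrec.const 0
  have hX' : Primrec fun g => (X g).drop (n1 g * fs (P g) (d g)) :=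
    Primrec.list_drop.comp (Primrec.nat_mul.comp hn (pfs hP hd)) hX
  exact Primrec.ite (Primrec.eq.comp he hd)
    (padd (pnbres hP hd hX) (pneg (pnbres hP hd hX')))
    (pmul (pnbres hP hd hX) (padd (pgF hd hX c0 he c0) (pneg (pgF hd hX' c0 he c0))))

/-! ### Projections of systems -/

variable {s : γ → Sys}

theorem sP (hs : Primrec s) : Primrec fun g => (s g).P := Primrec.fst.comp hs

theorem sd (hs : Primrec s) : Primrec fun g => (s g).d := Primrec.fst.comp (Primrec.snd.comp hs)

theorem snB (hs : Primrec s) : Primrec fun g => (s g).nB :=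
  Primrec.fst.comp (Primrec.snd.comp (Primrec.snd.comp hs))

theorem sn1 (hs : Primrec s) : Primrec fun g => (s g).n1 :=
  Primrec.fst.comp (Primrec.snd.comp (Primrec.snd.comp (Primrec.snd.comp hs)))

theorem sA (hs : Primrec s) : Primrec fun g => (s g).A :=
  Primrec.fst.comp (Primrec.snd.comp (Primrec.snd.comp (Primrec.snd.comp (Primrec.snd.comp hs))))

theorem sT (hs : Primrec s) : Primrec fun g => (s g).T :=
  Primrec.snd.comp (Primrec.snd.comp (Primrec.snd.comp (Primrec.snd.comp (Primrec.snd.comp hs))))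

theorem snV (hs : Primrec s) : Primrec fun g => (s g).nV :=
  Primrec.nat_mul.comp (snB hs) (pfs (sP hs) (sd hs))

theorem sN (hs : Primrec s) : Primrec fun g => (s g).N :=
  Primrec.nat_mul.comp (Primrec.list_length.comp (sT hs)) (pfs (sP hs) (sd hs))

theorem srk {a : γ → ℕ} (hs : Primrec s) (ha : Primrec a) : Primrec fun g => (s g).rk (a g) :=
  (Primrec.list_getD 0).comp (sA hs) ha

end Pool.Agent.Lib.MP_39893a_lc.PRIMVECM

namespace Pool.Agent.Lib.MP_39893a_lc

open PRIMVECM

theorem specPrimVec : SpecPrimVec := by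
  have F : Primrec (fun p : Sys × ℕ × List (ℕ × ℕ) × List (List (ℕ × ℕ)) => p.1) := Primrec.fst
  exact pvecS (sP F) (sd F) (sn1 F) (sT F) (Primrec.fst.comp Primrec.snd)
    (Primrec.fst.comp (Primrec.snd.comp Primrec.snd))
    (Primrec.snd.comp (Primrec.snd.comp Primrec.snd))

theorem specPrimTar : SpecPrimTar := by
  have F : Primrec (fun p : Sys × List (ℕ × ℕ) × ℕ => p.1) := Primrec.fst
  exact ptarget (sP F) (sd F) (sn1 F) (Primrec.fst.comp Primrec.snd)
    (Primrec.snd.comp Primrec.snd)

end Pool.Agent.Lib.MP_39893a_lc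
end

section
/-!
# Primitive recursion of the check and of the search (MP_39893a_lc)
-/
set_option autoImplicit false

namespace Pool.Agent.Lib.MP_39893a_lc.PRIMCHKM

open PRIMVECM

variable {γ : Type} [Primcodable γ]

theorem ppow {a b : γ → ℕ} (ha : Primrec a) (hb : Primrec b) : Primrec fun g => a g ^ b g :=
  (Primrec₂.unpaired'.1 Nat.Primrec.pow).comp ha hb

theorem pforall {Q : γ → ℕ → Prop} {n : γ → ℕ} (hQ : PrimrecPred fun p : γ × ℕ => Q p.1 p.2)
    (hn : Primrec n) : PrimrecPred fun g => ∀ x < n g, Q g x := by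
  have h : PrimrecRel fun (x : ℕ) (g : γ) => Q g x :=
    PrimrecPred.comp (p := fun p : γ × ℕ => Q p.1 p.2) (f := fun p : ℕ × γ => (p.2, p.1)) hQ
      (Primrec.snd.pair Primrec.fst)
  exact (h.forall_mem_list.comp (Primrec.list_range.comp hn) Primrec.id).of_eq fun g => by
    simp only [List.mem_range, id]

theorem pzeq {a b : γ → Z} (ha : Primrec a) (hb : Primrec b) :
    PrimrecPred fun g => zeq (a g) (b g) :=
  Primrec.eq.comp
    (Primrec.nat_add.comp (Primrec.fst.comp ha) (Primrec.snd.comp hb))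
    (Primrec.nat_add.comp (Primrec.fst.comp hb) (Primrec.snd.comp ha))

theorem pgz {F : γ → List Z} {i : γ → ℕ} (hF : Primrec F) (hi : Primrec i) :
    Primrec fun g => (F g).getD (i g) (zz.nat 0) :=
  (Primrec.list_getD (zz.nat 0)).comp hF hi

theorem ppstep {env : γ → List (List Z)} {st : γ → List Z} {tk : γ → PTok}
    (he : Primrec env) (hst : Primrec st) (htk : Primrec tk) :
    Primrec fun g => zz.pstep (env g) (st g) (tk g) := by
  have t1 : Primrec fun g => (tk g).1 := Primrec.fst.comp htk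
  have t2 : Primrec fun g => (tk g).2 := Primrec.snd.comp htk
  have c (n : ℕ) : PrimrecPred fun g => (tk g).1 = n := Primrec.eq.comp t1 (Primrec.const n)
  have a0 : Primrec fun g => (st g).getD 0 (zz.nat 0) := pgz hst (Primrec.const 0)
  have a1 : Primrec fun g => (st g).getD 1 (zz.nat 0) := pgz hst (Primrec.const 1)
  have d2 : Primrec fun g => (st g).drop 2 := Primrec.list_drop.comp (Primrec.const 2) hst
  have d1 : Primrec fun g => (st g).drop 1 := Primrec.list_drop.comp (Primrec.const 1) hst
  refine Primrec.ite (c 0) (Primrec.list_cons.comp (pnat t2) hst)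
    (Primrec.ite (c 1) (Primrec.list_cons.comp (padd a0 a1) d2)
      (Primrec.ite (c 2) (Primrec.list_cons.comp (pmul a0 a1) d2)
        (Primrec.ite (c 3) (Primrec.list_cons.comp (pneg a0) d1)
          (Primrec.list_cons.comp (pgz (pget he ?_) t2) hst))))
  exact Primrec.nat_sub.comp t1 (Primrec.const 4)

theorem pevalP {env : γ → List (List Z)} {e : γ → List PTok} (henv : Primrec env)
    (he : Primrec e) : Primrec fun g => zz.evalP (env g) (e g) := by
  have hstep : Primrec₂ fun (g : γ) (p : List Z × PTok) => zz.pstep (env g) p.1 p.2 :=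
    ppstep (henv.comp Primrec.fst) (Primrec.fst.comp Primrec.snd)
      (Primrec.snd.comp Primrec.snd)
  exact pgz (Primrec.list_foldl he (Primrec.const []) hstep) (Primrec.const 0)

/-! ### Certificates -/

variable {s : γ → Sys} {c : γ → Cert}

theorem cvst (hc : Primrec c) : Primrec fun g => (c g).vst := Primrec.fst.comp hc

theorem cD (hc : Primrec c) : Primrec fun g => (c g).D := Primrec.fst.comp (Primrec.snd.comp hc)

theorem cps (hc : Primrec c) : Primrec fun g => (c g).ps :=
  Primrec.fst.comp (Primrec.snd.comp (Primrec.snd.comp hc))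

theorem ccsl (hc : Primrec c) : Primrec fun g => (c g).csl :=
  Primrec.fst.comp (Primrec.snd.comp (Primrec.snd.comp (Primrec.snd.comp hc)))

theorem cesl (hc : Primrec c) : Primrec fun g => (c g).esl :=
  Primrec.snd.comp (Primrec.snd.comp (Primrec.snd.comp (Primrec.snd.comp hc)))

theorem cp {i : γ → ℕ} (hc : Primrec c) (hi : Primrec i) : Primrec fun g => (c g).p (i g) :=
  (Primrec.list_getD []).comp (cps hc) hi

theorem ccs {a i j l : γ → ℕ} (hc : Primrec c) (ha : Primrec a) (hi : Primrec i)
    (hj : Primrec j) (hl : Primrec l) : Primrec fun g => (c g).cs (a g) (i g) (j g) (l g) :=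
  (Primrec.list_getD []).comp (ccsl hc)
    (Primrec₂.natPair.comp ha (Primrec₂.natPair.comp hi (Primrec₂.natPair.comp hj hl)))

theorem ces {e l : γ → ℕ} (hc : Primrec c) (he : Primrec e) (hl : Primrec l) :
    Primrec fun g => (c g).es (e g) (l g) :=
  (Primrec.list_getD []).comp (cesl hc) (Primrec₂.natPair.comp he hl)

theorem ptlen {β : Type} [Primcodable β] {l : γ → List (List β)} (hl : Primrec l) :
    Primrec fun g => tlen (l g) := by
  have h : Primrec₂ fun (_ : γ) (p : List β × ℕ) => p.1.length + p.2 :=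
    Primrec.nat_add.comp (Primrec.list_length.comp (Primrec.fst.comp Primrec.snd))
      (Primrec.snd.comp Primrec.snd)
  exact Primrec.list_foldr hl (Primrec.const 0) h

theorem ptlenT {T : γ → List (List (Option (List Tok)))} (hT : Primrec T) :
    Primrec fun g => tlenT (T g) := by
  have hin : Primrec fun p : γ × (List (Option (List Tok)) × ℕ) =>
      p.2.1.foldr (fun x m => (x.getD []).length + m) 0 := by
    have h : Primrec₂ fun (_ : γ × (List (Option (List Tok)) × ℕ))
        (q : Option (List Tok) × ℕ) => (q.1.getD []).length + q.2 :=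
      Primrec.nat_add.comp (Primrec.list_length.comp (Primrec.option_getD.comp
        (Primrec.fst.comp Primrec.snd) (Primrec.const []))) (Primrec.snd.comp Primrec.snd)
    exact Primrec.list_foldr (Primrec.fst.comp Primrec.snd) (Primrec.const 0) h
  have h' : Primrec₂ fun (_ : γ) (p : List (Option (List Tok)) × ℕ) =>
      p.1.foldr (fun x m => (x.getD []).length + m) 0 + p.2 :=
    Primrec.nat_add.comp hin (Primrec.snd.comp Primrec.snd)
  exact Primrec.list_foldr hT (Primrec.const 0) h'

theorem pbnd (hs : Primrec s) (hc : Primrec c) : Primrec fun g => bnd (s g) (c g) := by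
  have h1 : Primrec fun g => 1 + ((s g).P + 1) * tlenT (s g).T :=
    Primrec.nat_add.comp (Primrec.const 1)
      (Primrec.nat_mul.comp (Primrec.succ.comp (sP hs)) (ptlenT (sT hs)))
  exact Primrec.nat_add.comp (Primrec.nat_add.comp (Primrec.nat_add.comp (Primrec.nat_add.comp
    (Primrec.nat_add.comp (Primrec.nat_add.comp (Primrec.list_length.comp (cD hc))
      (Primrec.nat_mul.comp (ptlen (cps hc)) h1)) (ptlen (ccsl hc))) (ptlen (cesl hc)))
    (ptlen (cps hc))) (sP hs)) (Primrec.const 4)

theorem plist1 {V : γ → List Z} (hV : Primrec V) : Primrec fun g => [V g] :=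
  Primrec.list_cons.comp hV (Primrec.const [])

theorem plist2 {V W : γ → List Z} (hV : Primrec V) (hW : Primrec W) :
    Primrec fun g => [V g, W g] :=
  Primrec.list_cons.comp hV (plist1 hW)

theorem plhs1 {a i : γ → ℕ} {V : γ → List Z} {bl : γ → List (List Z)} (hs : Primrec s)
    (hc : Primrec c) (ha : Primrec a) (hi : Primrec i) (hV : Primrec V) (hbl : Primrec bl) :
    Primrec fun g => zz.lhs1 (s g) (c g) (a g) (i g) (V g) (bl g) :=
  pmul (pevalP (plist1 hV) (cD hc))
    (pevalP (plist2 hV (pvecS (sP hs) (sd hs) (sn1 hs) (sT hs) ha hV hbl)) (cp hc hi))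

theorem prhs1 {a i : γ → ℕ} {V : γ → List Z} {bl : γ → List (List Z)} (hs : Primrec s)
    (hc : Primrec c) (ha : Primrec a) (hi : Primrec i) (hV : Primrec V) (hbl : Primrec bl) :
    Primrec fun g => zz.rhs1 (s g) (c g) (a g) (i g) (V g) (bl g) := by
  have f1 : Primrec (Prod.fst : γ × ℕ → γ) := Primrec.fst
  have f2 : Primrec (Prod.fst : (γ × ℕ) × ℕ → γ × ℕ) := Primrec.fst
  have s1 : Primrec (Prod.snd : γ × ℕ → ℕ) := Primrec.snd
  have s2 : Primrec (Prod.snd : (γ × ℕ) × ℕ → ℕ) := Primrec.snd
  have f12 := f1.comp f2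
  have s12 := s1.comp f2
  refine psum (psum (pmul ?_ ?_) ((Primrec.list_length.comp (cps hc)).comp f1)) (srk hs ha)
  · exact pevalP (Primrec.list_cons.comp (hV.comp f12) (hbl.comp f12))
      (ccs (hc.comp f12) (ha.comp f12) (hi.comp f12) s12 s2)
  · exact pevalP (plist2 (hV.comp f12) (pget (hbl.comp f12) s12)) (cp (hc.comp f12) s2)

theorem plhs2 {e : γ → ℕ} {V x : γ → List Z} (hs : Primrec s) (hc : Primrec c)
    (he : Primrec e) (hV : Primrec V) (hx : Primrec x) :
    Primrec fun g => zz.lhs2 (s g) (c g) (e g) (V g) (x g) :=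
  pmul (pevalP (plist1 hV) (cD hc)) (ptarget (sP hs) (sd hs) (sn1 hs) hx he)

theorem prhs2 {e : γ → ℕ} {V x : γ → List Z} (hc : Primrec c)
    (he : Primrec e) (hV : Primrec V) (hx : Primrec x) :
    Primrec fun g => zz.rhs2 (c g) (e g) (V g) (x g) := by
  have f1 : Primrec (Prod.fst : γ × ℕ → γ) := Primrec.fst
  have s1 : Primrec (Prod.snd : γ × ℕ → ℕ) := Primrec.snd
  refine psum (pmul ?_ ?_) (Primrec.list_length.comp (cps hc))
  · exact pevalP (plist2 (hV.comp f1) (hx.comp f1)) (ces (hc.comp f1) (he.comp f1) s1)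
  · exact pevalP (plist2 (hV.comp f1) (hx.comp f1)) (cp (hc.comp f1) s1)

theorem pdig {B z t : γ → ℕ} (hB : Primrec B) (hz : Primrec z) (ht : Primrec t) :
    Primrec fun g => dig (B g) (z g) (t g) :=
  Primrec.nat_mod.comp (Primrec.nat_div.comp hz (ppow hB ht)) hB

theorem pgridV {B z n : γ → ℕ} (hB : Primrec B) (hz : Primrec z) (hn : Primrec n) :
    Primrec fun g => gridV (B g) (z g) (n g) := by
  refine Primrec.list_map (Primrec.list_range.comp hn) ?_
  exact (pdig (hB.comp Primrec.fst) (hz.comp Primrec.fst) Primrec.snd).pair (Primrec.const 0)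

theorem pgridB {B z nV N i : γ → ℕ} (hB : Primrec B) (hz : Primrec z) (hn : Primrec nV)
    (hN : Primrec N) (hi : Primrec i) :
    Primrec fun g => gridB (B g) (z g) (nV g) (N g) (i g) := by
  refine Primrec.list_map (Primrec.list_range.comp hN) ?_
  refine (pdig (hB.comp Primrec.fst) (hz.comp Primrec.fst) ?_).pair (Primrec.const 0)
  exact Primrec.nat_add.comp ((Primrec.nat_add.comp hn (Primrec.nat_mul.comp hi hN)).comp
    Primrec.fst) Primrec.snd

theorem pgridBl {B z nV N r : γ → ℕ} (hB : Primrec B) (hz : Primrec z) (hn : Primrec nV)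
    (hN : Primrec N) (hr : Primrec r) :
    Primrec fun g => gridBl (B g) (z g) (nV g) (N g) (r g) := by
  refine Primrec.list_map (Primrec.list_range.comp hr) ?_
  exact pgridB (hB.comp Primrec.fst) (hz.comp Primrec.fst) (hn.comp Primrec.fst)
    (hN.comp Primrec.fst) Primrec.snd

theorem ptest1 {a i z : γ → ℕ} (hs : Primrec s) (hc : Primrec c) (ha : Primrec a)
    (hi : Primrec i) (hz : Primrec z) :
    PrimrecPred fun g => test1 (s g) (c g) (a g) (i g) (z g) := by
  have hV := pgridV (pbnd hs hc) hz (snV hs)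
  have hb := pgridBl (pbnd hs hc) hz (snV hs) (sN hs) (srk hs ha)
  exact pzeq (plhs1 hs hc ha hi hV hb) (prhs1 hs hc ha hi hV hb)

theorem ptest2 {e z : γ → ℕ} (hs : Primrec s) (hc : Primrec c) (he : Primrec e)
    (hz : Primrec z) : PrimrecPred fun g => test2 (s g) (c g) (e g) (z g) := by
  have hV := pgridV (pbnd hs hc) hz (snV hs)
  have hb := pgridB (pbnd hs hc) hz (snV hs) (sN hs) (Primrec.const 0)
  exact pzeq (plhs2 hs hc he hV hb) (prhs2 hc he hV hb)

theorem pChk (hs : Primrec s) (hc : Primrec c) : PrimrecPred fun g => Chk (s g) (c g) := by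
  have f1 : Primrec (Prod.fst : γ × ℕ → γ) := Primrec.fst
  have f2 : Primrec (Prod.fst : (γ × ℕ) × ℕ → γ × ℕ) := Primrec.fst
  have f3 : Primrec (Prod.fst : ((γ × ℕ) × ℕ) × ℕ → (γ × ℕ) × ℕ) := Primrec.fst
  have s1 : Primrec (Prod.snd : γ × ℕ → ℕ) := Primrec.snd
  have s2 : Primrec (Prod.snd : (γ × ℕ) × ℕ → ℕ) := Primrec.snd
  have s3 : Primrec (Prod.snd : ((γ × ℕ) × ℕ) × ℕ → ℕ) := Primrec.snd
  have f123 := f1.comp (f2.comp f3)
  have s12 : Primrec fun p : (γ × ℕ) × ℕ => p.1.2 := s1.comp f2
  refine (Primrec.eq.comp (Primrec.list_length.comp (cvst hc)) (snV hs)).and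
    ((pzeq (pevalP (plist1 (cvst hc)) (cD hc)) (Primrec.const (0, 0))).not.and
      (PrimrecPred.and ?_ ?_))
  · refine pforall (pforall (pforall ?_ ?_)
      ((Primrec.list_length.comp (cps hc)).comp f1)) (Primrec.list_length.comp (sA hs))
    · exact ptest1 (hs.comp f123) (hc.comp f123) (s12.comp f3) (s2.comp f3) s3
    · refine ppow ((pbnd hs hc).comp (f1.comp f2)) ?_
      exact Primrec.nat_add.comp ((snV hs).comp (f1.comp f2))
        (Primrec.nat_mul.comp (srk (hs.comp (f1.comp f2)) s12) ((sN hs).comp (f1.comp f2)))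
  · refine pforall (pforall ?_ ?_) (Primrec.succ.comp (sd hs))
    · exact ptest2 (hs.comp (f1.comp f2)) (hc.comp (f1.comp f2)) s12 s2
    · have hb : Primrec fun g => bnd (s g) (c g) ^ ((s g).nV + 1 * (s g).N) :=
        ppow (pbnd hs hc)
          (Primrec.nat_add.comp (snV hs) (Primrec.nat_mul.comp (Primrec.const 1) (sN hs)))
      exact hb.comp f1

/-! ### The search -/

theorem psstep {V : γ → List Z} {st : γ → ℕ × List (List Z)} {a : γ → ℕ} (hs : Primrec s)
    (hV : Primrec V) (hst : Primrec st) (ha : Primrec a) :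
    Primrec fun g => sstep (s g) (V g) (st g) (a g) := by
  have h2 : Primrec fun g => (st g).2 := Primrec.snd.comp hst
  have hr := srk hs ha
  refine Primrec.pair (Primrec.ite ((Primrec.nat_lt.comp ha (Primrec.list_length.comp
    (sA hs))).and (Primrec.nat_le.comp hr (Primrec.list_length.comp h2)))
    (Primrec.fst.comp hst) (Primrec.const 1)) ?_
  exact Primrec.list_cons.comp (pvecS (sP hs) (sd hs) (sn1 hs) (sT hs) ha hV
    (Primrec.list_reverse.comp (Primrec.list_take.comp hr h2))) (Primrec.list_drop.comp hr h2)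

theorem psrun {V : γ → List Z} {w : γ → List ℕ} (hs : Primrec s) (hV : Primrec V)
    (hw : Primrec w) : Primrec fun g => srun (s g) (V g) (w g) := by
  have hstep : Primrec₂ fun (g : γ) (p : (ℕ × List (List Z)) × ℕ) =>
      sstep (s g) (V g) p.1 p.2 :=
    psstep (hs.comp Primrec.fst) (hV.comp Primrec.fst) (Primrec.fst.comp Primrec.snd)
      (Primrec.snd.comp Primrec.snd)
  exact Primrec.list_foldl hw (Primrec.const (0, [])) hstep

theorem pSrch {k : γ → List ℕ × List Z × ℕ} (hs : Primrec s) (hk : Primrec k) :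
    PrimrecPred fun g => Srch (s g) (k g) := by
  have k1 : Primrec fun g => (k g).1 := Primrec.fst.comp hk
  have k2 : Primrec fun g => (k g).2.1 := Primrec.fst.comp (Primrec.snd.comp hk)
  have k3 : Primrec fun g => (k g).2.2 := Primrec.snd.comp (Primrec.snd.comp hk)
  have hr := psrun hs k2 k1
  have hr2 := Primrec.snd.comp hr
  exact (Primrec.eq.comp (Primrec.list_length.comp k2) (snV hs)).and
    ((Primrec.nat_lt.comp k3 (Primrec.succ.comp (sd hs))).and
      ((Primrec.eq.comp (Primrec.fst.comp hr) (Primrec.const 0)).and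
        ((Primrec.nat_lt.comp (Primrec.const 0) (Primrec.list_length.comp hr2)).and
          (pzeq (ptarget (sP hs) (sd hs) (sn1 hs) (pget hr2 (Primrec.const 0)) k3)
            (Primrec.const (0, 0))).not)))

end Pool.Agent.Lib.MP_39893a_lc.PRIMCHKM

namespace Pool.Agent.Lib.MP_39893a_lc

open PRIMCHKM

theorem specPrimChk : SpecPrimChk := pChk Primrec.fst Primrec.snd

theorem specPrimSrch : SpecPrimSrch := pSrch Primrec.fst Primrec.snd

end Pool.Agent.Lib.MP_39893a_lc
end

section
/-!
# Every polynomial has an expression (MP_39893a_lc)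
-/
set_option autoImplicit false

namespace Pool.Agent.Lib.MP_39893a_lc.TokM

open MvPolynomial

/-- The expression `e` pushes the value `f env`. -/
def Push (e : List PTok) (f : List (List ℤ) → ℤ) : Prop :=
  ∀ env st, e.foldl ((ringOps ℤ).pstep env) st = f env :: st

theorem Push.eval {e : List PTok} {f : List (List ℤ) → ℤ} (h : Push e f) (env : List (List ℤ)) :
    (ringOps ℤ).evalP env e = f env := by
  rw [Ops.evalP, h env []]
  rfl

theorem push_nat (n : ℕ) : Push [(0, n)] (fun _ => (n : ℤ)) := fun _ _ => rfl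

theorem push_var (b i : ℕ) : Push [(b + 4, i)] (fun env => (env.getD b []).getD i 0) := by
  intro env st
  simp only [List.foldl_cons, List.foldl_nil, Ops.pstep]
  rw [if_neg (by omega), if_neg (by omega), if_neg (by omega), if_neg (by omega),
    Nat.add_sub_cancel]
  simp [ringOps]

theorem Push.neg {e : List PTok} {f : List (List ℤ) → ℤ} (h : Push e f) :
    Push (e ++ [(3, 0)]) (fun env => - f env) := by
  intro env st
  rw [List.foldl_append, h env st]
  rfl

theorem Push.add {e e' : List PTok} {f f' : List (List ℤ) → ℤ} (h : Push e f) (h' : Push e' f') :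
    Push (e ++ e' ++ [(1, 0)]) (fun env => f env + f' env) := by
  intro env st
  rw [List.foldl_append, List.foldl_append, h env st, h' env _]
  show (f' env + f env) :: st = _
  rw [add_comm]

theorem Push.mul {e e' : List PTok} {f f' : List (List ℤ) → ℤ} (h : Push e f) (h' : Push e' f') :
    Push (e ++ e' ++ [(2, 0)]) (fun env => f env * f' env) := by
  intro env st
  rw [List.foldl_append, List.foldl_append, h env st, h' env _]
  show (f' env * f env) :: st = _
  rw [mul_comm]

theorem push_int (z : ℤ) : ∃ e, Push e (fun _ => z) := by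
  obtain ⟨n, rfl | rfl⟩ := z.eq_nat_or_neg
  · exact ⟨_, push_nat n⟩
  · exact ⟨_, (push_nat n).neg⟩

theorem push_inner (n : ℕ) (p : MvPolynomial (Fin n) ℤ) :
    ∃ e, Push e (fun env => MvPolynomial.eval (fun i : Fin n => (env.getD 0 []).getD i 0) p) := by
  induction p using MvPolynomial.induction_on with
  | C z =>
    obtain ⟨e, he⟩ := push_int z
    exact ⟨e, by simpa using he⟩
  | add p q hp hq =>
    obtain ⟨e, he⟩ := hp
    obtain ⟨e', he'⟩ := hq
    exact ⟨_, by simpa using he.add he'⟩
  | mul_X p i hp =>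
    obtain ⟨e, he⟩ := hp
    exact ⟨_, by simpa using he.mul (push_var 0 i)⟩

theorem push_outer (ι : Type) (pos : ι → ℕ × ℕ) (n : ℕ)
    (p : MvPolynomial ι (MvPolynomial (Fin n) ℤ)) :
    ∃ e, Push e (fun env => MvPolynomial.eval
      (fun q => (env.getD (pos q).1 []).getD (pos q).2 0)
      (MvPolynomial.map (MvPolynomial.eval fun i : Fin n => (env.getD 0 []).getD i 0) p)) := by
  induction p using MvPolynomial.induction_on with
  | C z =>
    obtain ⟨e, he⟩ := push_inner n z
    exact ⟨e, by simpa using he⟩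
  | add p q hp hq =>
    obtain ⟨e, he⟩ := hp
    obtain ⟨e', he'⟩ := hq
    exact ⟨_, by simpa using he.add he'⟩
  | mul_X p i hp =>
    obtain ⟨e, he⟩ := hp
    exact ⟨_, by simpa using he.mul (push_var (pos i).1 (pos i).2)⟩

end Pool.Agent.Lib.MP_39893a_lc.TokM

namespace Pool.Agent.Lib.MP_39893a_lc

theorem specTok : SpecTok := by
  intro ι pos n p
  obtain ⟨e, he⟩ := TokM.push_outer ι pos n p
  exact ⟨e, fun env => he.eval env⟩

end Pool.Agent.Lib.MP_39893a_lc
end

section
/-!
# The decision procedure (MP_39893a_lc)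
-/
set_option autoImplicit false

namespace Pool.Agent.Lib.MP_39893a_lc

/-- Projections of primitive recursive predicates are recursively enumerable. -/
theorem re_exists {α β : Type} [Primcodable α] [Primcodable β] {p : α → β → Prop}
    (hp : PrimrecPred fun q : α × β => p q.1 q.2) : REPred fun a => ∃ b, p a b := by
  classical
  have h1 : Primrec fun q : α × β => decide (p q.1 q.2) := hp.decide
  let f : α → ℕ → Bool := fun a n =>
    ((Encodable.decode (α := β) n).map fun b => decide (p a b)).getD false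
  have hf : Primrec fun q : α × ℕ => f q.1 q.2 := by
    refine Primrec.option_getD.comp (Primrec.option_map (Primrec.decode.comp Primrec.snd) ?_)
      (Primrec.const false)
    exact h1.comp (Primrec.pair (Primrec.fst.comp Primrec.fst) Primrec.snd)
  have h2 : Partrec fun a => Nat.rfind fun n => Part.some (f a n) :=
    Partrec.rfind (p := fun a n => Part.some (f a n)) hf.to_comp.partrec
  refine h2.dom_re.of_eq fun a => ?_
  rw [Nat.rfind_dom]
  constructor
  · rintro ⟨n, hn, _⟩
    have hn' : f a n = true := by simpa using hn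
    simp only [f] at hn'
    cases hd : Encodable.decode (α := β) n with
    | none => rw [hd] at hn'; simp at hn'
    | some b =>
      rw [hd] at hn'
      exact ⟨b, by simpa using hn'⟩
  · rintro ⟨b, hb⟩
    refine ⟨Encodable.encode b, ?_, fun _ => trivial⟩
    simp [f, Encodable.encodek, hb]

theorem raw_iff (s : Sys) : Raw s ↔ ∃ c : Cert, Chk s c :=
  ⟨specComplete specAlg specTok s, fun ⟨c, hc⟩ => specSound (specGrid specDeg) s c hc⟩

/-- The decided statement is decidable. -/
theorem computable_raw : ComputablePred Raw := by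
  rw [ComputablePred.computable_iff_re_compl_re']
  exact ⟨(re_exists specPrimChk).of_eq fun s => (raw_iff s).symm,
    (re_exists specPrimSrch).of_eq fun s => (specSearch s).symm⟩

theorem primrec_lsum : Primrec lsum :=
  Primrec.list_foldr Primrec.id (Primrec.const 0)
    (Primrec.nat_add.comp (Primrec.fst.comp Primrec.snd) (Primrec.snd.comp Primrec.snd)).to₂

theorem primrec_norm : Primrec norm := by
  have hB : Primrec fun x : Inp => x.2.2.1 := Primrec.fst.comp (Primrec.snd.comp Primrec.snd)
  have h1 : Primrec fun x : Inp => x.2.2.2.1 :=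
    Primrec.fst.comp (Primrec.snd.comp (Primrec.snd.comp Primrec.snd))
  have h2 : Primrec fun x : Inp => x.2.2.2.2 :=
    Primrec.snd.comp (Primrec.snd.comp (Primrec.snd.comp Primrec.snd))
  refine Primrec.pair (Primrec.nat_add.comp (Primrec.nat_add.comp
    (primrec_lsum.comp (Primrec.fst.comp h1)) (primrec_lsum.comp (Primrec.fst.comp h2)))
    (primrec_lsum.comp hB)) (Primrec.pair (Primrec.succ.comp Primrec.fst)
    (Primrec.pair (Primrec.list_length.comp hB) (Primrec.pair
      (Primrec.list_length.comp (Primrec.snd.comp h1)) (Primrec.pair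
        (Primrec.fst.comp Primrec.snd)
        (Primrec.list_append.comp (Primrec.snd.comp h1) (Primrec.snd.comp h2))))))

theorem computable_norm_raw : ComputablePred fun x : Inp => Raw (norm x) := by
  classical
  exact (computable_raw.decide.comp primrec_norm.to_comp).computablePred

/-- **Main theorem.** -/
theorem main : ∃ D : ℕ × List ℕ × List ℕ × Code × Code → Bool, Computable D ∧
    ∀ (A B : List ℕ) (M₁ M₂ : DMTT A B) (k : ℕ),
      ((∀ s, Ranked A s → M₁.tau s = M₂.tau s) → D (k, A, B, M₁.code, M₂.code) = true) ∧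
      (D (k, A, B, M₁.code, M₂.code) = true → ∀ s, Ranked A s →
        ((M₁.tau s).isSome = (M₂.tau s).isSome) ∧
        ∀ t₁ t₂, M₁.tau s = some t₁ → M₂.tau s = some t₂ →
          Thin k t₁ t₂ → t₁ = t₂) := by
  classical
  refine ⟨fun x => decide (Raw (norm x)), computable_norm_raw.decide, fun A B M₁ M₂ k => ?_⟩
  constructor
  · intro h
    exact decide_eq_true (raw_of_equiv M₁ M₂ k h)
  · intro h s hs
    have hraw : Raw (norm (inp M₁ M₂ k)) := of_decide_eq_true h
    exact ⟨dom_of_raw M₁ M₂ k hraw s hs,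
      fun t₁ t₂ h1 h2 hk => eq_of_raw M₁ M₂ k hraw s hs h1 h2 hk⟩

end Pool.Agent.Lib.MP_39893a_lc
end
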