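import Pool.Agent.Lib.MP_39893a_lc.Defs

/-!
# The stack machine computing coefficient vectors, over any set of numbers (MP_39893a_lc)
-/

set_option autoImplicit false

namespace Pool.Agent.Lib.MP_39893a_lc

/-- Arithmetic operations on a type. -/
structure Ops (α : Type) where
  nat : ℕ → α
  add : α → α → α
  mul : α → α → α
  neg : α → α

/-- The operations of a commutative ring. -/
def ringOps (S : Type) [CommRing S] : Ops S :=
  ⟨fun n => (n : S), (· + ·), (· * ·), fun a => -a⟩

/-- A map respecting the operations. -/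
structure Ops.Hom {α β : Type} (o : Ops α) (o' : Ops β) (φ : α → β) : Prop where
  nat : ∀ n, φ (o.nat n) = o'.nat n
  add : ∀ a b, φ (o.add a b) = o'.add (φ a) (φ b)
  mul : ∀ a b, φ (o.mul a b) = o'.mul (φ a) (φ b)
  neg : ∀ a, φ (o.neg a) = o'.neg (φ a)

/-- A token of a right-hand side. -/
abbrev Tok : Type := ℕ × ℕ × ℕ × ℕ

namespace Ops

variable {α : Type} (o : Ops α)

/-- Sum of `f 0, ..., f (n-1)`. -/
def sum (f : ℕ → α) : ℕ → α
  | 0 => o.nat 0
  | n + 1 => o.add (sum f n) (f n)

/-- Product of `f 0, ..., f (n-1)`. -/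
def prod (f : ℕ → α) : ℕ → α
  | 0 => o.nat 1
  | n + 1 => o.mul (prod f n) (f n)

/-- `1 - a`. -/
def co (a : α) : α := o.add (o.nat 1) (o.neg a)

/-- The entry of a list form. -/
def gF (d : ℕ) (F : List α) (j x y : ℕ) : α := F.getD ((j * (d + 1) + x) * (d + 1) + y) (o.nat 0)

end Ops

/-- Length of a form. -/
def fs (P d : ℕ) : ℕ := (P + 1) * (d + 1) * (d + 1)

/-- The list form with given entries. -/
def mkF {α : Type} (P d : ℕ) (f : ℕ → ℕ → ℕ → α) : List α :=
  (List.range (fs P d)).map fun t =>
    f (t / (d + 1) / (d + 1)) (t / (d + 1) % (d + 1)) (t % (d + 1))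

namespace Ops

variable {α : Type} (o : Ops α)

/-- Entries of the composition of the form `S` with the forms `Fs`. -/
def appE (P d : ℕ) (S : List α) (Fs : List (List α)) (j x y : ℕ) : α :=
  if x = d then
    if j = 0 then
      o.mul (o.gF d S 0 d 0)
        (o.prod (fun i => o.co (o.mul (o.gF d S (i + 1) d 0)
          (o.co (o.gF d (Fs.getD i []) 0 d 0)))) P)
    else
      o.co (o.prod (fun i => o.co (o.mul (o.gF d S (i + 1) d 0)
        (o.gF d (Fs.getD i []) j d 0))) P)
  else
    o.add (if j = 0 then o.gF d S 0 x 0 else o.nat 0)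
      (o.sum (fun i => o.sum (fun b => o.mul (o.gF d S (i + 1) x b)
        (o.gF d (Fs.getD i []) j b (if j = 0 then 0 else y))) d) P)

/-- Entries of the form of the parameter `p`. -/
def parE (d p : ℕ) (j x y : ℕ) : α :=
  if x = d then (if j = 0 ∨ j = p + 1 then o.nat 1 else o.nat 0)
  else if j = p + 1 ∧ x = y then o.nat 1 else o.nat 0

/-- Entries of the form of the output symbol `b` with `r` arguments; `V` is the list of the
coefficients of the interpretation. -/
def symE (P d : ℕ) (V : List α) (b r : ℕ) (j x y : ℕ) : α :=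
  if j ≤ r then
    if x = d then o.nat 1
    else V.getD (b * fs P d + ((j * (d + 1) + x) * (d + 1) + y)) (o.nat 0)
  else o.nat 0

/-- One step of the stack machine. -/
def step (P d off : ℕ) (V : List α) (bl : List (List α)) (st : List (List α)) (tk : Tok) :
    List (List α) :=
  if tk.1 = 0 then mkF P d (o.parE d tk.2.1) :: st
  else if tk.1 = 1 then
    mkF P d (o.appE P d (mkF P d (o.symE P d V tk.2.1 tk.2.2.1)) (st.take tk.2.2.1).reverse)
      :: st.drop tk.2.2.1
  else
    mkF P d (o.appE P d ((bl.getD tk.2.2.1 []).drop ((off + tk.2.1) * fs P d))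
      (st.take tk.2.2.2).reverse) :: st.drop tk.2.2.2

/-- The form of a right-hand side. -/
def rhsV (P d off : ℕ) (V : List α) (bl : List (List α)) (rhs : Option (List Tok)) : List α :=
  ((rhs.getD []).foldl (o.step P d off V bl) []).headD []

/-- The coefficient vector of a tree with root symbol `a` and coefficient vectors `bl` of the
subtrees. The states are the rows of `T`; the calls in the rows from `n1` on are shifted by
`n1`. -/
def vecS (P d n1 : ℕ) (T : List (List (Option (List Tok)))) (a : ℕ) (V : List α)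
    (bl : List (List α)) : List α :=
  (List.range (T.length * fs P d)).map fun t =>
    (o.rhsV P d (if t / fs P d < n1 then 0 else n1) V bl
      ((T.getD (t / fs P d) []).getD a none)).getD (t % fs P d) (o.nat 0)

/-- The coefficient vector of a tree. -/
def vecT (P d n1 : ℕ) (T : List (List (Option (List Tok)))) (V : List α) : Tree → List α
  | .node a _ c => o.vecS P d n1 T a V (List.ofFn fun i => vecT P d n1 T V (c i))

/-- The definedness bit of a form whose parameters are all undefined. -/
def nbres (P d : ℕ) (F : List α) : α :=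
  o.mul (o.gF d F 0 d 0) (o.prod (fun j => o.co (o.gF d F (j + 1) d 0)) P)

/-- The quantities that have to vanish, `e ≤ d`. -/
def target (P d n1 : ℕ) (x : List α) (e : ℕ) : α :=
  if e = d then o.add (o.nbres P d x) (o.neg (o.nbres P d (x.drop (n1 * fs P d))))
  else o.mul (o.nbres P d x)
    (o.add (o.gF d x 0 e 0) (o.neg (o.gF d (x.drop (n1 * fs P d)) 0 e 0)))

end Ops

/-! ## Index computations -/

theorem ix_div {d j x y : ℕ} (hy : y ≤ d) : ((j * (d + 1) + x) * (d + 1) + y) / (d + 1)
    = j * (d + 1) + x := by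
  rw [Nat.add_div_of_dvd_right (Dvd.intro_left _ rfl), Nat.mul_div_cancel _ (Nat.succ_pos d),
    Nat.div_eq_of_lt (by omega), Nat.add_zero]

theorem ix_mod {d j x y : ℕ} (hy : y ≤ d) : ((j * (d + 1) + x) * (d + 1) + y) % (d + 1) = y := by
  rw [Nat.add_comm, Nat.add_mul_mod_self_right, Nat.mod_eq_of_lt (by omega)]

theorem gF_mkF {α : Type} (o : Ops α) {P d j x y : ℕ} (hj : j ≤ P) (hx : x ≤ d) (hy : y ≤ d)
    (f : ℕ → ℕ → ℕ → α) : o.gF d (mkF P d f) j x y = f j x y := by
  have hlt : (j * (d + 1) + x) * (d + 1) + y < fs P d := by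
    unfold fs
    nlinarith [Nat.mul_le_mul_right (d + 1) hj, Nat.mul_le_mul_right (d + 1)
      (Nat.mul_le_mul_right (d + 1) hj), Nat.mul_le_mul_right (d + 1) hx]
  rw [Ops.gF, mkF, List.getD_eq_getElem?_getD, List.getElem?_map, List.getElem?_range hlt]
  simp only [Option.map_some, Option.getD_some]
  rw [ix_div hy, ix_mod hy]
  have h1 : (j * (d + 1) + x) / (d + 1) = j := by
    rw [Nat.add_div_of_dvd_right (Dvd.intro_left _ rfl), Nat.mul_div_cancel _ (Nat.succ_pos d),
      Nat.div_eq_of_lt (by omega), Nat.add_zero]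
  have h2 : (j * (d + 1) + x) % (d + 1) = x := by
    rw [Nat.add_comm, Nat.add_mul_mod_self_right, Nat.mod_eq_of_lt (by omega)]
  rw [h1, h2]

end Pool.Agent.Lib.MP_39893a_lc
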